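import Pool.Agent.Lib.H78Q.Defs
import Pool.Agent.Lib.H78P.SkR

set_option autoImplicit false

/-! Chunk A1. Words of the classes. -/

open Finset
namespace H78Q
open H62w H78P

theorem Q0_prop {L0 y : ℕ} {l : List ℕ} (hl : l ∈ Q0 L0 y) :
    l ∈ words L0 L0 ∧ 199 * L0 ≤ 100 * l.sum ∧ 100 * l.sum ≤ 201 * L0 ∧ FPc L0 y l := by
  rw [Q0, mem_filter, TW, mem_filter] at hl
  obtain ⟨⟨h1, h2, h3⟩, h4⟩ := hl
  exact ⟨h1, by omega, by omega, h4⟩

theorem A1_take_succ {l : List ℕ} {i : ℕ} (hi : i < l.length) :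
    ∃ a, l.take (i + 1) = l.take i ++ [a] := by
  refine ⟨l[i], ?_⟩
  rw [List.take_append_getElem]

/-- The constant of an initial segment. -/
theorem Q0_cc {L0 y : ℕ} {l : List ℕ} (hl : l ∈ Q0 L0 y) (i : ℕ) (hi : i ≤ L0) :
    3 * (8 ^ L0 + L0) * cc (l.take i) ≤ i * y * 2 ^ H62y.JJ l i := by
  obtain ⟨h1, -, -, h4⟩ := Q0_prop hl
  have hlen := (mem_words.1 h1).1
  induction i with
  | zero => simp [cc]
  | succ i ih =>
    have ih' := ih (by omega)
    obtain ⟨a, ha⟩ := A1_take_succ (l := l) (i := i) (by omega)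
    have hJ : H62y.JJ l (i + 1) = H62y.JJ l i + a := by
      unfold H62y.JJ
      rw [ha, List.sum_append]
      simp
    have hF := h4 (i + 1) (mem_range.2 (by omega)) (by omega)
    rw [ha, cc_concat, List.length_take, min_eq_left (by omega), hJ, pow_add]
    rw [hJ, pow_add 2, pow_succ 3 i] at hF
    set X := 8 ^ L0 + L0 with hX
    set J := 2 ^ H62y.JJ l i with hJ'
    set A := 2 ^ a with hA
    calc 3 * X * (A * cc (l.take i) + 3 ^ i) = A * (3 * X * cc (l.take i)) + X * (3 ^ i * 3) := by ring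
      _ ≤ A * (i * y * J) + y * (J * A) := Nat.add_le_add (Nat.mul_le_mul_left _ ih') hF
      _ = (i + 1) * y * (J * A) := by ring

theorem A1_base {L0 y : ℕ} (hy : y ≤ 8 ^ L0) {l : List ℕ} (hl : l ∈ Q0 L0 y) :
    3 * cc l ≤ L0 * 2 ^ l.sum := by
  have h1 := (mem_words.1 (Q0_prop hl).1).1
  have h2 := Q0_cc hl L0 le_rfl
  have h3 : l.take L0 = l := List.take_of_length_le (by omega)
  have h4 : H62y.JJ l L0 = l.sum := by unfold H62y.JJ; rw [h3]
  rw [h3, h4] at h2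
  have h5 : 8 ^ L0 * (3 * cc l) ≤ 8 ^ L0 * (L0 * 2 ^ l.sum) := by
    calc 8 ^ L0 * (3 * cc l) ≤ (8 ^ L0 + L0) * (3 * cc l) := Nat.mul_le_mul_right _ (Nat.le_add_right _ _)
      _ = 3 * (8 ^ L0 + L0) * cc l := by ring
      _ ≤ L0 * y * 2 ^ l.sum := h2
      _ ≤ L0 * 8 ^ L0 * 2 ^ l.sum := Nat.mul_le_mul_right _ (Nat.mul_le_mul_left _ hy)
      _ = 8 ^ L0 * (L0 * 2 ^ l.sum) := by ring
  exact Nat.le_of_mul_le_mul_left h5 (by positivity)

theorem A1_inv {M L0 y : ℕ} (hL : 100 ≤ L0) (hM : L0 ≤ M) (hy : y ≤ 8 ^ L0) (j : ℕ) :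
    ∀ {l : List ℕ}, l ∈ Qw M L0 y j →
    l ∈ words M (Ls 100 L0 j) ∧
      Ls 100 L0 j * cc l + 2 ^ l.sum ≤ Ls 100 L0 j * ((L0 + 1) * 2 ^ l.sum) ∧
      199 * Ls 100 L0 j ≤ 100 * l.sum ∧ 100 * l.sum ≤ 201 * Ls 100 L0 j := by
  induction j with
  | zero =>
    intro l hl
    change l ∈ Q0 L0 y at hl
    obtain ⟨h1, h2, h3, -⟩ := Q0_prop hl
    have h4 := A1_base hy hl
    refine ⟨words_mono hM _ h1, ?_, h2, h3⟩
    show L0 * cc l + 2 ^ l.sum ≤ L0 * ((L0 + 1) * 2 ^ l.sum)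
    have h5 : cc l ≤ L0 * 2 ^ l.sum := by omega
    have h6 : 2 ^ l.sum ≤ L0 * 2 ^ l.sum := Nat.le_mul_of_pos_left _ (by omega)
    calc L0 * cc l + 2 ^ l.sum ≤ L0 * (L0 * 2 ^ l.sum) + L0 * 2 ^ l.sum :=
          Nat.add_le_add (Nat.mul_le_mul_left _ h5) h6
      _ = L0 * ((L0 + 1) * 2 ^ l.sum) := by ring
  | succ j ih =>
    intro l hl
    change l ∈ ((Qw M L0 y j) ×ˢ (TW 100 M (Ls 100 L0 j / 100))).image (fun x => x.1 ++ x.2) at hl
    obtain ⟨⟨u, v⟩, huv, rfl⟩ := mem_image.1 hl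
    obtain ⟨hu, hv⟩ := mem_product.1 huv
    dsimp only at hu hv ⊢
    obtain ⟨i1, i2, i3, i4⟩ := ih hu
    have hLj : L0 ≤ Ls 100 L0 j := Ls_ge 100 L0 j
    have e0 : Ls 100 L0 (j + 1) = Ls 100 L0 j + Ls 100 L0 j / 100 := rfl
    rw [e0]
    set L := Ls 100 L0 j with hLdef
    set k := L / 100 with hk
    rw [TW, mem_filter] at hv
    obtain ⟨v1, v2, v3⟩ := hv
    have v4 := mem_words.1 v1
    have i6 := mem_words.1 i1
    have hL100 : 100 ≤ L := by omega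
    have hk1 : 1 ≤ k := by omega
    have hsum : (u ++ v).sum = u.sum + v.sum := List.sum_append
    refine ⟨?_, ?_, by rw [hsum]; omega, by rw [hsum]; omega⟩
    · rw [mem_words, List.length_append, i6.1, v4.1]
      refine ⟨rfl, fun a ha => ?_⟩
      rcases List.mem_append.1 ha with ha | ha
      · exact i6.2 a ha
      · exact v4.2 a ha
    · rw [hsum, H62w.cc_append, i6.1]
      have c1 := cc_triv (l := v) (fun a ha => (v4.2 a ha).1)
      rw [v4.1] at c1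
      have c2 := i2_err (N := 100) (s := u.sum) le_rfl hL100 (by omega)
      rw [← hk] at c2
      have c3 : L * (L + 1) * (3 ^ L * cc v) ≤ 2 ^ u.sum * 2 ^ v.sum := by
        have c4 : 2 ^ k * (L * (L + 1) * (3 ^ L * cc v)) ≤ 2 ^ k * (2 ^ u.sum * 2 ^ v.sum) := by
          calc 2 ^ k * (L * (L + 1) * (3 ^ L * cc v)) = L * (L + 1) * 3 ^ L * (2 ^ k * cc v) := by ring
            _ ≤ L * (L + 1) * 3 ^ L * (3 ^ k * 2 ^ v.sum) := Nat.mul_le_mul_left _ c1
            _ = (L * (L + 1) * (3 ^ L * 3 ^ k)) * 2 ^ v.sum := by ring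
            _ ≤ (2 ^ u.sum * 2 ^ k) * 2 ^ v.sum := Nat.mul_le_mul_right _ c2
            _ = 2 ^ k * (2 ^ u.sum * 2 ^ v.sum) := by ring
        exact Nat.le_of_mul_le_mul_left c4 (by positivity)
      set C : ℕ := L0 + 1 with hC
      have hLr : (100 : ℝ) ≤ L := by exact_mod_cast hL100
      have hkr : (1 : ℝ) ≤ k := by exact_mod_cast hk1
      have r2 : (L : ℝ) * cc u + 2 ^ u.sum ≤ L * (C * 2 ^ u.sum) := by exact_mod_cast i2
      have r3 : (L : ℝ) * (L + 1) * (3 ^ L * cc v) ≤ 2 ^ u.sum * 2 ^ v.sum := by exact_mod_cast c3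
      have p1 : (0 : ℝ) < 2 ^ u.sum := by positivity
      have p2 : (0 : ℝ) < 2 ^ v.sum := by positivity
      suffices h : ((L : ℝ) + k) * (2 ^ v.sum * cc u + 3 ^ L * cc v) + 2 ^ (u.sum + v.sum) ≤
          (L + k) * (C * 2 ^ (u.sum + v.sum)) by exact_mod_cast h
      rw [pow_add]
      set X : ℝ := 2 ^ u.sum with hX
      set Y : ℝ := 2 ^ v.sum with hY
      have hL0 : (0 : ℝ) < L := by linarith
      have a1 : (cc u : ℝ) ≤ (C - 1 / L) * X := by
        have e : (C - 1 / L) * X = (L * (C * X) - X) / L := by field_simp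
        rw [e, le_div_iff₀ hL0]
        linarith
      have a2 : (3 : ℝ) ^ L * cc v ≤ X * Y / (L * (L + 1)) := by
        rw [le_div_iff₀ (by positivity)]
        linarith
      have a3 : 1 / ((L : ℝ) * (L + 1)) ≤ 1 / L - 1 / (L + k) := by
        have e1 : 1 / ((L : ℝ) * (L + 1)) = 1 / L - 1 / (L + 1) := by
          field_simp
          ring
        rw [e1]
        have : 1 / ((L : ℝ) + k) ≤ 1 / (L + 1) := by
          apply one_div_le_one_div_of_le <;> linarith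
        linarith
      have hLk : (0 : ℝ) < L + k := by linarith
      have a4 : Y * (cc u : ℝ) + 3 ^ L * cc v ≤ (C - 1 / (L + k)) * (X * Y) := by
        have b1 : Y * (cc u : ℝ) ≤ Y * ((C - 1 / L) * X) := mul_le_mul_of_nonneg_left a1 p2.le
        have b2 : X * Y / (L * (L + 1)) ≤ (1 / L - 1 / (L + k)) * (X * Y) := by
          rw [div_eq_mul_one_div, mul_comm]
          exact mul_le_mul_of_nonneg_right a3 (by positivity)
        have b3 : Y * ((C - 1 / L) * X) + (1 / L - 1 / (L + k)) * (X * Y) = (C - 1 / (L + k)) * (X * Y) := by ring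
        linarith
      calc ((L : ℝ) + k) * (Y * cc u + 3 ^ L * cc v) + X * Y
          ≤ (L + k) * ((C - 1 / (L + k)) * (X * Y)) + X * Y := by
            have := mul_le_mul_of_nonneg_left a4 hLk.le
            linarith
        _ = (L + k) * (C * (X * Y)) := by
            field_simp
            ring

theorem Qw_prop {M L0 y : ℕ} (hL : 100 ≤ L0) (hM : L0 ≤ M) (hy : y ≤ 8 ^ L0) (j : ℕ) {l : List ℕ}
    (hl : l ∈ Qw M L0 y j) :
    l ∈ words M (Ls 100 L0 j) ∧ cc l ≤ (L0 + 1) * 2 ^ l.sum ∧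
      199 * Ls 100 L0 j ≤ 100 * l.sum ∧ 100 * l.sum ≤ 201 * Ls 100 L0 j := by
  obtain ⟨h1, h2, h3, h4⟩ := A1_inv hL hM hy j hl
  refine ⟨h1, ?_, h3, h4⟩
  have hpos : 0 < Ls 100 L0 j := lt_of_lt_of_le (by omega) (Ls_ge 100 L0 j)
  exact Nat.le_of_mul_le_mul_left ((Nat.le_add_right _ _).trans h2) hpos

theorem Qw_append {M L0 y j : ℕ} {l l' : List ℕ} (hl : l ∈ Qw M L0 y j) (hl' : l' ∈ TW 100 M (Ls 100 L0 j / 100)) :
    l ++ l' ∈ Qw M L0 y (j + 1) := by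
  show l ++ l' ∈ ((Qw M L0 y j) ×ˢ (TW 100 M (Ls 100 L0 j / 100))).image (fun x => x.1 ++ x.2)
  exact mem_image.2 ⟨(l, l'), mem_product.2 ⟨hl, hl'⟩, rfl⟩

end H78Q
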