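import Pool.Agent.Lib.H78Q.SkA1

set_option autoImplicit false

/-! Chunk A2. The words stay above `X = 8^L0`. -/

open Finset
namespace H78Q
open H62w H78P

theorem A2_va_take {l : List ℕ} {y : ℕ} (hv : va l y) (i : ℕ) : va (l.take i) y := by
  rw [← List.take_append_drop i l, va_append] at hv
  exact hv.1

theorem fp_short {L0 y : ℕ} (hL : 1 ≤ L0) {l : List ℕ} (hl : l ∈ Q0 L0 y) (hv : va l y) (i : ℕ) (hi : 1 ≤ i)
    (hi' : i ≤ L0) : 8 ^ L0 < en (l.take i) y := by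
  obtain ⟨h1, -, -, h4⟩ := Q0_prop hl
  have hlen := (mem_words.1 h1).1
  have hF := h4 i (mem_range.2 (by omega)) hi
  have hc := Q0_cc hl i hi'
  have he := en_eq _ _ (A2_va_take hv i)
  rw [List.length_take, min_eq_left (by omega)] at he
  change 2 ^ H62y.JJ l i * y = 3 ^ i * en (l.take i) y + cc (l.take i) at he
  set J := 2 ^ H62y.JJ l i with hJ
  set E := en (l.take i) y with hE
  set c := cc (l.take i) with hcc
  by_contra hcon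
  rw [not_lt] at hcon
  -- `3 (X+L0) J y = 3 (X+L0) 3^i E + 3 (X+L0) c ≤ 3 (X+L0) 3^i X + i y J`
  have h5 : (3 * (8 ^ L0 + L0)) * (J * y) ≤ (3 * (8 ^ L0 + L0)) * (3 ^ i * 8 ^ L0) + i * (J * y) := by
    calc (3 * (8 ^ L0 + L0)) * (J * y) = (3 * (8 ^ L0 + L0)) * (3 ^ i * E) + 3 * (8 ^ L0 + L0) * c := by
          rw [he]; ring
      _ ≤ (3 * (8 ^ L0 + L0)) * (3 ^ i * 8 ^ L0) + i * y * J :=
          Nat.add_le_add (Nat.mul_le_mul_left _ (Nat.mul_le_mul_left _ hcon)) hc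
      _ = _ := by ring
  -- `(3 (X+L0) - i) J y ≥ (3 (X+L0) - i) (X+L0) 3^i`
  obtain ⟨d, hd⟩ : ∃ d, 3 * (8 ^ L0 + L0) = i + d := ⟨3 * (8 ^ L0 + L0) - i, by omega⟩
  have h6 : d * (J * y) ≤ (3 * (8 ^ L0 + L0)) * (3 ^ i * 8 ^ L0) := by
    have : (i + d) * (J * y) ≤ (3 * (8 ^ L0 + L0)) * (3 ^ i * 8 ^ L0) + i * (J * y) := by rw [← hd]; exact h5
    rw [add_mul] at this
    omega
  have h7 : d * ((8 ^ L0 + L0) * 3 ^ i) ≤ 3 * (8 ^ L0 + L0) * (3 ^ i * 8 ^ L0) := by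
    refine le_trans (Nat.mul_le_mul_left _ hF) ?_
    rw [mul_comm y J]
    exact h6
  have h8 : ((8 ^ L0 + L0) * 3 ^ i) * d ≤ ((8 ^ L0 + L0) * 3 ^ i) * (3 * 8 ^ L0) := by
    calc ((8 ^ L0 + L0) * 3 ^ i) * d = d * ((8 ^ L0 + L0) * 3 ^ i) := by ring
      _ ≤ 3 * (8 ^ L0 + L0) * (3 ^ i * 8 ^ L0) := h7
      _ = _ := by ring
  have h9 := Nat.le_of_mul_le_mul_left h8 (by positivity)
  omega

/-- `3^L (3/2)^k ≤ 2^s`. -/
theorem A2_pow1 {L k s : ℕ} (h1 : 199 * L ≤ 100 * s) (h2 : 8 * k ≤ L) : 3 ^ L * 3 ^ k ≤ 2 ^ s * 2 ^ k := by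
  rw [← pow_add, ← pow_add]
  have h5 : (3 ^ (L + k)) ^ 5 ≤ (2 ^ (s + k)) ^ 5 := by
    calc (3 ^ (L + k)) ^ 5 = (3 ^ 5) ^ (L + k) := by rw [← pow_mul, ← pow_mul, mul_comm]
      _ ≤ (2 ^ 8) ^ (L + k) := Nat.pow_le_pow_left (by norm_num) _
      _ = 2 ^ (8 * (L + k)) := by rw [← pow_mul]
      _ ≤ 2 ^ ((s + k) * 5) := Nat.pow_le_pow_right (by norm_num) (by omega)
      _ = (2 ^ (s + k)) ^ 5 := by rw [pow_mul]
  exact le_of_pow_le_pow_left₀ (by norm_num) (by positivity) h5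

theorem A2_pow2 {L0 L k s : ℕ} (hL0 : 100 ≤ L0) (hL : L0 ≤ L) (h1 : 199 * L ≤ 100 * s) (h2 : 8 * k ≤ L) :
    8 ^ L0 * 3 ^ (L + k) * 2 < 2 ^ (s + k) * Y0 L0 := by
  have h5 : 3 ^ (5 * (L + k)) ≤ 2 ^ (8 * (L + k)) := by
    rw [pow_mul, pow_mul]
    exact Nat.pow_le_pow_left (by norm_num) _
  have h6 : (8 ^ L0 * 3 ^ (L + k) * 2) ^ 5 < (2 ^ (s + k) * Y0 L0) ^ 5 := by
    unfold Y0
    have e1 : (8 ^ L0 * 3 ^ (L + k) * 2) ^ 5 = 2 ^ (15 * L0 + 5) * 3 ^ (5 * (L + k)) := by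
      rw [show (8 : ℕ) = 2 ^ 3 by norm_num]
      rw [mul_pow, mul_pow, ← pow_mul, ← pow_mul, ← pow_mul, pow_add]
      rw [show 3 * (L0 * 5) = 15 * L0 by ring, show (L + k) * 5 = 5 * (L + k) by ring]
      ring
    have e2 : (2 ^ (s + k) * 2 ^ (3 * L0 - L0 / 20)) ^ 5 = 2 ^ (5 * (s + k) + 5 * (3 * L0 - L0 / 20)) := by
      rw [← pow_add, ← pow_mul]
      congr 1
      ring
    rw [e1, e2]
    calc 2 ^ (15 * L0 + 5) * 3 ^ (5 * (L + k)) ≤ 2 ^ (15 * L0 + 5) * 2 ^ (8 * (L + k)) :=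
          Nat.mul_le_mul_left _ h5
      _ = 2 ^ (15 * L0 + 5 + 8 * (L + k)) := by rw [← pow_add]
      _ < 2 ^ (5 * (s + k) + 5 * (3 * L0 - L0 / 20)) := Nat.pow_lt_pow_right (by norm_num) (by omega)
  exact lt_of_pow_lt_pow_left₀ 5 (by positivity) h6

theorem A2_Y0 {L0 : ℕ} (hL : 100 ≤ L0) : 2 * (L0 + 2) ≤ Y0 L0 := by
  unfold Y0
  have h1 : L0 < 2 ^ L0 := Nat.lt_two_pow_self
  have h2 : 2 ^ (L0 + 2) ≤ 2 ^ (3 * L0 - L0 / 20) := Nat.pow_le_pow_right (by norm_num) (by omega)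
  have h3 : 2 ^ (L0 + 2) = 4 * 2 ^ L0 := by rw [pow_add]; ring
  omega

theorem fp_long {M L0 y j : ℕ} (hL : 100 ≤ L0) (hM : L0 ≤ M) (hY : Y0 L0 ≤ y) (hy : y ≤ 8 ^ L0) {l1 l2 : List ℕ}
    (h1 : l1 ∈ Qw M L0 y j) (h2 : ∀ a ∈ l2, 1 ≤ a) (h8 : 8 * l2.length ≤ Ls 100 L0 j) (hv : va (l1 ++ l2) y) :
    8 ^ L0 < en (l1 ++ l2) y := by
  obtain ⟨g1, g2, g3, -⟩ := Qw_prop hL hM hy j h1
  have hlen := (mem_words.1 g1).1
  have hLs := Ls_ge 100 L0 j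
  set L := Ls 100 L0 j with hLdef
  set k := l2.length with hk
  have hs2 : k ≤ l2.sum := by
    have : ∀ m : List ℕ, (∀ a ∈ m, 1 ≤ a) → m.length ≤ m.sum := by
      intro m
      induction m with
      | nil => simp
      | cons a m ih =>
        intro h
        have e1 := ih fun b hb => h b (List.mem_cons_of_mem _ hb)
        have e2 := h a List.mem_cons_self
        rw [List.length_cons, List.sum_cons]
        omega
    exact this l2 h2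
  have he := en_eq _ _ hv
  rw [List.sum_append, List.length_append, hlen, H62w.cc_append, hlen, ← hk] at he
  set E := en (l1 ++ l2) y with hE
  have c1 := cc_triv h2
  rw [← hk] at c1
  have c2 := A2_pow1 g3 h8
  -- `3^L cc l2 ≤ 2^(s1+s2)`
  have c3 : 3 ^ L * cc l2 ≤ 2 ^ l1.sum * 2 ^ l2.sum := by
    have c4 : 2 ^ k * (3 ^ L * cc l2) ≤ 2 ^ k * (2 ^ l1.sum * 2 ^ l2.sum) := by
      calc 2 ^ k * (3 ^ L * cc l2) = 3 ^ L * (2 ^ k * cc l2) := by ring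
        _ ≤ 3 ^ L * (3 ^ k * 2 ^ l2.sum) := Nat.mul_le_mul_left _ c1
        _ = (3 ^ L * 3 ^ k) * 2 ^ l2.sum := by ring
        _ ≤ (2 ^ l1.sum * 2 ^ k) * 2 ^ l2.sum := Nat.mul_le_mul_right _ c2
        _ = _ := by ring
    exact Nat.le_of_mul_le_mul_left c4 (by positivity)
  have c5 : 2 ^ l2.sum * cc l1 + 3 ^ L * cc l2 ≤ (L0 + 2) * 2 ^ (l1.sum + l2.sum) := by
    calc 2 ^ l2.sum * cc l1 + 3 ^ L * cc l2 ≤ 2 ^ l2.sum * ((L0 + 1) * 2 ^ l1.sum) + 2 ^ l1.sum * 2 ^ l2.sum :=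
          Nat.add_le_add (Nat.mul_le_mul_left _ g2) c3
      _ = (L0 + 2) * 2 ^ (l1.sum + l2.sum) := by rw [pow_add]; ring
  have hY0 := A2_Y0 hL
  -- `2^(s1+s2) Y0 ≤ 2 3^(L+k) E`
  have c6 : 2 ^ (l1.sum + l2.sum) * Y0 L0 ≤ 2 * (3 ^ (L + k) * E) := by
    have c7 : 2 * (2 ^ (l1.sum + l2.sum) * y) ≤ 2 * (3 ^ (L + k) * E) + 2 ^ (l1.sum + l2.sum) * (2 * (L0 + 2)) := by
      rw [he]
      have : 2 ^ (l1.sum + l2.sum) * (2 * (L0 + 2)) = 2 * ((L0 + 2) * 2 ^ (l1.sum + l2.sum)) := by ring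
      omega
    have c8 : 2 ^ (l1.sum + l2.sum) * (Y0 L0 + 2 * (L0 + 2)) ≤ 2 ^ (l1.sum + l2.sum) * (2 * y) :=
      Nat.mul_le_mul_left _ (by omega)
    have c9 : 2 ^ (l1.sum + l2.sum) * (Y0 L0 + 2 * (L0 + 2)) =
      2 ^ (l1.sum + l2.sum) * Y0 L0 + 2 ^ (l1.sum + l2.sum) * (2 * (L0 + 2)) := by ring
    have c10 : 2 ^ (l1.sum + l2.sum) * (2 * y) = 2 * (2 ^ (l1.sum + l2.sum) * y) := by ring
    omega
  have d1 := A2_pow2 (k := k) hL hLs g3 h8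
  have d2 : 2 ^ (l1.sum + k) * Y0 L0 ≤ 2 ^ (l1.sum + l2.sum) * Y0 L0 :=
    Nat.mul_le_mul_right _ (Nat.pow_le_pow_right (by norm_num) (by omega))
  have d3 : (2 * 3 ^ (L + k)) * 8 ^ L0 < (2 * 3 ^ (L + k)) * E := by
    calc (2 * 3 ^ (L + k)) * 8 ^ L0 = 8 ^ L0 * 3 ^ (L + k) * 2 := by ring
      _ < 2 ^ (l1.sum + k) * Y0 L0 := d1
      _ ≤ _ := d2
      _ ≤ 2 * (3 ^ (L + k) * E) := c6
      _ = _ := by ring
  exact Nat.lt_of_mul_lt_mul_left d3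

end H78Q
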