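import Pool.Agent.Lib.H78Q.Defs

set_option autoImplicit false

/-! Chunk A3. Elementary facts on the end points. -/

open Finset
namespace H78Q
open H62w H78P

theorem A3_nx {a y : ℕ} (h : 2 ^ a * y % 3 = 1) : 3 * nx a y + 1 = 2 ^ a * y := by
  unfold nx
  omega

theorem A3_nx_odd {a y : ℕ} (ha : 1 ≤ a) (h : 2 ^ a * y % 3 = 1) : nx a y % 2 = 1 := by
  have h1 := A3_nx h
  obtain ⟨b, rfl⟩ := Nat.exists_eq_add_of_le' ha
  rw [pow_succ, mul_right_comm] at h1
  omega

theorem en_odd {y : ℕ} {l : List ℕ} (hy : y % 2 = 1) (hl : ∀ a ∈ l, 1 ≤ a) (hv : va l y) : en l y % 2 = 1 := by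
  induction l generalizing y with
  | nil => exact hy
  | cons a l ih =>
    exact ih (A3_nx_odd (hl a List.mem_cons_self) hv.1) (fun b hb => hl b (List.mem_cons_of_mem _ hb)) hv.2

theorem A3_T_pow (b y : ℕ) : H62z.T^[b] (2 ^ b * y) = y := by
  induction b with
  | zero => simp
  | succ b ih =>
    rw [Function.iterate_succ_apply]
    have h : H62z.T (2 ^ (b + 1) * y) = 2 ^ b * y := by
      unfold H62z.T
      rw [pow_succ, mul_right_comm, if_pos (Nat.mul_mod_left _ _)]
      omega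
    rw [h, ih]

theorem A3_step {a y : ℕ} (ha : 1 ≤ a) (h : 2 ^ a * y % 3 = 1) : H62z.T^[a] (nx a y) = y := by
  have h1 := A3_nx h
  have h2 := A3_nx_odd ha h
  obtain ⟨b, rfl⟩ := Nat.exists_eq_add_of_le' ha
  rw [Function.iterate_succ_apply]
  have h3 : H62z.T (nx (b + 1) y) = 2 ^ b * y := by
    unfold H62z.T
    rw [if_neg (by omega), h1, pow_succ, mul_right_comm]
    omega
  rw [h3, A3_T_pow]

theorem en_iter {y : ℕ} {l : List ℕ} (hl : ∀ a ∈ l, 1 ≤ a) (hv : va l y) : H62z.T^[l.sum] (en l y) = y := by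
  induction l generalizing y with
  | nil => rfl
  | cons a l ih =>
    rw [List.sum_cons, Function.iterate_add_apply]
    show H62z.T^[a] (H62z.T^[l.sum] (en l (nx a y))) = y
    rw [ih (fun b hb => hl b (List.mem_cons_of_mem _ hb)) hv.2]
    exact A3_step (hl a List.mem_cons_self) hv.1

theorem A3_FPW_init {X y : ℕ} {l : List ℕ} {a : ℕ} (h : FPW X y (l ++ [a])) : FPW X y l := by
  obtain ⟨h1, h2, h3⟩ := h
  refine ⟨fun b hb => h1 b (List.mem_append_left _ hb), ((va_append _ _ _).1 h2).1, fun i hi hi' => ?_⟩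
  have h4 := h3 i hi (by rw [List.length_append]; omega)
  rwa [List.take_append_of_le_length hi'] at h4

theorem A3_FPW_end {X y : ℕ} {l : List ℕ} (hne : l ≠ []) (h : FPW X y l) : X < en l y := by
  have h1 := h.2.2 l.length (by
    rcases Nat.eq_zero_or_pos l.length with h0 | h0
    · exact absurd (List.length_eq_zero_iff.1 h0) hne
    · exact h0) le_rfl
  rwa [List.take_length] at h1

theorem FPW_unique {X y y' : ℕ} {l l' : List ℕ} (hy : y % 2 = 1) (hy' : y' % 2 = 1) (hyX : y ≤ X) (hyX' : y' ≤ X)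
    (h : FPW X y l) (h' : FPW X y' l') (he : en l y = en l' y') : l = l' ∧ y = y' := by
  induction l using List.reverseRecOn generalizing l' with
  | nil =>
    by_cases hn : l' = []
    · subst hn
      exact ⟨rfl, he⟩
    · have h1 := A3_FPW_end hn h'
      rw [← he] at h1
      change X < y at h1
      omega
  | append_singleton l a ih =>
    rcases List.eq_nil_or_concat l' with rfl | ⟨m, b, rfl⟩
    · have h1 := A3_FPW_end (by simp) h
      rw [he] at h1
      change X < y' at h1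
      omega
    · rw [List.concat_eq_append] at *
      have g := A3_FPW_init h
      have g' := A3_FPW_init h'
      have v := ((va_append _ _ _).1 h.2.1).2
      have v' := ((va_append _ _ _).1 h'.2.1).2
      rw [en_append, en_append] at he
      change nx a (en l y) = nx b (en m y') at he
      have e1 := A3_nx v.1
      have e2 := A3_nx v'.1
      rw [he] at e1
      have o1 := en_odd hy g.1 g.2.1
      have o2 := en_odd hy' g'.1 g'.2.1
      obtain ⟨q1, q2⟩ := two_pow_odd_inj o1 o2 (e1.symm.trans e2)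
      obtain ⟨r1, r2⟩ := ih g g' q2
      exact ⟨by rw [r1, q1], r2⟩

/-- The sets `Cn X y` are disjoint, consist of odd numbers, and follow `y` in every invariant set. -/
theorem Cn_disjoint {X y y' : ℕ} (hy : y % 2 = 1) (hy' : y' % 2 = 1) (hyX : y ≤ X) (hyX' : y' ≤ X) (hne : y ≠ y') :
    Disjoint (Cn X y) (Cn X y') := by
  rw [Set.disjoint_left]
  rintro n ⟨l, -, h1, h2⟩ ⟨l', -, h1', h2'⟩
  exact hne (FPW_unique hy hy' hyX hyX' h1 h1' (h2.trans h2'.symm)).2

theorem Cn_odd {X y : ℕ} (hy : y % 2 = 1) {n : ℕ} (hn : n ∈ Cn X y) : n % 2 = 1 := by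
  obtain ⟨l, -, h1, rfl⟩ := hn
  exact en_odd hy h1.1 h1.2.1

theorem A3_inv_iter {R : Set ℕ} (hR : ∀ n, n ∈ R ↔ H62z.T n ∈ R) (k n : ℕ) : n ∈ R ↔ H62z.T^[k] n ∈ R := by
  induction k generalizing n with
  | zero => rfl
  | succ k ih =>
    rw [Function.iterate_succ_apply, ← ih]
    exact hR n

theorem Cn_inv {X y : ℕ} {R : Set ℕ} (hR : ∀ n, n ∈ R ↔ H62z.T n ∈ R) {n : ℕ} (hn : n ∈ Cn X y) : n ∈ R ↔ y ∈ R := by
  obtain ⟨l, -, h1, rfl⟩ := hn
  rw [A3_inv_iter hR l.sum, en_iter h1.1 h1.2.1]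

end H78Q
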