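import Pool.Agent.Lib.H78Q.SkA1

set_option autoImplicit false

/-! Chunk A4. Initial segments of the words. -/

open Finset
namespace H78Q
open H62w H78P

theorem A4_succ {M L0 y j : ℕ} {l : List ℕ} (hl : l ∈ Qw M L0 y (j + 1)) :
    ∃ u v, u ∈ Qw M L0 y j ∧ v ∈ TW 100 M (Ls 100 L0 j / 100) ∧ l = u ++ v := by
  change l ∈ ((Qw M L0 y j) ×ˢ (TW 100 M (Ls 100 L0 j / 100))).image (fun x => x.1 ++ x.2) at hl
  obtain ⟨⟨u, v⟩, huv, rfl⟩ := mem_image.1 hl
  obtain ⟨hu, hv⟩ := mem_product.1 huv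
  exact ⟨u, v, hu, hv, rfl⟩

theorem A4_TW {M k : ℕ} {v : List ℕ} (hv : v ∈ TW 100 M k) : v.length = k ∧ ∀ a ∈ v, 1 ≤ a := by
  rw [TW, mem_filter] at hv
  have h := mem_words.1 hv.1
  exact ⟨h.1, fun a ha => (h.2 a ha).1⟩

theorem Qw_len {M L0 y : ℕ} (j : ℕ) {l : List ℕ} (hl : l ∈ Qw M L0 y j) : l.length = Ls 100 L0 j := by
  induction j generalizing l with
  | zero =>
    change l ∈ Q0 L0 y at hl
    exact (mem_words.1 (Q0_prop hl).1).1
  | succ j ih =>
    obtain ⟨u, v, hu, hv, rfl⟩ := A4_succ hl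
    rw [List.length_append, ih hu, (A4_TW hv).1]
    rfl

/-- Initial segments of length at least `L0`. -/
theorem Qw_take {M L0 y : ℕ} (hL : 100 ≤ L0) (hM : L0 ≤ M) (j : ℕ) {l : List ℕ} (hl : l ∈ Qw M L0 y j) {i : ℕ} (hi : i ≤ Ls 100 L0 j)
    (hi0 : L0 ≤ i) : ∃ j' l1 l2, l1 ∈ Qw M L0 y j' ∧ l.take i = l1 ++ l2 ∧ (∀ a ∈ l2, 1 ≤ a) ∧ 8 * l2.length ≤ Ls 100 L0 j' := by
  induction j generalizing l with
  | zero =>
    have h1 := Qw_len 0 hl
    change i ≤ L0 at hi
    change l.length = L0 at h1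
    refine ⟨0, l, [], hl, ?_, by simp, by simp⟩
    rw [List.append_nil]
    exact List.take_of_length_le (by omega)
  | succ j ih =>
    obtain ⟨u, v, hu, hv, rfl⟩ := A4_succ hl
    have h1 := Qw_len j hu
    obtain ⟨h2, h3⟩ := A4_TW hv
    by_cases h : i ≤ Ls 100 L0 j
    · obtain ⟨j', l1, l2, g1, g2, g3, g4⟩ := ih hu h
      refine ⟨j', l1, l2, g1, ?_, g3, g4⟩
      rw [List.take_append_of_le_length (by omega)]
      exact g2
    · refine ⟨j, u, v.take (i - u.length), hu, ?_, fun a ha => h3 a (List.mem_of_mem_take ha), ?_⟩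
      · rw [List.take_append]
        rw [List.take_of_length_le (by omega)]
      · have := List.length_take_le' (i - u.length) v
        omega

theorem Qw_take0 {M L0 y : ℕ} (j : ℕ) {l : List ℕ} (hl : l ∈ Qw M L0 y j) : l.take L0 ∈ Q0 L0 y := by
  induction j generalizing l with
  | zero =>
    have h1 := Qw_len 0 hl
    change l.length = L0 at h1
    rw [List.take_of_length_le (by omega)]
    exact hl
  | succ j ih =>
    obtain ⟨u, v, hu, hv, rfl⟩ := A4_succ hl
    have h1 := Qw_len j hu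
    have h2 := Ls_ge 100 L0 j
    rw [List.take_append_of_le_length (by omega)]
    exact ih hu

end H78Q
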