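import Pool.Agent.Lib.H78Q.SkA2
import Pool.Agent.Lib.H78Q.SkA4

set_option autoImplicit false

/-! Chunk A5. All end points of a word of the classes, prolonged, are above the threshold. -/

open Finset
namespace H78Q
open H62w H78P

theorem A5_va_take {l : List ℕ} {y : ℕ} (hv : va l y) (i : ℕ) : va (l.take i) y := by
  rw [← List.take_append_drop i l, va_append] at hv
  exact hv.1

theorem fp_word {M L0 y j : ℕ} (hL : 100 ≤ L0) (hM : L0 ≤ M) (hY : Y0 L0 ≤ y) (hy : y ≤ 8 ^ L0) {l1 l2 : List ℕ}
    (h1 : l1 ∈ Qw M L0 y j) (h2 : ∀ a ∈ l2, 1 ≤ a) (h8 : 8 * l2.length ≤ Ls 100 L0 j) (hv : va (l1 ++ l2) y) :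
    FPW (8 ^ L0) y (l1 ++ l2) := by
  obtain ⟨g1, -, -, -⟩ := Qw_prop hL hM hy j h1
  have hlen := Qw_len j h1
  have hw := mem_words.1 g1
  have hLs := Ls_ge 100 L0 j
  refine ⟨?_, hv, fun i hi hi' => ?_⟩
  · intro a ha
    rcases List.mem_append.1 ha with ha | ha
    · exact (hw.2 a ha).1
    · exact h2 a ha
  · rw [List.length_append, hlen] at hi'
    have hv1 : va l1 y := ((va_append _ _ _).1 hv).1
    by_cases c1 : i ≤ L0
    · have e1 : (l1 ++ l2).take i = (l1.take L0).take i := by
        rw [List.take_append_of_le_length (by omega), List.take_take, min_eq_left c1]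
      rw [e1]
      exact fp_short (by omega) (Qw_take0 j h1) (A5_va_take hv1 L0) i hi c1
    · by_cases c2 : i ≤ Ls 100 L0 j
      · have e1 : (l1 ++ l2).take i = l1.take i := List.take_append_of_le_length (by omega)
        rw [e1]
        obtain ⟨j', m1, m2, k1, k2, k3, k4⟩ := Qw_take hL hM j h1 c2 (by omega)
        have hv2 := A5_va_take hv1 i
        rw [k2] at hv2 ⊢
        exact fp_long hL hM hY hy k1 k3 k4 hv2
      · have e1 : (l1 ++ l2).take i = l1 ++ l2.take (i - l1.length) := by
          rw [List.take_append, List.take_of_length_le (by omega)]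
        have hv2 := A5_va_take hv i
        rw [e1] at hv2 ⊢
        refine fp_long hL hM hY hy h1 (fun a ha => h2 a (List.mem_of_mem_take ha)) ?_ hv2
        have := List.length_take_le' (i - l1.length) l2
        omega

end H78Q
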