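import Pool.Agent.Lib.H78Q.SkA1
import Pool.Agent.Lib.H78P.A1
import Pool.Agent.Lib.H78P.F2

set_option autoImplicit false

/-! Chunk B. Propagation for the first passage classes (H78P.multi with N = 100, A = 3, B = L0 + 1, V = 3). -/

open Finset
namespace H78Q
open H62w H78P

theorem look_le_FF {L0 M p : ℕ} (hM : L0 ≤ M) (z : ℕ) : sm (words L0 p) (fun _ => 1) z ≤ FF M p z := by
  rw [FF_eq]
  unfold sm
  have h1 : ∑ l ∈ (words L0 p).filter (fun l => va l z), ww l * (1 : ℝ) =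
      ∑ l ∈ (words L0 p).filter (fun l => va l z), 3 ^ p * pw (M + 1) l := by
    refine sum_congr rfl fun l hl => ?_
    rw [mul_one, ww_of_words (words_mono hM p (mem_filter.1 hl).1)]
  rw [h1]
  refine sum_le_sum_of_subset_of_nonneg (filter_subset_filter _ (words_mono (by omega) p)) fun l _ _ => ?_
  exact mul_nonneg (by positivity) (L_pw_nonneg _ _)

theorem prop_fp : ∃ K : ℝ, 0 < K ∧ ∀ L0 y : ℕ, 100 ≤ L0 → y ≤ 8 ^ L0 → ∀ M j : ℕ, Ls 100 L0 j ≤ M →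
    Phi L0 y - K / L0 ^ 2 ≤ sm (Qw M L0 y j) (FF M (Ls 100 L0 j / 100)) y := by
  obtain ⟨K, hK, hm⟩ := multi (N := 100) le_rfl 3
  refine ⟨16 * K, by positivity, fun L0 y hL hy M j hj => ?_⟩
  have hM : L0 ≤ M := le_trans (Ls_ge 100 L0 j) hj
  have h := hm M L0 (L0 + 1) 3 y (Qw M L0 y) hL (fun i _ l hl => by
      obtain ⟨h1, h2, h3, h4⟩ := Qw_prop hL hM hy i hl
      exact ⟨h1, h2, by omega, by omega⟩)
    (fun i l hl l' hl' => Qw_append hl hl') j hj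
  refine le_trans ?_ h
  have h0 : Phi L0 y ≤ sm (Qw M L0 y 0) (FF M (L0 / 100)) y := by
    unfold Phi
    exact sm_mono (Finset.Subset.refl _) (fun z => sm_nonneg (fun _ => by norm_num) z) (fun z => look_le_FF hM z) y
  have hL0 : (100 : ℝ) ≤ L0 := by exact_mod_cast hL
  have h1 : K * (((3 : ℕ) : ℝ) + 1) * (((L0 + 1 : ℕ) : ℝ) + 2) / (L0 : ℝ) ^ 3 ≤ 16 * K / (L0 : ℝ) ^ 2 := by
    rw [div_le_div_iff₀ (by positivity) (by positivity)]
    push_cast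
    have h2 : (L0 : ℝ) + 3 ≤ 4 * L0 := by linarith
    have h3 : 0 ≤ K * (L0 : ℝ) ^ 2 := by positivity
    calc K * (3 + 1) * ((L0 : ℝ) + 1 + 2) * (L0 : ℝ) ^ 2 = 4 * (K * (L0 : ℝ) ^ 2) * (L0 + 3) := by ring
      _ ≤ 4 * (K * (L0 : ℝ) ^ 2) * (4 * L0) := mul_le_mul_of_nonneg_left h2 (by positivity)
      _ = 16 * K * (L0 : ℝ) ^ 3 := by ring
  linarith

end H78Q
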