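import Pool.Agent.Lib.H78Q.SkB
import Pool.Agent.Lib.H62y.Stage
import Pool.Agent.Lib.H78P.R

set_option autoImplicit false

/-! Chunk C. The structure H62y.Stage from the first passage classes. -/

open Finset
namespace H78Q
open H62w H78P

theorem stage_fp : ∃ K : ℝ, 0 < K ∧ ∀ L0 : ℕ, 100 ≤ L0 → ∃ D : ℝ, 0 ≤ D ∧ ∀ y : ℕ, y ≤ 8 ^ L0 →
    ∀ M j : ℕ, Ls 100 L0 j ≤ M → ∃ G : Finset (List ℕ),
      H62y.Stage 100 (M + 1) 0 (Ls 100 L0 j) y 0 ((L0 : ℝ) + 1) D (Phi L0 y - K / L0 ^ 2) G ∧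
        ∀ l ∈ G, l ∈ Qw M L0 y j := by
  obtain ⟨K, hK, hp⟩ := prop_fp
  refine ⟨K, hK, fun L0 hL => ⟨4 * ((L0 : ℝ) + 3), by positivity, fun y hy M j hj => ?_⟩⟩
  have hM : L0 ≤ M := le_trans (Ls_ge 100 L0 j) hj
  have hLge : L0 ≤ Ls 100 L0 j := Ls_ge 100 L0 j
  have hQ := fun l (hl : l ∈ Qw M L0 y j) => Qw_prop hL hM hy j hl
  have hph := hp L0 y hL hy M j hj
  set L := Ls 100 L0 j with hLdef
  refine ⟨(Qw M L0 y j).filter (fun l => va l y), ⟨?_, ?_, ?_, ?_, ?_, ?_, ?_⟩, fun l hl => (mem_filter.1 hl).1⟩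
  · intro l hl
    rw [(mem_words.1 (hQ l (mem_filter.1 hl).1).1).1, zero_add]
  · intro l hl a ha
    have := (mem_words.1 (hQ l (mem_filter.1 hl).1).1).2 a ha
    omega
  · intro l hl
    exact (mem_filter.1 hl).2
  · intro l hl
    obtain ⟨-, -, h1, h2⟩ := hQ l (mem_filter.1 hl).1
    have h1' : 199 * (L : ℝ) ≤ 100 * (l.sum : ℝ) := by exact_mod_cast h1
    have h2' : 100 * (l.sum : ℝ) ≤ 201 * (L : ℝ) := by exact_mod_cast h2
    have h100 : ((100 : ℕ) : ℝ) = 100 := by norm_num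
    rw [abs_le, h100]
    constructor <;> linarith
  · intro l hl
    have h1 := (hQ l (mem_filter.1 hl).1).2.1
    exact_mod_cast h1
  · intro r z hr
    have h := dens (G := Qw M L0 y j) (L := L) (q := r) (B := L0 + 1) (V := 3 * L)
      (fun l hl => (mem_words.1 (hQ l hl).1).1)
      (fun l hl a ha => ((mem_words.1 (hQ l hl).1).2 a ha).1)
      (fun l hl => by have := (hQ l hl).2.2.2; omega)
      (fun l hl => (hQ l hl).2.1)
      (fun l hl => R_pow (by have := (hQ l hl).2.2.1; omega) hr) y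
      (h := fun w => if w % 3 ^ r = z % 3 ^ r then (1 : ℝ) else 0)
      (fun w => by split_ifs <;> norm_num)
      (fun w => by simp only [Nat.mod_mod])
    rw [R_mn] at h
    have hsum : ∑ l ∈ ((Qw M L0 y j).filter (fun l => va l y)).filter (fun l => en l y % 3 ^ r = z % 3 ^ r), H62y.om l =
        sm (Qw M L0 y j) (fun w => if w % 3 ^ r = z % 3 ^ r then (1 : ℝ) else 0) y := by
      unfold sm
      rw [sum_filter]
      refine sum_congr rfl fun l _ => ?_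
      rw [R_om]
      by_cases hc : en l y % 3 ^ r = z % 3 ^ r
      · simp [hc]
      · simp [hc]
    rw [hsum]
    refine h.trans ?_
    have hL1 : (100 : ℝ) ≤ L := by exact_mod_cast (by omega : 100 ≤ L)
    have hL3 : (L : ℝ) ≤ (L : ℝ) ^ 3 := le_self_pow₀ (by linarith) (by norm_num)
    have h4 : (((3 * L : ℕ) : ℝ) + 1) ≤ 4 * (L : ℝ) ^ 3 := by push_cast; linarith
    have h5 : (((L0 + 1 : ℕ) : ℝ) + 2) = (L0 : ℝ) + 3 := by push_cast; ring
    rw [h5]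
    calc (((3 * L : ℕ) : ℝ) + 1) * ((L0 : ℝ) + 3) * (1 / 3 ^ r) ≤ (4 * (L : ℝ) ^ 3) * ((L0 : ℝ) + 3) * (1 / 3 ^ r) := by
          refine mul_le_mul_of_nonneg_right (mul_le_mul_of_nonneg_right h4 (by positivity)) (by positivity)
      _ = 4 * ((L0 : ℝ) + 3) * (L : ℝ) ^ 3 / 3 ^ r := by ring
  · exact hph

end H78Q
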