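import Pool.Agent.Lib.H78Q.SkA5
import Pool.Agent.Lib.H78Q.SkC
import Pool.Agent.Lib.H62r.SkLastSharp
import Pool.Agent.Lib.H62y.MassStages

set_option autoImplicit false

/-! Chunk D. Words of every large size, from the last stage with the sharp constant. -/

open Finset
namespace H78Q
open H62w H78P

theorem all_sizes : ∃ K : ℝ, 0 < K ∧ ∀ L0 : ℕ, 100 ≤ L0 → ∀ y : ℕ, Y0 L0 ≤ y → y ≤ 8 ^ L0 →
    0 < Phi L0 y - K / L0 ^ 2 → ∀ θ δ : ℝ, 1 / 2 ≤ θ → θ < 1 → 0 < δ → ∃ Θ0 : ℝ, ∀ Θ : ℝ, Θ0 ≤ Θ →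
    ∃ G : Finset (List ℕ), (∀ l ∈ G, FPW (8 ^ L0) y l ∧ θ * Θ * 3 ^ l.length < (2 : ℝ) ^ l.sum ∧
        (2 : ℝ) ^ l.sum ≤ Θ * 3 ^ l.length) ∧
      (Phi L0 y - K / L0 ^ 2) * (Real.log (1 / θ) / Real.log (4 / 3) - δ) ≤
        ∑ l ∈ G, (3 : ℝ) ^ l.length / (2 : ℝ) ^ l.sum := by
  obtain ⟨K, hK, hst⟩ := stage_fp
  refine ⟨K, hK, fun L0 hL y hY hy hκ θ δ hθ0 hθ1 hδ => ?_⟩
  obtain ⟨D, hD, hG⟩ := hst L0 hL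
  obtain ⟨L1, hlast⟩ := H62r.last_sharp (N := 100) le_rfl (C := 0) (B := (L0 : ℝ) + 1) (D := D)
    (κ := Phi L0 y - K / L0 ^ 2) le_rfl (by positivity) hD hκ hθ0 hθ1 hδ 0
  obtain ⟨X0, hX0⟩ := H62y.windows_cover (N := 100) le_rfl (Ls 100 L0) hL (fun j => rfl) L1
  refine ⟨Real.exp X0, fun Θ hΘ => ?_⟩
  have hΘ0 : 0 < Θ := lt_of_lt_of_le (Real.exp_pos _) hΘ
  have hlog : X0 ≤ Real.log Θ := by
    rw [Real.le_log_iff_exp_le hΘ0]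
    exact hΘ
  obtain ⟨j, hj1, hj2, hj3⟩ := hX0 _ hlog
  have hLge : L0 ≤ Ls 100 L0 j := Ls_ge 100 L0 j
  obtain ⟨G, hstage, hGQ⟩ := hG y hy (2 * Ls 100 L0 j) j (by omega)
  obtain ⟨G', h1, h2⟩ := hlast (Ls 100 L0 j) (2 * Ls 100 L0 j + 1) 0 y hj1 (by omega) le_rfl G hstage Θ hj2 hj3 hΘ0
  refine ⟨G', fun l hl => ?_, h2⟩
  obtain ⟨l1, hl1, l2, rfl, h8, hpos, hva, ha, hb⟩ := h1 l hl
  exact ⟨fp_word hL (by omega) hY hy (hGQ l1 hl1) hpos h8 hva, ha, hb⟩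

end H78Q
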