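import Pool.Agent.Lib.H78P.Defs
import Pool.Agent.Lib.H62z.Defs

set_option autoImplicit false

/-!
Natural density of the sets invariant under the `3x+1` map: definitions. See PROOF.md in this folder.
The threshold is `X = 8^L0`; roots are the odd `y` in `[Y0 L0, 8^L0]`; words start above a root and stay above the threshold.
-/

open Finset

namespace H78Q
open H62w H78P

/-- First passage condition at height `y`: `(X + L0) 3^i ≤ y 2^(J_i)` for `1 ≤ i ≤ length`. -/
def FPc (L0 y : ℕ) (l : List ℕ) : Prop :=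
  ∀ i ∈ range (l.length + 1), 1 ≤ i → (8 ^ L0 + L0) * 3 ^ i ≤ y * 2 ^ H62y.JJ l i

instance decFPc (L0 y : ℕ) (l : List ℕ) : Decidable (FPc L0 y l) := by
  unfold FPc; infer_instance

/-- Typical first passage words of length `L0`. -/
def Q0 (L0 y : ℕ) : Finset (List ℕ) := (TW 100 L0 L0).filter (fun l => FPc L0 y l)

/-- The word sets of the propagation. -/
def Qw (M L0 y : ℕ) : ℕ → Finset (List ℕ)
  | 0 => Q0 L0 y
  | j + 1 => ((Qw M L0 y j) ×ˢ (TW 100 M (Ls 100 L0 j / 100))).image (fun x => x.1 ++ x.2)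

/-- Lower cut of the roots. -/
def Y0 (L0 : ℕ) : ℕ := 2 ^ (3 * L0 - L0 / 20)

/-- The roots. -/
def Rt (L0 : ℕ) : Finset ℕ := (Icc (Y0 L0) (8 ^ L0)).filter (fun y => y % 2 = 1)

/-- The mass at stage `0`, with lookahead `L0 / 100`. -/
noncomputable def Phi (L0 y : ℕ) : ℝ := sm (Q0 L0 y) (sm (words L0 (L0 / 100)) (fun _ => 1)) y

/-- Word valid at `y`, all end points above `X`. -/
def FPW (X y : ℕ) (l : List ℕ) : Prop :=
  (∀ a ∈ l, 1 ≤ a) ∧ va l y ∧ ∀ i, 1 ≤ i → i ≤ l.length → X < en (l.take i) y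

/-- The odd integers whose first odd iterate `≤ X` is `y`. -/
def Cn (X y : ℕ) : Set ℕ := {n | ∃ l : List ℕ, l ≠ [] ∧ FPW X y l ∧ en l y = n}

/-- Counting function. -/
noncomputable def ct (S : Set ℕ) (x : ℕ) : ℝ := (Set.ncard {n : ℕ | n ∈ S ∧ n ≤ x} : ℝ)

/-- Step of the size walk. -/
noncomputable def xi (a : ℕ) : ℝ := a * Real.log 2 - Real.log 3

/-- Minimum of `0` and the sums of the initial segments. -/
noncomputable def m0 : List ℕ → ℝ
  | [] => 0
  | a :: l => min 0 (xi a + m0 l)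

/-- Positive part of the minimum of the sums of the nonempty initial segments. -/
noncomputable def mp : List ℕ → ℝ
  | [] => 0
  | a :: l => max 0 (xi a + m0 l)

/-- First root size from which the word is a first passage word. -/
noncomputable def al (L0 : ℕ) (l : List ℕ) : ℕ := max (Y0 L0) ⌈((8 : ℝ) ^ L0 + L0) * Real.exp (-mp l)⌉₊

end H78Q
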