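import Pool.Agent.Lib.H78Q.Defs

set_option autoImplicit false

/-! Chunk E1. Choice of the parameters. -/

open Finset
namespace H78Q
open H62w H78P

theorem choice (η : ℝ) (hη : 0 < η) : ∃ (θ δ : ℝ) (I : ℕ), 1 / 2 ≤ θ ∧ θ < 1 ∧ 0 < δ ∧
    1 / Real.log (4 / 3) - η ≤ ∑ i ∈ range I, θ ^ (i + 1) * (Real.log (1 / θ) / Real.log (4 / 3) - δ) := by
  have hc : 0 < Real.log (4 / 3) := Real.log_pos (by norm_num)
  set c := Real.log (4 / 3) with hcdef
  set e : ℝ := min (η * c / 4) (1 / 2) with he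
  have he0 : 0 < e := lt_min (by positivity) (by norm_num)
  have he1 : e ≤ η * c / 4 := min_le_left _ _
  have he2 : e ≤ 1 / 2 := min_le_right _ _
  have hθ1 : (1 : ℝ) - e < 1 := by linarith
  obtain ⟨I, hI⟩ := exists_pow_lt_of_lt_one (show 0 < η * c / 4 by positivity) hθ1
  refine ⟨1 - e, η / (2 * (I + 1)), I, by linarith, hθ1, by positivity, ?_⟩
  set θ : ℝ := 1 - e with hθ
  have hθ0 : 0 < θ := by rw [hθ]; linarith
  have hlog : 1 - θ ≤ Real.log (1 / θ) := by
    rw [one_div, Real.log_inv]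
    have := Real.log_le_sub_one_of_pos hθ0
    linarith
  have hsum : ∑ i ∈ range I, θ ^ (i + 1) * (1 - θ) = θ * (1 - θ ^ I) := by
    have h1 := geom_sum_mul θ I
    have h2 : ∑ i ∈ range I, θ ^ (i + 1) * (1 - θ) = -(θ * ((∑ i ∈ range I, θ ^ i) * (θ - 1))) := by
      rw [← sum_mul]
      have : ∑ i ∈ range I, θ ^ (i + 1) = θ * ∑ i ∈ range I, θ ^ i := by
        rw [mul_sum]
        exact sum_congr rfl fun i _ => by ring
      rw [this]; ring
    rw [h2, h1]; ring
  have hsplit : ∑ i ∈ range I, θ ^ (i + 1) * (Real.log (1 / θ) / c - η / (2 * (I + 1))) =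
      ∑ i ∈ range I, θ ^ (i + 1) * (Real.log (1 / θ) / c) -
        ∑ i ∈ range I, θ ^ (i + 1) * (η / (2 * (I + 1))) := by
    rw [← sum_sub_distrib]
    exact sum_congr rfl fun i _ => by ring
  have hpow : ∀ i : ℕ, θ ^ i ≤ 1 := fun i => pow_le_one₀ hθ0.le hθ1.le
  have h3 : ∑ i ∈ range I, θ ^ (i + 1) * (η / (2 * (I + 1))) ≤ η / 2 := by
    calc ∑ i ∈ range I, θ ^ (i + 1) * (η / (2 * (I + 1)))
        ≤ ∑ i ∈ range I, (η / (2 * ((I : ℝ) + 1))) :=
          sum_le_sum fun i _ => mul_le_of_le_one_left (by positivity) (hpow _)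
      _ = I * (η / (2 * ((I : ℝ) + 1))) := by rw [sum_const, card_range, nsmul_eq_mul]
      _ ≤ η / 2 := by
          rw [mul_div_assoc', div_le_div_iff₀ (by positivity) (by norm_num)]
          nlinarith
  have h4 : (1 - η * c / 2) / c ≤ ∑ i ∈ range I, θ ^ (i + 1) * (Real.log (1 / θ) / c) := by
    have h5 : θ * (1 - θ ^ I) / c ≤ ∑ i ∈ range I, θ ^ (i + 1) * (Real.log (1 / θ) / c) := by
      rw [← hsum, sum_div]
      apply sum_le_sum
      intro i _
      rw [mul_div_assoc]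
      exact mul_le_mul_of_nonneg_left (div_le_div_of_nonneg_right hlog hc.le) (by positivity)
    refine le_trans (div_le_div_of_nonneg_right ?_ hc.le) h5
    have h6 : θ * θ ^ I ≤ η * c / 4 :=
      (mul_le_of_le_one_left (by positivity) hθ1.le).trans hI.le
    nlinarith
  rw [hsplit]
  have h7 : (1 - η * c / 2) / c = 1 / c - η / 2 := by
    field_simp
  rw [h7] at h4
  linarith

end H78Q
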