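import Pool.Agent.Lib.H78Q.SkA3

set_option autoImplicit false

/-! Chunk E2. One cell. -/

open Finset
namespace H78Q
open H62w H78P

/-- Integers reached by first passage words with size in the cell `(θ Θ, Θ]`. -/
def Cell (X y : ℕ) (θ Θ : ℝ) : Set ℕ :=
  {n | ∃ l : List ℕ, FPW X y l ∧ θ * Θ * 3 ^ l.length < (2 : ℝ) ^ l.sum ∧ (2 : ℝ) ^ l.sum ≤ Θ * 3 ^ l.length ∧ en l y = n}

theorem cell_sub {X y : ℕ} {θ Θ : ℝ} (h : 1 ≤ θ * Θ) {x : ℝ} (hx : Θ * y ≤ x) {n : ℕ} (hn : n ∈ Cell X y θ Θ) :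
    n ∈ Cn X y ∧ (n : ℝ) ≤ x := by
  obtain ⟨l, hl, h1, h2, he⟩ := hn
  constructor
  · refine ⟨l, ?_, hl, he⟩
    rintro rfl
    simp at h1
    linarith
  · have h3 := en_eq l y hl.2.1
    rw [he] at h3
    have h4 : (3 : ℝ) ^ l.length * n ≤ 2 ^ l.sum * y := by
      have : 3 ^ l.length * n ≤ 2 ^ l.sum * y := by omega
      exact_mod_cast this
    have h5 : (2 : ℝ) ^ l.sum * y ≤ Θ * 3 ^ l.length * y :=
      mul_le_mul_of_nonneg_right h2 (Nat.cast_nonneg _)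
    have h6 : (3 : ℝ) ^ l.length * n ≤ 3 ^ l.length * (Θ * y) := by
      calc (3 : ℝ) ^ l.length * n ≤ Θ * 3 ^ l.length * y := h4.trans h5
        _ = _ := by ring
    exact (le_of_mul_le_mul_left h6 (by positivity)).trans hx

theorem cell_disjoint {X y : ℕ} (hy : y % 2 = 1) (hyX : y ≤ X) {θ Θ Θ' : ℝ} (h : Θ' ≤ θ * Θ) :
    Disjoint (Cell X y θ Θ) (Cell X y θ Θ') := by
  rw [Set.disjoint_left]
  rintro n ⟨l, hl, h1, h2, he⟩ ⟨l', hl', h1', h2', he'⟩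
  obtain ⟨hll, _⟩ := FPW_unique hy hy hyX hyX hl hl' (he.trans he'.symm)
  subst hll
  have h3 : Θ' * (3 : ℝ) ^ l.length ≤ θ * Θ * 3 ^ l.length :=
    mul_le_mul_of_nonneg_right h (by positivity)
  linarith

theorem cell_card {X y : ℕ} (hy : y % 2 = 1) (hyX : y ≤ X) {θ Θ : ℝ} (hθ : 0 < θ) (hΘ : 0 < Θ) {G : Finset (List ℕ)}
    (hG : ∀ l ∈ G, FPW X y l ∧ θ * Θ * 3 ^ l.length < (2 : ℝ) ^ l.sum ∧ (2 : ℝ) ^ l.sum ≤ Θ * 3 ^ l.length) :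
    ∃ S : Finset ℕ, (∀ n ∈ S, n ∈ Cell X y θ Θ) ∧ θ * Θ * ∑ l ∈ G, (3 : ℝ) ^ l.length / (2 : ℝ) ^ l.sum ≤ S.card := by
  refine ⟨G.image (fun l => en l y), ?_, ?_⟩
  · intro n hn
    rw [mem_image] at hn
    obtain ⟨l, hl, rfl⟩ := hn
    obtain ⟨h1, h2, h3⟩ := hG l hl
    exact ⟨l, h1, h2, h3, rfl⟩
  · rw [card_image_of_injOn]
    · rw [mul_sum, card_eq_sum_ones, Nat.cast_sum]
      apply sum_le_sum
      intro l hl
      obtain ⟨_, h2, _⟩ := hG l hl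
      rw [mul_div_assoc', Nat.cast_one, div_le_one (by positivity)]
      exact h2.le
    · intro l hl l' hl' he
      exact (FPW_unique hy hy hyX hyX (hG l hl).1 (hG l' hl').1 he).1

end H78Q
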