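import Pool.Agent.Lib.H78Q.SkE1
import Pool.Agent.Lib.H78Q.SkE2
import Pool.Agent.Lib.H78Q.SkD

set_option autoImplicit false

/-! Chunk E3. Count of the integers above one root. -/

open Finset
namespace H78Q
open H62w H78P

theorem E3_ct_nonneg (S : Set ℕ) (x : ℕ) : 0 ≤ ct S x := by
  unfold ct
  exact Nat.cast_nonneg _

theorem E3_card_le (S : Set ℕ) (x : ℕ) (F : Finset ℕ) (hF : ∀ n ∈ F, n ∈ S ∧ n ≤ x) :
    (F.card : ℝ) ≤ ct S x := by
  unfold ct
  have h1 : (F : Set ℕ) ⊆ {n : ℕ | n ∈ S ∧ n ≤ x} := fun n hn => hF n hn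
  have h2 : ({n : ℕ | n ∈ S ∧ n ≤ x}).Finite := (Set.finite_le_nat x).subset fun n hn => hn.2
  have h3 := Set.ncard_le_ncard h1 h2
  rw [Set.ncard_coe_finset] at h3
  exact_mod_cast h3

theorem count_root : ∃ K : ℝ, 0 < K ∧ ∀ L0 : ℕ, 100 ≤ L0 → ∀ y ∈ Rt L0, ∀ η : ℝ, 0 < η → ∃ x0 : ℕ, ∀ x : ℕ, x0 ≤ x →
    x * ((Phi L0 y - K / L0 ^ 2) / (y * Real.log (4 / 3)) - η) ≤ ct (Cn (8 ^ L0) y) x := by
  obtain ⟨K, hK, hall⟩ := all_sizes
  refine ⟨K, hK, ?_⟩
  intro L0 hL0 y hy η hη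
  have hy' := hy
  unfold Rt at hy'
  rw [mem_filter, mem_Icc] at hy'
  obtain ⟨⟨hy1, hy2⟩, hyo⟩ := hy'
  have hypos : 0 < y := by omega
  have hyR : (0 : ℝ) < y := by exact_mod_cast hypos
  have hc : 0 < Real.log (4 / 3) := Real.log_pos (by norm_num)
  by_cases hA : 0 < Phi L0 y - K / L0 ^ 2
  swap
  · refine ⟨0, fun x _ => ?_⟩
    refine le_trans ?_ (E3_ct_nonneg _ _)
    apply mul_nonpos_of_nonneg_of_nonpos (Nat.cast_nonneg _)
    have : (Phi L0 y - K / L0 ^ 2) / (y * Real.log (4 / 3)) ≤ 0 :=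
      div_nonpos_of_nonpos_of_nonneg (not_lt.1 hA) (by positivity)
    linarith
  set A := Phi L0 y - K / L0 ^ 2 with hAdef
  obtain ⟨θ, δ, I, hθ1, hθ2, hδ, hch⟩ := choice (η * y / A) (by positivity)
  have hθ0 : 0 < θ := by linarith
  obtain ⟨Θ0, hΘ0⟩ := hall L0 hL0 y hy1 hy2 hA θ δ hθ1 hθ2 hδ
  set B : ℝ := max Θ0 1 with hB
  have hB0 : 0 < B := lt_of_lt_of_le one_pos (le_max_right _ _)
  refine ⟨⌈B * y / θ ^ (I + 1)⌉₊, fun x hx => ?_⟩
  have hx1 : B * y / θ ^ (I + 1) ≤ x := (Nat.le_ceil _).trans (by exact_mod_cast hx)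
  have hpw : 0 < θ ^ (I + 1) := by positivity
  have hx2 : B * y ≤ x * θ ^ (I + 1) := by
    rwa [div_le_iff₀ hpw] at hx1
  have hΘ : ∀ i < I, B ≤ θ * (θ ^ i * x / y) := by
    intro i hi
    have h1 : θ ^ (I + 1) ≤ θ ^ (i + 1) := pow_le_pow_of_le_one hθ0.le hθ2.le (by omega)
    have h2 : B * y ≤ x * θ ^ (i + 1) :=
      hx2.trans (mul_le_mul_of_nonneg_left h1 (Nat.cast_nonneg _))
    have h3 : θ * (θ ^ i * x / y) = x * θ ^ (i + 1) / y := by ring
    rw [h3, le_div_iff₀ hyR]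
    exact h2
  have hΘpos : ∀ i < I, 0 < θ ^ i * x / y := by
    intro i hi
    have h1 := hΘ i hi
    by_contra hneg
    have h2 : θ * (θ ^ i * x / y) ≤ 0 :=
      mul_nonpos_of_nonneg_of_nonpos hθ0.le (not_lt.1 hneg)
    linarith
  have hΘge : ∀ i < I, Θ0 ≤ θ ^ i * x / y := by
    intro i hi
    have h1 := hΘ i hi
    have h2 : θ * (θ ^ i * x / y) ≤ θ ^ i * x / y :=
      mul_le_of_le_one_left (hΘpos i hi).le hθ2.le
    exact (le_max_left _ _).trans (h1.trans h2)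
  have hS : ∀ i : ℕ, ∃ S : Finset ℕ, i < I → (∀ n ∈ S, n ∈ Cell (8 ^ L0) y θ (θ ^ i * x / y)) ∧
      θ * (θ ^ i * x / y) * (A * (Real.log (1 / θ) / Real.log (4 / 3) - δ)) ≤ S.card := by
    intro i
    by_cases hi : i < I
    · obtain ⟨G, hG1, hG2⟩ := hΘ0 _ (hΘge i hi)
      obtain ⟨S, hS1, hS2⟩ := cell_card hyo hy2 hθ0 (hΘpos i hi) hG1
      refine ⟨S, fun _ => ⟨hS1, le_trans ?_ hS2⟩⟩
      exact mul_le_mul_of_nonneg_left hG2 (mul_pos hθ0 (hΘpos i hi)).le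
    · exact ⟨∅, fun h => absurd h hi⟩
  choose S hS using hS
  have hdisj : ∀ i < I, ∀ j < I, i < j → Disjoint (S i) (S j) := by
    intro i hi j hj hij
    rw [Finset.disjoint_left]
    intro n hn hn'
    have h1 := (hS i hi).1 n hn
    have h2 := (hS j hj).1 n hn'
    have h3 : θ ^ j * x / y ≤ θ * (θ ^ i * x / y) := by
      have h4 : θ ^ j ≤ θ ^ (i + 1) := pow_le_pow_of_le_one hθ0.le hθ2.le (by omega)
      have h5 : θ * (θ ^ i * x / y) = θ ^ (i + 1) * x / y := by ring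
      rw [h5]
      exact div_le_div_of_nonneg_right (mul_le_mul_of_nonneg_right h4 (Nat.cast_nonneg _)) hyR.le
    exact Set.disjoint_left.1 (cell_disjoint hyo hy2 h3) h1 h2
  have hpd : ((range I : Finset ℕ) : Set ℕ).PairwiseDisjoint S := by
    intro i hi j hj hij
    have hi' : i < I := by simpa using hi
    have hj' : j < I := by simpa using hj
    rcases lt_or_gt_of_ne hij with h | h
    · exact hdisj i hi' j hj' h
    · exact (hdisj j hj' i hi' h).symm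
  have hcard : ((range I).biUnion S).card = ∑ i ∈ range I, (S i).card :=
    card_biUnion hpd
  have hle : (((range I).biUnion S).card : ℝ) ≤ ct (Cn (8 ^ L0) y) x := by
    apply E3_card_le
    intro n hn
    rw [mem_biUnion] at hn
    obtain ⟨i, hi, hn⟩ := hn
    have hi' : i < I := mem_range.1 hi
    have h1 := (hS i hi').1 n hn
    have h2 : θ ^ i * x / y * y ≤ (x : ℝ) := by
      rw [div_mul_cancel₀ _ hyR.ne']
      exact mul_le_of_le_one_left (Nat.cast_nonneg _) (pow_le_one₀ hθ0.le hθ2.le)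
    have h3 := cell_sub ((le_max_right _ _).trans (hΘ i hi')) h2 h1
    exact ⟨h3.1, by exact_mod_cast h3.2⟩
  refine le_trans ?_ hle
  rw [hcard, Nat.cast_sum]
  have h1 : ∑ i ∈ range I, θ * (θ ^ i * x / y) * (A * (Real.log (1 / θ) / Real.log (4 / 3) - δ)) ≤
      ∑ i ∈ range I, ((S i).card : ℝ) :=
    sum_le_sum fun i hi => (hS i (mem_range.1 hi)).2
  refine le_trans ?_ h1
  have h2 : ∑ i ∈ range I, θ * (θ ^ i * x / y) * (A * (Real.log (1 / θ) / Real.log (4 / 3) - δ)) =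
      x * A / y * ∑ i ∈ range I, θ ^ (i + 1) * (Real.log (1 / θ) / Real.log (4 / 3) - δ) := by
    rw [mul_sum]
    exact sum_congr rfl fun i _ => by ring
  rw [h2]
  have h3 : (x : ℝ) * (A / (y * Real.log (4 / 3)) - η) =
      x * A / y * (1 / Real.log (4 / 3) - η * y / A) := by
    field_simp
  rw [h3]
  exact mul_le_mul_of_nonneg_left hch (by positivity)

end H78Q
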