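import Pool.Agent.Lib.H78Q.Defs

set_option autoImplicit false

/-! Chunk F1. Averages over the odd integers of a function of odd period, weighted by `1/y`. -/

open Finset
namespace H78Q
open H62w H78P

/-- The odd members of a block of length `2 P` run over all residues mod `P`. -/
theorem F1_block {P : ℕ} (hP : P % 2 = 1) {g : ℕ → ℝ} (hper : ∀ z, g z = g (z % P)) (c : ℕ) :
    ∑ y ∈ (Ico c (c + 2 * P)).filter (fun y => y % 2 = 1), g y = ∑ z ∈ range P, g z := by
  have hP0 : 0 < P := by omega
  -- first odd member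
  obtain ⟨d, hd1, hd2, hd3⟩ : ∃ d, c ≤ d ∧ d ≤ c + 1 ∧ d % 2 = 1 := by
    rcases Nat.mod_two_eq_zero_or_one c with h | h
    · exact ⟨c + 1, by omega, by omega, by omega⟩
    · exact ⟨c, by omega, by omega, by omega⟩
  have h1 : ∑ y ∈ (Ico c (c + 2 * P)).filter (fun y => y % 2 = 1), g y =
      ∑ i ∈ range P, g (d + 2 * i) := by
    refine Finset.sum_bij' (fun y _ => (y - d) / 2) (fun i _ => d + 2 * i) ?_ ?_ ?_ ?_ ?_
    · intro y hy
      rw [Finset.mem_filter, Finset.mem_Ico] at hy
      rw [Finset.mem_range]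
      omega
    · intro i hi
      rw [Finset.mem_range] at hi
      rw [Finset.mem_filter, Finset.mem_Ico]
      omega
    · intro y hy
      rw [Finset.mem_filter, Finset.mem_Ico] at hy
      show d + 2 * ((y - d) / 2) = y
      omega
    · intro i hi
      show (d + 2 * i - d) / 2 = i
      omega
    · intro y hy
      rw [Finset.mem_filter, Finset.mem_Ico] at hy
      show g y = g (d + 2 * ((y - d) / 2))
      congr 1
      omega
  have hinj : Set.InjOn (fun i => (d + 2 * i) % P) (range P : Finset ℕ) := by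
    intro i hi j hj hij
    rw [Finset.mem_coe, Finset.mem_range] at hi hj
    have h2 : d + 2 * i ≡ d + 2 * j [MOD P] := hij
    have h3 : 2 * i ≡ 2 * j [MOD P] := Nat.ModEq.add_left_cancel' d h2
    have hcop : Nat.gcd P 2 = 1 := by
      rw [Nat.gcd_comm]
      exact (Nat.coprime_two_left).2 (Nat.odd_iff.2 hP)
    have h4 : i ≡ j [MOD P] := Nat.ModEq.cancel_left_of_coprime hcop h3
    have h5 := h4
    unfold Nat.ModEq at h5
    rwa [Nat.mod_eq_of_lt hi, Nat.mod_eq_of_lt hj] at h5
  have himg : (range P).image (fun i => (d + 2 * i) % P) = range P := by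
    refine Finset.eq_of_subset_of_card_le ?_ ?_
    · intro z hz
      rw [Finset.mem_image] at hz
      obtain ⟨i, -, rfl⟩ := hz
      rw [Finset.mem_range]
      exact Nat.mod_lt _ hP0
    · rw [Finset.card_image_of_injOn hinj]
  rw [h1]
  conv_rhs => rw [← himg]
  rw [Finset.sum_image hinj]
  exact Finset.sum_congr rfl fun i _ => hper _

theorem F1_log {s t : ℝ} (hs : 0 < s) (ht : 0 ≤ t) : Real.log (s + t) - Real.log s ≤ t / s := by
  rw [← Real.log_div (by positivity) (by positivity)]
  have h := Real.log_le_sub_one_of_pos (x := (s + t) / s) (by positivity)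
  refine h.trans (le_of_eq ?_)
  field_simp
  ring

theorem F1_blocks {P : ℕ} (hP : P % 2 = 1) {g : ℕ → ℝ} (hg : ∀ z, 0 ≤ g z)
    (hper : ∀ z, g z = g (z % P)) {a : ℕ} (ha : 1 ≤ a) (t : ℕ) :
    (1 / 2) * ((∑ z ∈ range P, g z) / P) *
        (Real.log (a + 2 * P + 2 * P * t) - Real.log (a + 2 * P)) ≤
      ∑ y ∈ (Ico a (a + 2 * P * t)).filter (fun y => y % 2 = 1), g y / y := by
  have hP0 : 0 < P := by omega
  have hPR : (0 : ℝ) < P := by exact_mod_cast hP0
  have haR : (1 : ℝ) ≤ a := by exact_mod_cast ha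
  have hG : 0 ≤ ∑ z ∈ range P, g z := Finset.sum_nonneg fun z _ => hg z
  induction t with
  | zero => simp
  | succ t ih =>
    have hsplit : (Ico a (a + 2 * P * (t + 1))).filter (fun y => y % 2 = 1) =
        (Ico a (a + 2 * P * t)).filter (fun y => y % 2 = 1) ∪
        (Ico (a + 2 * P * t) (a + 2 * P * t + 2 * P)).filter (fun y => y % 2 = 1) := by
      rw [← Finset.filter_union, Finset.Ico_union_Ico_eq_Ico (by omega) (by omega)]
      congr 2
      ring
    have hdisj : Disjoint ((Ico a (a + 2 * P * t)).filter (fun y => y % 2 = 1))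
        ((Ico (a + 2 * P * t) (a + 2 * P * t + 2 * P)).filter (fun y => y % 2 = 1)) := by
      refine Finset.disjoint_filter_filter ?_
      rw [Finset.disjoint_left]
      intro y h1 h2
      rw [Finset.mem_Ico] at h1 h2
      omega
    rw [hsplit, Finset.sum_union hdisj]
    have hblk : (∑ z ∈ range P, g z) / (a + 2 * P + 2 * P * t) ≤
        ∑ y ∈ (Ico (a + 2 * P * t) (a + 2 * P * t + 2 * P)).filter (fun y => y % 2 = 1),
          g y / y := by
      rw [← F1_block hP hper (a + 2 * P * t), Finset.sum_div]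
      refine Finset.sum_le_sum fun y hy => ?_
      rw [Finset.mem_filter, Finset.mem_Ico] at hy
      have hy0 : (0 : ℝ) < y := by
        have : 0 < y := by omega
        exact_mod_cast this
      refine div_le_div_of_nonneg_left (hg y) hy0 ?_
      have : y ≤ a + 2 * P + 2 * P * t := by omega
      exact_mod_cast this
    have hlog := F1_log (s := (a : ℝ) + 2 * P + 2 * P * t) (t := 2 * P) (by positivity)
      (by positivity)
    have e1 : (a : ℝ) + 2 * P + 2 * P * ((t + 1 : ℕ) : ℝ) = a + 2 * P + 2 * P * t + 2 * P := by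
      push_cast; ring
    rw [e1]
    have h6 : (1 / 2) * ((∑ z ∈ range P, g z) / P) *
        (Real.log (a + 2 * P + 2 * P * t + 2 * P) - Real.log (a + 2 * P + 2 * P * t)) ≤
        (∑ z ∈ range P, g z) / (a + 2 * P + 2 * P * t) := by
      refine (mul_le_mul_of_nonneg_left hlog (by positivity)).trans (le_of_eq ?_)
      field_simp
    have h7 : (1 / 2) * ((∑ z ∈ range P, g z) / P) *
        (Real.log (a + 2 * P + 2 * P * t + 2 * P) - Real.log (a + 2 * P)) =
        (1 / 2) * ((∑ z ∈ range P, g z) / P) *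
        (Real.log (a + 2 * P + 2 * P * t + 2 * P) - Real.log (a + 2 * P + 2 * P * t)) +
        (1 / 2) * ((∑ z ∈ range P, g z) / P) *
        (Real.log (a + 2 * P + 2 * P * t) - Real.log (a + 2 * P)) := by ring
    rw [h7]
    linarith

theorem avg_odd {P : ℕ} (hP : P % 2 = 1) {g : ℕ → ℝ} (hg : ∀ z, 0 ≤ g z) (hper : ∀ z, g z = g (z % P)) {a X : ℕ}
    (ha : 1 ≤ a) : (1 / 2) * ((∑ z ∈ range P, g z) / P) * Real.log (X / (a + 2 * P)) ≤
      ∑ y ∈ (Icc a X).filter (fun y => y % 2 = 1), g y / y := by
  have hP0 : 0 < P := by omega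
  have hPR : (0 : ℝ) < P := by exact_mod_cast hP0
  have haR : (1 : ℝ) ≤ a := by exact_mod_cast ha
  have hG : 0 ≤ ∑ z ∈ range P, g z := Finset.sum_nonneg fun z _ => hg z
  have hR : 0 ≤ ∑ y ∈ (Icc a X).filter (fun y => y % 2 = 1), g y / y :=
    Finset.sum_nonneg fun y _ => div_nonneg (hg y) (Nat.cast_nonneg _)
  by_cases hX : X + 1 ≤ a
  · have hlog : Real.log (X / (a + 2 * P)) ≤ 0 := by
      refine Real.log_nonpos (by positivity) ?_
      rw [div_le_one (by positivity)]
      have : (X : ℝ) + 1 ≤ a := by exact_mod_cast hX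
      linarith
    have := mul_nonpos_of_nonneg_of_nonpos (a := (1 / 2) * ((∑ z ∈ range P, g z) / P))
      (by positivity) hlog
    linarith
  · push Not at hX
    obtain ⟨t, ht1, ht2⟩ : ∃ t, a + 2 * P * t ≤ X + 1 ∧ X + 1 < a + 2 * P + 2 * P * t := by
      refine ⟨(X + 1 - a) / (2 * P), ?_, ?_⟩
      · have := Nat.mul_div_le (X + 1 - a) (2 * P)
        omega
      · have := Nat.lt_mul_div_succ (X + 1 - a) (show 0 < 2 * P by omega)
        rw [Nat.mul_add] at this
        omega
    refine le_trans ?_ ((F1_blocks hP hg hper ha t).trans ?_)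
    · refine mul_le_mul_of_nonneg_left ?_ (by positivity)
      have hX0 : (0 : ℝ) < X := by
        have : 0 < X := by omega
        exact_mod_cast this
      rw [Real.log_div (by positivity) (by positivity)]
      have : Real.log X ≤ Real.log (a + 2 * P + 2 * P * t) := by
        refine Real.log_le_log hX0 ?_
        have : X ≤ a + 2 * P + 2 * P * t := by omega
        exact_mod_cast this
      linarith
    · refine Finset.sum_le_sum_of_subset_of_nonneg ?_ fun y _ _ =>
        div_nonneg (hg y) (Nat.cast_nonneg _)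
      refine Finset.filter_subset_filter _ ?_
      intro y hy
      rw [Finset.mem_Ico] at hy
      rw [Finset.mem_Icc]
      omega

end H78Q
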