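import Pool.Agent.Lib.H78Q.SkF1
import Pool.Agent.Lib.H78Q.SkG1
import Pool.Agent.Lib.H78P.SkA2

set_option autoImplicit false

/-! Chunk F2: exchange of the sums over the roots and over the words. -/

open Finset
namespace H78Q
open H62w H78P

theorem F2_Y0_pos (L0 : ℕ) : 1 ≤ Y0 L0 := Nat.one_le_two_pow

theorem F2_al_pos (L0 : ℕ) (l : List ℕ) : 1 ≤ al L0 l :=
  (F2_Y0_pos L0).trans (le_max_left _ _)

theorem FPc_of_mp {L0 y : ℕ} {l : List ℕ} (h : 0 < mp l) (hy : al L0 l ≤ y) : FPc L0 y l := by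
  intro i hi hi1
  rw [Finset.mem_range] at hi
  have h1 := mp_le h i hi1 (by omega)
  have h2 : ((8 : ℝ) ^ L0 + L0) * Real.exp (-mp l) ≤ y := by
    have h3 : ⌈((8 : ℝ) ^ L0 + L0) * Real.exp (-mp l)⌉₊ ≤ y := (le_max_right _ _).trans hy
    exact (Nat.le_ceil _).trans (by exact_mod_cast h3)
  have h4 : (3 : ℝ) ^ i = Real.exp (i * Real.log 3) := by
    rw [Real.exp_nat_mul, Real.exp_log (by norm_num)]
  have h5 : (2 : ℝ) ^ H62y.JJ l i = Real.exp (H62y.JJ l i * Real.log 2) := by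
    rw [Real.exp_nat_mul, Real.exp_log (by norm_num)]
  have h6 : ((8 : ℝ) ^ L0 + L0) * 3 ^ i ≤ y * 2 ^ H62y.JJ l i := by
    calc ((8 : ℝ) ^ L0 + L0) * 3 ^ i
        = (((8 : ℝ) ^ L0 + L0) * Real.exp (-mp l)) * Real.exp (mp l + i * Real.log 3) := by
          rw [h4, mul_assoc, ← Real.exp_add]
          congr 2
          ring
      _ ≤ y * Real.exp (mp l + i * Real.log 3) :=
          mul_le_mul_of_nonneg_right h2 (Real.exp_pos _).le
      _ ≤ y * 2 ^ H62y.JJ l i := by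
          rw [h5]
          refine mul_le_mul_of_nonneg_left (Real.exp_le_exp.2 ?_) (Nat.cast_nonneg _)
          linarith
  exact_mod_cast h6

theorem acc_swap {L0 : ℕ} (hL : 100 ≤ L0) :
    ∑ l ∈ (TW 100 L0 L0).filter (fun l => 0 < mp l), (1 / 2) * (pw (L0 + 1) l * pr L0 (words L0 (L0 / 100))) *
        Real.log ((8 : ℝ) ^ L0 / (al L0 l + 2 * 3 ^ (L0 + L0 / 100))) ≤ ∑ y ∈ Rt L0, Phi L0 y / y := by
  set h : ℕ → ℝ := sm (words L0 (L0 / 100)) (fun _ => 1) with hh
  have hh0 : ∀ z, 0 ≤ h z := fun z => sm_nonneg (fun _ => zero_le_one) z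
  have hper0 : Per 0 (fun _ => (1 : ℝ)) := fun _ => rfl
  have hperh : Per (L0 / 100) h := by
    have := per_sm (M := L0) (k := L0 / 100) (G := words L0 (L0 / 100)) (le_refl _) hper0
    rwa [Nat.add_zero] at this
  have hmnh : mn (L0 / 100) h = pr L0 (words L0 (L0 / 100)) := by
    have := mn_sm (M := L0) (k := L0 / 100) (G := words L0 (L0 / 100)) (le_refl _) hper0
    rw [Nat.add_zero] at this
    rw [hh, this]
    unfold mn
    simp
  set T := (TW 100 L0 L0).filter (fun l => 0 < mp l) with hT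
  have hTw : ∀ l ∈ T, l ∈ words L0 L0 := by
    intro l hl
    rw [hT, Finset.mem_filter] at hl
    exact (Finset.mem_filter.1 hl.1).1
  have hodd : (3 ^ (L0 + L0 / 100)) % 2 = 1 := by
    rw [Nat.pow_mod]; norm_num
  have key : ∀ l ∈ T, (1 / 2) * (pw (L0 + 1) l * pr L0 (words L0 (L0 / 100))) *
      Real.log ((8 : ℝ) ^ L0 / (al L0 l + 2 * 3 ^ (L0 + L0 / 100))) ≤
      ∑ y ∈ Rt L0, if al L0 l ≤ y then ww l * (if va l y then h (en l y) else 0) / y else 0 := by
    intro l hl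
    have hper := per_word (hTw l hl) hperh
    have hmean := shift_mean (hTw l hl) hperh
    have h1 := avg_odd hodd (g := fun y => ww l * (if va l y then h (en l y) else 0))
      (fun z => mul_nonneg (ww_pos l).le (by split_ifs; exacts [hh0 _, le_rfl]))
      (fun z => congrArg (fun t => ww l * t) (hper z)) (a := al L0 l) (X := 8 ^ L0) (F2_al_pos L0 l)
    have h2 : (∑ z ∈ range (3 ^ (L0 + L0 / 100)), ww l * (if va l z then h (en l z) else 0)) /
        ((3 ^ (L0 + L0 / 100) : ℕ) : ℝ) = pw (L0 + 1) l * pr L0 (words L0 (L0 / 100)) := by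
      rw [← hmnh, ← hmean]
      unfold mn
      rw [mul_div_assoc', mul_sum]
      push_cast
      congr 1
      refine sum_congr rfl fun z _ => ?_
      rw [ww_of_words (hTw l hl)]
      split_ifs <;> ring
    rw [h2] at h1
    push_cast at h1
    refine h1.trans (le_of_eq ?_)
    rw [← Finset.sum_filter]
    refine Finset.sum_congr ?_ fun y _ => rfl
    ext y
    unfold Rt
    simp only [Finset.mem_filter, Finset.mem_Icc]
    have : Y0 L0 ≤ al L0 l := le_max_left _ _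
    constructor
    · rintro ⟨⟨a1, a2⟩, a3⟩
      exact ⟨⟨⟨by omega, a2⟩, a3⟩, a1⟩
    · rintro ⟨⟨⟨a1, a2⟩, a3⟩, a4⟩
      exact ⟨⟨a4, a2⟩, a3⟩
  refine (Finset.sum_le_sum key).trans ?_
  rw [Finset.sum_comm]
  refine Finset.sum_le_sum fun y hy => ?_
  have hPhi : Phi L0 y = ∑ l ∈ Q0 L0 y, ww l * (if va l y then h (en l y) else 0) := by
    unfold Phi
    rw [A2_sm_eq]
  rw [hPhi, Finset.sum_div, ← Finset.sum_filter]
  refine Finset.sum_le_sum_of_subset_of_nonneg ?_ ?_
  · intro l hl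
    rw [Finset.mem_filter, hT, Finset.mem_filter] at hl
    unfold Q0
    rw [Finset.mem_filter]
    exact ⟨hl.1.1, FPc_of_mp hl.1.2 hl.2⟩
  · intro l _ _
    refine div_nonneg (mul_nonneg (ww_pos l).le ?_) (Nat.cast_nonneg _)
    split_ifs
    exacts [hh0 _, le_rfl]

end H78Q
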