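import Pool.Agent.Lib.H78Q.SkG1

set_option autoImplicit false

/-! Chunk F3: logarithm of the root range of a word. -/

open Finset
namespace H78Q
open H62w H78P

theorem F3_pow {L0 : ℕ} (hL : 100 ≤ L0) :
    (L0 + 1 + 2 * 3 ^ (L0 + L0 / 100)) * 2 ^ L0 ≤ 2 ^ (3 * L0 - L0 / 20) := by
  set n := L0 + L0 / 100 with hn
  have h1 : L0 + 1 ≤ 3 ^ n := by
    have h2 : L0 < 3 ^ L0 := Nat.lt_pow_self (by norm_num)
    have h3 : 3 ^ L0 ≤ 3 ^ n := Nat.pow_le_pow_right (by norm_num) (by omega)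
    omega
  have h4 : (3 ^ (n + 1)) ^ 100 ≤ (2 ^ (2 * L0 - L0 / 20)) ^ 100 := by
    have h5 : (3 : ℕ) ^ 100 ≤ 2 ^ 159 := by norm_num
    calc (3 ^ (n + 1)) ^ 100 = (3 ^ 100) ^ (n + 1) := by rw [← pow_mul, ← pow_mul, mul_comm]
      _ ≤ (2 ^ 159) ^ (n + 1) := Nat.pow_le_pow_left h5 _
      _ = 2 ^ (159 * (n + 1)) := by rw [← pow_mul]
      _ ≤ 2 ^ ((2 * L0 - L0 / 20) * 100) := Nat.pow_le_pow_right (by norm_num) (by omega)
      _ = (2 ^ (2 * L0 - L0 / 20)) ^ 100 := by rw [← pow_mul]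
  have h6 : 3 ^ (n + 1) ≤ 2 ^ (2 * L0 - L0 / 20) := (Nat.pow_le_pow_iff_left (by norm_num)).1 h4
  have h7 : 3 * L0 - L0 / 20 = (2 * L0 - L0 / 20) + L0 := by omega
  rw [h7, pow_add 2 (2 * L0 - L0 / 20) L0]
  refine Nat.mul_le_mul_right _ (le_trans ?_ h6)
  rw [pow_succ]
  omega

theorem al_log {L0 : ℕ} (hL : 100 ≤ L0) (l : List ℕ) :
    min (mp l) ((L0 / 20 : ℕ) * Real.log 2) - 1 / 2 ^ L0 ≤
      Real.log ((8 : ℝ) ^ L0 / (al L0 l + 2 * 3 ^ (L0 + L0 / 100))) := by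
  set u := min (mp l) ((L0 / 20 : ℕ) * Real.log 2) with hu
  have hlog2 : 0 < Real.log 2 := Real.log_pos (by norm_num)
  have hu0 : 0 ≤ u := le_min (mp_nonneg l) (by positivity)
  have hY : ((Y0 L0 : ℕ) : ℝ) ≤ 8 ^ L0 * Real.exp (-u) := by
    have h1 : Real.exp (-((L0 / 20 : ℕ) * Real.log 2)) ≤ Real.exp (-u) :=
      Real.exp_le_exp.2 (by linarith [min_le_right (mp l) ((L0 / 20 : ℕ) * Real.log 2)])
    have h2 : Real.exp (-((L0 / 20 : ℕ) * Real.log 2)) = 1 / 2 ^ (L0 / 20) := by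
      rw [Real.exp_neg, Real.exp_nat_mul, Real.exp_log (by norm_num)]
      rw [one_div]
    have h3 : ((Y0 L0 : ℕ) : ℝ) = 8 ^ L0 * (1 / 2 ^ (L0 / 20)) := by
      unfold Y0
      push_cast
      rw [show (8 : ℝ) = 2 ^ 3 by norm_num, ← pow_mul, mul_one_div,
        eq_div_iff (by positivity), ← pow_add, Nat.sub_add_cancel (by omega)]
    rw [h3, ← h2]
    exact mul_le_mul_of_nonneg_left h1 (by positivity)
  have hal : (al L0 l : ℝ) ≤ 8 ^ L0 * Real.exp (-u) + L0 + 1 := by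
    unfold al
    rw [Nat.cast_max]
    refine max_le (by have : (0:ℝ) ≤ L0 := Nat.cast_nonneg _; linarith) ?_
    have h4 : Real.exp (-mp l) ≤ Real.exp (-u) :=
      Real.exp_le_exp.2 (by linarith [min_le_left (mp l) ((L0 / 20 : ℕ) * Real.log 2)])
    have h5 : Real.exp (-mp l) ≤ 1 := by
      rw [Real.exp_le_one_iff]
      linarith [mp_nonneg l]
    have h6 := (Nat.ceil_lt_add_one (a := ((8 : ℝ) ^ L0 + L0) * Real.exp (-mp l))
      (by positivity)).le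
    refine h6.trans ?_
    have h7 : (8 : ℝ) ^ L0 * Real.exp (-mp l) ≤ 8 ^ L0 * Real.exp (-u) :=
      mul_le_mul_of_nonneg_left h4 (by positivity)
    have h8 : (L0 : ℝ) * Real.exp (-mp l) ≤ L0 * 1 :=
      mul_le_mul_of_nonneg_left h5 (Nat.cast_nonneg _)
    nlinarith
  have hE : (0 : ℝ) < 8 ^ L0 * Real.exp (-u) := by positivity
  have hpow : ((L0 : ℝ) + 1 + 2 * 3 ^ (L0 + L0 / 100)) * 2 ^ L0 ≤ Y0 L0 := by
    have := F3_pow hL
    unfold Y0
    exact_mod_cast this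
  have h2p : (0 : ℝ) < 2 ^ L0 := by positivity
  have hbound : (al L0 l : ℝ) + 2 * 3 ^ (L0 + L0 / 100) ≤
      8 ^ L0 * Real.exp (-u) * (1 + 1 / 2 ^ L0) := by
    have h9 : ((L0 : ℝ) + 1 + 2 * 3 ^ (L0 + L0 / 100)) ≤
        8 ^ L0 * Real.exp (-u) * (1 / 2 ^ L0) := by
      rw [mul_one_div, le_div_iff₀ h2p]
      exact hpow.trans hY
    rw [mul_add, mul_one]
    linarith
  have hpos : (0 : ℝ) < al L0 l + 2 * 3 ^ (L0 + L0 / 100) := by positivity
  rw [Real.log_div (by positivity) hpos.ne']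
  have h10 : Real.log (al L0 l + 2 * 3 ^ (L0 + L0 / 100)) ≤
      Real.log (8 ^ L0) - u + 1 / 2 ^ L0 := by
    refine (Real.log_le_log hpos hbound).trans ?_
    rw [Real.log_mul (by positivity) (by positivity), Real.log_mul (by positivity) (by positivity),
      Real.log_exp]
    have h11 := Real.log_le_sub_one_of_pos (x := 1 + 1 / (2 : ℝ) ^ L0) (by positivity)
    linarith
  linarith

end H78Q
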