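import Pool.Agent.Lib.H78Q.Defs
import Pool.Agent.Lib.H78P.SkA1
import Pool.Agent.Lib.H62w.Mu

set_option autoImplicit false

/-! Chunk G1. Ladder identity. mp (a :: l) = xi a + m0 l - m0 (a :: l). Mean over words (M+1) (k+1) with law pw (M+1) (H62w.L_sum_words_succ in H62w/Mu.lean):
E mp = E xi + E_k m0 - E_(k+1) m0, and m0 (l ++ [a]) ≤ m0 l (induction on l; H62w.L_sum_words_add to split off the last letter). E xi = (2 - 2^(-M)) log 2 - log 3. -/

open Finset
namespace H78Q
open H62w H78P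

theorem m0_le_zero (l : List ℕ) : m0 l ≤ 0 := by
  cases l with
  | nil => simp [m0]
  | cons a t => simp [m0]

theorem mp_nonneg (l : List ℕ) : 0 ≤ mp l := by
  cases l with
  | nil => simp [mp]
  | cons a t => simp [mp]

theorem G1_m0_le (l : List ℕ) (i : ℕ) (hi : i ≤ l.length) :
    m0 l ≤ ((l.take i).sum : ℕ) * Real.log 2 - i * Real.log 3 := by
  induction l generalizing i with
  | nil =>
    have : i = 0 := by simpa using hi
    subst this
    simp [m0]
  | cons a t ih =>
    cases i with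
    | zero =>
      simpa using m0_le_zero (a :: t)
    | succ j =>
      have hj : j ≤ t.length := by simpa using hi
      have h1 := ih j hj
      have h2 : m0 (a :: t) ≤ xi a + m0 t := by
        simp only [m0]; exact min_le_right _ _
      rw [List.take_succ_cons, List.sum_cons]
      unfold xi at h2
      rw [Nat.cast_add, Nat.cast_succ]
      linarith

/-- The minimum is at most the sum of every nonempty initial segment. -/
theorem mp_le {l : List ℕ} (h : 0 < mp l) (i : ℕ) (hi : 1 ≤ i) (hi' : i ≤ l.length) :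
    mp l ≤ H62y.JJ l i * Real.log 2 - i * Real.log 3 := by
  cases l with
  | nil => simp [mp] at h
  | cons a t =>
    obtain ⟨j, rfl⟩ : ∃ j, i = j + 1 := ⟨i - 1, by omega⟩
    have hj : j ≤ t.length := by simpa using hi'
    have h1 := G1_m0_le t j hj
    simp only [mp] at h ⊢
    have h2 : 0 < xi a + m0 t := by
      by_contra hc
      rw [max_eq_left (not_lt.1 hc)] at h
      exact lt_irrefl _ h
    rw [max_eq_right h2.le]
    unfold H62y.JJ
    rw [List.take_succ_cons, List.sum_cons]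
    unfold xi
    rw [Nat.cast_add, Nat.cast_succ]
    linarith

theorem mp_head (a : ℕ) (l : List ℕ) : mp (a :: l) ≤ a * Real.log 2 := by
  have h2 : 0 < Real.log 2 := Real.log_pos (by norm_num)
  have h3 : 0 < Real.log 3 := Real.log_pos (by norm_num)
  have h0 := m0_le_zero l
  simp only [mp]
  refine max_le (by positivity) ?_
  unfold xi
  linarith

theorem G1_mp_cons (a : ℕ) (l : List ℕ) : mp (a :: l) = xi a + m0 l - m0 (a :: l) := by
  simp only [mp, m0]
  have := max_add_min 0 (xi a + m0 l)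
  linarith

theorem G1_m0_append (l : List ℕ) (l' : List ℕ) : m0 (l ++ l') ≤ m0 l := by
  induction l with
  | nil => simpa [m0] using m0_le_zero l'
  | cons a t ih =>
    simp only [List.cons_append, m0]
    exact min_le_min le_rfl (by linarith)

theorem G1_sum_geo (m : ℕ) : ∑ a ∈ Icc 1 m, ((1 : ℝ) / 2) ^ a * (a : ℝ) = 2 - (m + 2) * (1 / 2) ^ m := by
  induction m with
  | zero => simp
  | succ m ih =>
    rw [Finset.sum_Icc_succ_top (by omega), ih, pow_succ]
    push_cast
    ring

theorem G1_Exi (M : ℕ) : ∑ a ∈ Icc 1 (M + 1), pa (M + 1) a * xi a =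
    Real.log (4 / 3) - Real.log 2 / 2 ^ M := by
  have hs := L_pa_sum (M := M + 1) (by omega)
  have h1 : ∑ a ∈ Icc 1 (M + 1), pa (M + 1) a * (a : ℝ) = 2 - (1 / 2) ^ M := by
    rw [Finset.sum_Icc_succ_top (by omega)]
    have h2 : ∑ a ∈ Icc 1 M, pa (M + 1) a * (a : ℝ) = ∑ a ∈ Icc 1 M, ((1 : ℝ) / 2) ^ a * (a : ℝ) := by
      refine sum_congr rfl fun a ha => ?_
      rw [mem_Icc] at ha
      unfold pa
      rw [if_pos (by omega)]
    rw [h2, G1_sum_geo]
    unfold pa
    rw [if_neg (by omega), show M + 1 - 1 = M by omega]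
    push_cast
    ring
  have h3 : ∑ a ∈ Icc 1 (M + 1), pa (M + 1) a * xi a =
      (∑ a ∈ Icc 1 (M + 1), pa (M + 1) a * (a : ℝ)) * Real.log 2 -
        (∑ a ∈ Icc 1 (M + 1), pa (M + 1) a) * Real.log 3 := by
    rw [sum_mul, sum_mul, ← sum_sub_distrib]
    refine sum_congr rfl fun a _ => ?_
    unfold xi
    ring
  rw [h3, h1, hs]
  have h4 : Real.log (4 / 3) = 2 * Real.log 2 - Real.log 3 := by
    rw [Real.log_div (by norm_num) (by norm_num), show (4 : ℝ) = 2 ^ 2 by norm_num, Real.log_pow]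
    push_cast
    ring
  rw [h4, one_div, inv_pow]
  field_simp
  ring

theorem mp_mean {M k : ℕ} (hM : 1 ≤ M) (hk : 1 ≤ k) :
    Real.log (4 / 3) - Real.log 2 / 2 ^ M ≤ ∑ l ∈ words (M + 1) k, pw (M + 1) l * mp l := by
  obtain ⟨n, rfl⟩ : ∃ n, k = n + 1 := ⟨k - 1, by omega⟩
  have hM1 : 1 ≤ M + 1 := by omega
  have hpw : ∀ a l, pw (M + 1) (a :: l) = pa (M + 1) a * pw (M + 1) l := by
    intro a l; simp [pw]
  -- mean of m0 decreases
  have h1 : ∑ l ∈ words (M + 1) (n + 1), pw (M + 1) l * m0 l ≤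
      ∑ l ∈ words (M + 1) n, pw (M + 1) l * m0 l := by
    rw [L_sum_words_add]
    refine sum_le_sum fun l _ => ?_
    calc ∑ l' ∈ words (M + 1) 1, pw (M + 1) (l ++ l') * m0 (l ++ l')
        ≤ ∑ l' ∈ words (M + 1) 1, pw (M + 1) l * pw (M + 1) l' * m0 l := by
          refine sum_le_sum fun l' _ => ?_
          rw [L_pw_append]
          exact mul_le_mul_of_nonneg_left (G1_m0_append l l')
            (mul_nonneg (L_pw_nonneg _ _) (L_pw_nonneg _ _))
      _ = pw (M + 1) l * (∑ l' ∈ words (M + 1) 1, pw (M + 1) l') * m0 l := by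
          rw [mul_sum, sum_mul]
      _ = pw (M + 1) l * m0 l := by rw [pw_sum hM1, mul_one]
  have h2 : ∑ l ∈ words (M + 1) (n + 1), pw (M + 1) l * mp l =
      (∑ a ∈ Icc 1 (M + 1), pa (M + 1) a * xi a) + ∑ l ∈ words (M + 1) n, pw (M + 1) l * m0 l -
        ∑ l ∈ words (M + 1) (n + 1), pw (M + 1) l * m0 l := by
    rw [L_sum_words_succ, L_sum_words_succ]
    have h3 : ∀ a ∈ Icc 1 (M + 1), ∑ l ∈ words (M + 1) n, pw (M + 1) (a :: l) * mp (a :: l) =
        pa (M + 1) a * xi a + pa (M + 1) a * (∑ l ∈ words (M + 1) n, pw (M + 1) l * m0 l) -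
          ∑ l ∈ words (M + 1) n, pw (M + 1) (a :: l) * m0 (a :: l) := by
      intro a _
      have h4 : ∀ l ∈ words (M + 1) n, pw (M + 1) (a :: l) * mp (a :: l) =
          pa (M + 1) a * xi a * pw (M + 1) l + pa (M + 1) a * (pw (M + 1) l * m0 l) -
            pw (M + 1) (a :: l) * m0 (a :: l) := by
        intro l _
        rw [G1_mp_cons, hpw]
        ring
      rw [sum_congr rfl h4, sum_sub_distrib, sum_add_distrib, ← mul_sum, ← mul_sum, pw_sum hM1,
        mul_one]
    rw [sum_congr rfl h3, sum_sub_distrib, sum_add_distrib, ← sum_mul, L_pa_sum hM1, one_mul]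
  rw [h2, G1_Exi]
  linarith

end H78Q
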