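import Pool.Agent.Lib.H78Q.SkF2
import Pool.Agent.Lib.H78Q.SkF3
import Pool.Agent.Lib.H78P.SkE1
import Pool.Agent.Lib.H78P.SkE2

set_option autoImplicit false

/-! Chunk H1. Accounting. acc_swap and al_log: the sum is at least (1/2) pr(words L0 (L0/100)) (sum over TW of pw * min(mp, (L0/20) log 2)) - 2^(-L0) (mp = 0 terms
contribute nothing). Then sum over TW of pw * min(mp, c) ≥ sum over words (L0+1) L0 of pw * mp - (L0+1) log 2 (1 - pr TW) - (L0+1) log 2 P(first letter > L0/20)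
(mp_head; mp > (L0/20) log 2 forces the first letter > L0/20; top_letter); bad_small with A = 2: (L0+1) (1 - pr TW) ≤ C (L0+1) / L0^2 → 0; pr(words L0 p) ≥
1 - p 2^(-L0) (top_letter); mp_mean with M = L0. Everything tends to (1/2) log (4/3). -/

open Finset
namespace H78Q
open H62w H78P

theorem H1_tend1 : Filter.Tendsto (fun n : ℕ => ((n : ℝ) + 1) * n * (1 / 2) ^ (n / 20)) Filter.atTop
    (nhds 0) := by
  have h1 : Filter.Tendsto (fun m : ℕ => (m : ℝ) ^ 2 * (1 / 2 : ℝ) ^ m) Filter.atTop (nhds 0) :=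
    tendsto_pow_const_mul_const_pow_of_abs_lt_one 2 (by rw [abs_of_nonneg] <;> norm_num)
  have h2 : Filter.Tendsto (fun n : ℕ => n / 20 + 1) Filter.atTop Filter.atTop := by
    refine Filter.tendsto_atTop.2 fun b => Filter.eventually_atTop.2 ⟨20 * b, fun n hn => ?_⟩
    omega
  have h3 := (h1.comp h2).const_mul 800
  rw [mul_zero] at h3
  refine squeeze_zero (fun n => by positivity) (fun n => ?_) h3
  simp only [Function.comp]
  have h4 : (n : ℝ) + 1 ≤ 20 * ((n / 20 + 1 : ℕ) : ℝ) := by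
    have : n + 1 ≤ 20 * (n / 20 + 1) := by omega
    exact_mod_cast this
  have h5 : (n : ℝ) ≤ 20 * ((n / 20 + 1 : ℕ) : ℝ) := by linarith
  calc ((n : ℝ) + 1) * n * (1 / 2) ^ (n / 20)
      ≤ (20 * ((n / 20 + 1 : ℕ) : ℝ)) * (20 * ((n / 20 + 1 : ℕ) : ℝ)) * (1 / 2) ^ (n / 20) := by
        gcongr
    _ = 800 * (((n / 20 + 1 : ℕ) : ℝ) ^ 2 * (1 / 2) ^ (n / 20 + 1)) := by
        rw [pow_succ (1 / 2 : ℝ)]
        ring

theorem H1_tend2 (C : ℝ) : Filter.Tendsto (fun n : ℕ => ((n : ℝ) + 1) * (C / (n : ℝ) ^ 2)) Filter.atTop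
    (nhds 0) := by
  have h1 : Filter.Tendsto (fun n : ℕ => (1 : ℝ) / n) Filter.atTop (nhds 0) :=
    tendsto_one_div_atTop_nhds_zero_nat
  have h2 := ((h1.add (h1.mul h1)).const_mul C)
  rw [mul_zero, add_zero, mul_zero] at h2
  refine h2.congr fun n => ?_
  by_cases hn : (n : ℝ) = 0
  · rw [hn]; simp
  · field_simp

theorem H1_tend3 : Filter.Tendsto (fun n : ℕ => (1 : ℝ) / 2 ^ n) Filter.atTop (nhds 0) := by
  have h1 : Filter.Tendsto (fun m : ℕ => (1 / 2 : ℝ) ^ m) Filter.atTop (nhds 0) :=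
    tendsto_pow_atTop_nhds_zero_of_lt_one (by norm_num) (by norm_num)
  refine h1.congr fun n => ?_
  rw [div_pow, one_pow]

theorem H1_tend4 : Filter.Tendsto (fun n : ℕ => (n : ℝ) * (1 / 2) ^ n) Filter.atTop (nhds 0) := by
  have h1 : Filter.Tendsto (fun m : ℕ => (m : ℝ) ^ 1 * (1 / 2 : ℝ) ^ m) Filter.atTop (nhds 0) :=
    tendsto_pow_const_mul_const_pow_of_abs_lt_one 1 (by rw [abs_of_nonneg] <;> norm_num)
  simpa using h1

theorem H1_words_sub (M k : ℕ) : words M k ⊆ words (M + 1) k := by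
  intro l hl
  rw [mem_words] at hl ⊢
  exact ⟨hl.1, fun a ha => ⟨(hl.2 a ha).1, by have := (hl.2 a ha).2; omega⟩⟩

/-- The words without the top letter. -/
theorem H1_pr_words (M k : ℕ) : 1 - k * (1 / 2 : ℝ) ^ M ≤ pr M (words M k) ∧ pr M (words M k) ≤ 1 := by
  have h1 := H62w.pw_sum (M := M + 1) (by omega) k
  have h2 := top_letter (M := M) (m := M) le_rfl k
  have h3 := sum_sdiff (f := fun l => pw (M + 1) l) (H1_words_sub M k)
  have h4 : ∑ l ∈ words (M + 1) k \ words M k, pw (M + 1) l ≤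
      pr M ((words (M + 1) k).filter (fun l => ∃ a ∈ l, M < a)) := by
    unfold pr
    apply sum_le_sum_of_subset_of_nonneg
    · intro l hl
      rw [mem_sdiff, mem_words, mem_words] at hl
      rw [mem_filter, mem_words]
      refine ⟨hl.1, ?_⟩
      by_contra hcon
      push Not at hcon
      exact hl.2 ⟨hl.1.1, fun a ha => ⟨(hl.1.2 a ha).1, hcon a ha⟩⟩
    · intro l _ _
      exact L_pw_nonneg _ _
  have h5 : 0 ≤ ∑ l ∈ words (M + 1) k \ words M k, pw (M + 1) l :=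
    sum_nonneg fun l _ => L_pw_nonneg _ _
  have h6 : pr M (words M k) = ∑ l ∈ words M k, pw (M + 1) l := rfl
  rw [h6]
  constructor <;> linarith

theorem H1_mp_le {M k : ℕ} (hk : 1 ≤ k) {l : List ℕ} (hl : l ∈ words M k) :
    mp l ≤ M * Real.log 2 := by
  rw [mem_words] at hl
  rcases l with _ | ⟨a, l⟩
  · simp only [List.length_nil] at hl
    omega
  · have h1 := mp_head a l
    have h2 := (hl.2 a (by simp)).2
    have h3 : (a : ℝ) ≤ M := by exact_mod_cast h2
    have h4 : 0 ≤ Real.log 2 := Real.log_nonneg (by norm_num)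
    exact h1.trans (mul_le_mul_of_nonneg_right h3 h4)

theorem H1_mp_big {l : List ℕ} {m : ℕ} (h : m * Real.log 2 < mp l) : ∃ a ∈ l, m < a := by
  rcases l with _ | ⟨a, l⟩
  · have h4 : 0 ≤ Real.log 2 := Real.log_nonneg (by norm_num)
    have : (0 : ℝ) ≤ m * Real.log 2 := by positivity
    simp only [mp] at h
    linarith
  · have h1 := mp_head a l
    have h4 : 0 < Real.log 2 := Real.log_pos (by norm_num)
    have h5 : (m : ℝ) < a := lt_of_mul_lt_mul_right (h.trans_le h1) h4.le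
    exact ⟨a, by simp, by exact_mod_cast h5⟩

/-- The truncated mean over the typical words. -/
theorem H1_mean {L0 : ℕ} (hL : 100 ≤ L0) (C : ℝ) (hC : 1 - pr L0 (TW 100 L0 L0) ≤ C / L0 ^ 2) :
    Real.log (4 / 3) - Real.log 2 / 2 ^ L0 -
        ((L0 : ℝ) + 1) * Real.log 2 * (L0 * (1 / 2) ^ (L0 / 20)) -
        ((L0 : ℝ) + 1) * Real.log 2 * (C / L0 ^ 2) ≤
      ∑ l ∈ TW 100 L0 L0, pw (L0 + 1) l * min (mp l) ((L0 / 20 : ℕ) * Real.log 2) := by
  have hlog : 0 ≤ Real.log 2 := Real.log_nonneg (by norm_num)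
  have h1 := mp_mean (M := L0) (k := L0) (by omega) (by omega)
  have h2 := top_letter (M := L0) (m := L0 / 20) (Nat.div_le_self _ _) L0
  set W := words (L0 + 1) L0 with hW
  set B := W.filter (fun l => ∃ a ∈ l, L0 / 20 < a) with hB
  have hTW : TW 100 L0 L0 ⊆ W := by
    intro l hl
    unfold TW at hl
    exact H1_words_sub _ _ (mem_filter.1 hl).1
  have h3 : ∀ l ∈ W, pw (L0 + 1) l * mp l ≤
      (if l ∈ TW 100 L0 L0 then pw (L0 + 1) l * min (mp l) ((L0 / 20 : ℕ) * Real.log 2) else 0) +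
      ((L0 : ℝ) + 1) * Real.log 2 * (if l ∈ B then pw (L0 + 1) l else 0) +
      ((L0 : ℝ) + 1) * Real.log 2 * (if l ∈ TW 100 L0 L0 then 0 else pw (L0 + 1) l) := by
    intro l hl
    have hp : 0 ≤ pw (L0 + 1) l := L_pw_nonneg _ _
    have hm : mp l ≤ ((L0 : ℝ) + 1) * Real.log 2 := by
      have := H1_mp_le (by omega) hl
      push_cast at this
      exact this
    have hm0 := mp_nonneg l
    have hc : 0 ≤ ((L0 : ℝ) + 1) * Real.log 2 := by positivity
    have hpm := mul_le_mul_of_nonneg_left hm hp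
    by_cases hT : l ∈ TW 100 L0 L0
    · rw [if_pos hT, if_pos hT, mul_zero, add_zero]
      by_cases hlB : l ∈ B
      · rw [if_pos hlB]
        have h4 : 0 ≤ pw (L0 + 1) l * min (mp l) ((L0 / 20 : ℕ) * Real.log 2) :=
          mul_nonneg hp (le_min hm0 (by positivity))
        linarith
      · rw [if_neg hlB, mul_zero, add_zero]
        have h5 : mp l ≤ (L0 / 20 : ℕ) * Real.log 2 := by
          by_contra hcon
          push Not at hcon
          exact hlB (mem_filter.2 ⟨hl, H1_mp_big hcon⟩)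
        rw [min_eq_left h5]
    · rw [if_neg hT, if_neg hT, zero_add]
      have h5 : 0 ≤ ((L0 : ℝ) + 1) * Real.log 2 * (if l ∈ B then pw (L0 + 1) l else 0) := by
        apply mul_nonneg hc
        split_ifs
        · exact hp
        · exact le_rfl
      linarith
  have h4 := sum_le_sum h3
  rw [sum_add_distrib, sum_add_distrib, ← mul_sum, ← mul_sum] at h4
  have e1 : ∑ l ∈ W, (if l ∈ TW 100 L0 L0 then
      pw (L0 + 1) l * min (mp l) ((L0 / 20 : ℕ) * Real.log 2) else 0) =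
      ∑ l ∈ TW 100 L0 L0, pw (L0 + 1) l * min (mp l) ((L0 / 20 : ℕ) * Real.log 2) := by
    rw [← sum_filter]
    congr 1
    ext l
    rw [mem_filter]
    exact ⟨fun h => h.2, fun h => ⟨hTW h, h⟩⟩
  have e2 : ∑ l ∈ W, (if l ∈ B then pw (L0 + 1) l else 0) = pr L0 B := by
    rw [← sum_filter]
    unfold pr
    congr 1
    ext l
    rw [mem_filter]
    exact ⟨fun h => h.2, fun h => ⟨(mem_filter.1 h).1, h⟩⟩
  have e3 : ∑ l ∈ W, (if l ∈ TW 100 L0 L0 then 0 else pw (L0 + 1) l) = 1 - pr L0 (TW 100 L0 L0) := by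
    have h5 := H62w.pw_sum (M := L0 + 1) (by omega) L0
    have h6 : ∑ l ∈ W, pw (L0 + 1) l = ∑ l ∈ W, (if l ∈ TW 100 L0 L0 then 0 else pw (L0 + 1) l) +
        ∑ l ∈ W, (if l ∈ TW 100 L0 L0 then pw (L0 + 1) l else 0) := by
      rw [← sum_add_distrib]
      refine sum_congr rfl fun l _ => ?_
      split_ifs <;> simp
    have h7 : ∑ l ∈ W, (if l ∈ TW 100 L0 L0 then pw (L0 + 1) l else 0) = pr L0 (TW 100 L0 L0) := by
      rw [← sum_filter]
      unfold pr
      congr 1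
      ext l
      rw [mem_filter]
      exact ⟨fun h => h.2, fun h => ⟨hTW h, h⟩⟩
    rw [h7] at h6
    linarith
  rw [e1, e2, e3] at h4
  have hc : 0 ≤ ((L0 : ℝ) + 1) * Real.log 2 := by positivity
  have h5 := mul_le_mul_of_nonneg_left h2 hc
  have h6 := mul_le_mul_of_nonneg_left hC hc
  linarith

theorem H1_lower {L0 : ℕ} (hL : 100 ≤ L0) :
    (1 / 2) * pr L0 (words L0 (L0 / 100)) *
      (∑ l ∈ TW 100 L0 L0, pw (L0 + 1) l * min (mp l) ((L0 / 20 : ℕ) * Real.log 2) - 1 / 2 ^ L0) ≤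
      ∑ y ∈ Rt L0, Phi L0 y / y := by
  have h0 := acc_swap hL
  refine le_trans ?_ h0
  set p := pr L0 (words L0 (L0 / 100)) with hp
  have hp0 : 0 ≤ p := by
    rw [hp]
    unfold pr
    exact sum_nonneg fun l _ => L_pw_nonneg _ _
  have h1 : ∑ l ∈ (TW 100 L0 L0).filter (fun l => 0 < mp l), (1 / 2) * (pw (L0 + 1) l * p) *
      (min (mp l) ((L0 / 20 : ℕ) * Real.log 2) - 1 / 2 ^ L0) ≤
      ∑ l ∈ (TW 100 L0 L0).filter (fun l => 0 < mp l), (1 / 2) * (pw (L0 + 1) l * p) *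
        Real.log ((8 : ℝ) ^ L0 / (al L0 l + 2 * 3 ^ (L0 + L0 / 100))) := by
    refine sum_le_sum fun l _ => ?_
    have hpw : 0 ≤ pw (L0 + 1) l := L_pw_nonneg _ _
    exact mul_le_mul_of_nonneg_left (al_log hL l) (by positivity)
  refine le_trans ?_ h1
  have h2 : ∑ l ∈ (TW 100 L0 L0).filter (fun l => 0 < mp l), (1 / 2) * (pw (L0 + 1) l * p) *
      (min (mp l) ((L0 / 20 : ℕ) * Real.log 2) - 1 / 2 ^ L0) =
      (1 / 2) * p * (∑ l ∈ (TW 100 L0 L0).filter (fun l => 0 < mp l),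
        pw (L0 + 1) l * min (mp l) ((L0 / 20 : ℕ) * Real.log 2) -
        (∑ l ∈ (TW 100 L0 L0).filter (fun l => 0 < mp l), pw (L0 + 1) l) * (1 / 2 ^ L0)) := by
    rw [sum_mul, ← sum_sub_distrib, mul_sum]
    refine sum_congr rfl fun l _ => ?_
    ring
  rw [h2]
  apply mul_le_mul_of_nonneg_left _ (by positivity)
  have h3 : ∑ l ∈ (TW 100 L0 L0).filter (fun l => 0 < mp l),
        pw (L0 + 1) l * min (mp l) ((L0 / 20 : ℕ) * Real.log 2) =
      ∑ l ∈ TW 100 L0 L0, pw (L0 + 1) l * min (mp l) ((L0 / 20 : ℕ) * Real.log 2) := by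
    rw [sum_filter]
    refine sum_congr rfl fun l _ => ?_
    split_ifs with h
    · rfl
    · have h4 : mp l = 0 := le_antisymm (not_lt.1 h) (mp_nonneg l)
      have h5 : (0 : ℝ) ≤ (L0 / 20 : ℕ) * Real.log 2 := by
        have := Real.log_nonneg (show (1 : ℝ) ≤ 2 by norm_num)
        positivity
      rw [h4, min_eq_left h5, mul_zero]
  rw [h3]
  have h4 : ∑ l ∈ (TW 100 L0 L0).filter (fun l => 0 < mp l), pw (L0 + 1) l ≤ 1 := by
    rw [← H62w.pw_sum (M := L0 + 1) (by omega) L0]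
    apply sum_le_sum_of_subset_of_nonneg
    · intro l hl
      have := (mem_filter.1 hl).1
      unfold TW at this
      exact H1_words_sub _ _ (mem_filter.1 this).1
    · intro l _ _
      exact L_pw_nonneg _ _
  have h5 : (0 : ℝ) ≤ 1 / 2 ^ L0 := by positivity
  have h6 := mul_le_mul_of_nonneg_right h4 h5
  linarith

theorem accounting0 (ε : ℝ) (hε : 0 < ε) : ∃ L1 : ℕ, 100 ≤ L1 ∧ ∀ L0 : ℕ, L1 ≤ L0 →
    Real.log (4 / 3) / 2 - ε ≤ ∑ y ∈ Rt L0, Phi L0 y / y := by
  obtain ⟨C, hC, hbad⟩ := bad_small (N := 100) (by norm_num) 2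
  have ha : 0 < Real.log (4 / 3) := Real.log_pos (by norm_num)
  have ha1 : Real.log (4 / 3) ≤ 1 := by
    have := Real.log_le_sub_one_of_pos (show (0 : ℝ) < 4 / 3 by norm_num)
    linarith
  set a := Real.log (4 / 3) with hadef
  -- the error terms
  have hD : Filter.Tendsto (fun n : ℕ => Real.log 2 * (1 / 2 ^ n) +
      Real.log 2 * (((n : ℝ) + 1) * n * (1 / 2) ^ (n / 20)) +
      Real.log 2 * (((n : ℝ) + 1) * (C / (n : ℝ) ^ 2)) + 1 / 2 ^ n) Filter.atTop (nhds 0) := by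
    have := (((H1_tend3.const_mul (Real.log 2)).add (H1_tend1.const_mul (Real.log 2))).add
      ((H1_tend2 C).const_mul (Real.log 2))).add H1_tend3
    simpa using this
  have hδ : 0 < min (ε / 2) a := lt_min (by positivity) ha
  obtain ⟨n1, h1⟩ := (Filter.eventually_atTop.1 (hD.eventually_lt_const hδ))
  obtain ⟨n2, h2⟩ := (Filter.eventually_atTop.1 (H1_tend4.eventually_lt_const (show (0 : ℝ) < ε / 2 by positivity)))
  refine ⟨max 100 (max n1 n2), le_max_left _ _, fun L0 hL0 => ?_⟩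
  have hL : 100 ≤ L0 := (le_max_left _ _).trans hL0
  have hn1 := h1 L0 (((le_max_left _ _).trans (le_max_right _ _)).trans hL0)
  have hn2 := h2 L0 (((le_max_right _ _).trans (le_max_right _ _)).trans hL0)
  refine le_trans ?_ (H1_lower hL)
  have hm := H1_mean hL C (hbad L0 L0 (by omega) le_rfl)
  obtain ⟨hp1, hp2⟩ := H1_pr_words L0 (L0 / 100)
  set p := pr L0 (words L0 (L0 / 100)) with hp
  have hp0 : 0 ≤ p := by
    rw [hp]
    unfold pr
    exact sum_nonneg fun l _ => L_pw_nonneg _ _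
  set S := ∑ l ∈ TW 100 L0 L0, pw (L0 + 1) l * min (mp l) ((L0 / 20 : ℕ) * Real.log 2) with hS
  have hS1 : a - min (ε / 2) a ≤ S - 1 / 2 ^ L0 := by
    have e : Real.log 2 * (1 / 2 ^ L0) = Real.log 2 / 2 ^ L0 := by ring
    rw [e] at hn1
    linarith
  have hp3 : 1 - ε / 2 ≤ p := by
    have h3 : ((L0 / 100 : ℕ) : ℝ) * (1 / 2) ^ L0 ≤ (L0 : ℝ) * (1 / 2) ^ L0 := by
      have : ((L0 / 100 : ℕ) : ℝ) ≤ L0 := by exact_mod_cast Nat.div_le_self _ _
      gcongr
    linarith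
  set δ := min (ε / 2) a with hδd
  have hδ1 : δ ≤ ε / 2 := min_le_left _ _
  have hδ2 : δ ≤ a := min_le_right _ _
  have h4 : p * (a - δ) ≤ p * (S - 1 / 2 ^ L0) := mul_le_mul_of_nonneg_left hS1 hp0
  have h5 : (a - δ) - ε / 2 ≤ p * (a - δ) := by
    have h6 : (1 - p) * (a - δ) ≤ ε / 2 * 1 := by
      apply mul_le_mul
      · linarith
      · linarith
      · linarith
      · positivity
    linarith
  linarith

end H78Q
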