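import Pool.Agent.Lib.H78Q.SkH1

set_option autoImplicit false

/-! Chunk H2. The roots have sum of 1/y at most L0 (y from Y0 to 8^L0 = Y0 2^(L0/20), integral of 1/y); then divide accounting0 by log (4/3). -/

open Finset
namespace H78Q
open H62w H78P

theorem H2_dyadic (a k : ℕ) : ∑ y ∈ Ico ((2 : ℕ) ^ a) ((2 : ℕ) ^ (a + k)), (1 : ℝ) / (y : ℝ) ≤ k := by
  induction k with
  | zero => simp
  | succ k ih =>
    have h1 : (2 : ℕ) ^ a ≤ 2 ^ (a + k) := Nat.pow_le_pow_right (by norm_num) (by omega)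
    have h2 : (2 : ℕ) ^ (a + k) ≤ 2 ^ (a + (k + 1)) := Nat.pow_le_pow_right (by norm_num) (by omega)
    rw [← sum_Ico_consecutive _ h1 h2]
    have h3 : ∑ y ∈ Ico ((2 : ℕ) ^ (a + k)) ((2 : ℕ) ^ (a + (k + 1))), (1 : ℝ) / (y : ℝ) ≤ 1 := by
      have h4 : ∀ y ∈ Ico ((2 : ℕ) ^ (a + k)) ((2 : ℕ) ^ (a + (k + 1))), (1 : ℝ) / (y : ℝ) ≤ 1 / 2 ^ (a + k) := by
        intro y hy
        rw [mem_Ico] at hy
        have h5 : (2 : ℝ) ^ (a + k) ≤ y := by exact_mod_cast hy.1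
        exact one_div_le_one_div_of_le (by positivity) h5
      refine (sum_le_sum h4).trans ?_
      rw [sum_const, Nat.card_Ico, nsmul_eq_mul, show a + (k + 1) = (a + k) + 1 by ring,
        pow_succ 2 (a + k), show 2 ^ (a + k) * 2 - 2 ^ (a + k) = 2 ^ (a + k) by omega]
      push_cast
      rw [mul_one_div, div_self (by positivity)]
    push_cast
    linarith

theorem roots_harm {L0 : ℕ} (hL : 100 ≤ L0) : ∑ y ∈ Rt L0, (1 : ℝ) / y ≤ L0 := by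
  have h1 : Rt L0 ⊆ insert ((8 : ℕ) ^ L0) (Ico ((2 : ℕ) ^ (3 * L0 - L0 / 20)) ((2 : ℕ) ^ (3 * L0 - L0 / 20 + L0 / 20))) := by
    intro y hy
    unfold Rt Y0 at hy
    rw [mem_filter, mem_Icc] at hy
    rw [mem_insert, mem_Ico, show 3 * L0 - L0 / 20 + L0 / 20 = 3 * L0 by omega, pow_mul 2 3 L0,
      show (2 : ℕ) ^ 3 = 8 by norm_num]
    omega
  have h2 : ∑ y ∈ Rt L0, (1 : ℝ) / y ≤
      ∑ y ∈ insert ((8 : ℕ) ^ L0) (Ico ((2 : ℕ) ^ (3 * L0 - L0 / 20)) ((2 : ℕ) ^ (3 * L0 - L0 / 20 + L0 / 20))), (1 : ℝ) / (y : ℝ) :=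
    sum_le_sum_of_subset_of_nonneg h1 fun y _ _ => by positivity
  have h3 := H2_dyadic (3 * L0 - L0 / 20) (L0 / 20)
  have h4 : ∑ y ∈ insert ((8 : ℕ) ^ L0) (Ico ((2 : ℕ) ^ (3 * L0 - L0 / 20)) ((2 : ℕ) ^ (3 * L0 - L0 / 20 + L0 / 20))), (1 : ℝ) / (y : ℝ) ≤
      1 + ∑ y ∈ Ico ((2 : ℕ) ^ (3 * L0 - L0 / 20)) ((2 : ℕ) ^ (3 * L0 - L0 / 20 + L0 / 20)), (1 : ℝ) / (y : ℝ) := by
    rw [sum_insert]
    · have h5 : (1 : ℝ) / ((8 ^ L0 : ℕ) : ℝ) ≤ 1 := by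
        rw [div_le_one (by positivity)]
        exact_mod_cast Nat.one_le_pow _ _ (by norm_num)
      linarith
    · rw [mem_Ico, show 3 * L0 - L0 / 20 + L0 / 20 = 3 * L0 by omega, pow_mul 2 3 L0,
        show (2 : ℕ) ^ 3 = 8 by norm_num]
      omega
  have h5 : (1 : ℝ) + ((L0 / 20 : ℕ) : ℝ) ≤ L0 := by
    have : 1 + L0 / 20 ≤ L0 := by omega
    exact_mod_cast this
  linarith

theorem accounting (K ε : ℝ) (hε : 0 < ε) : ∃ L1 : ℕ, 100 ≤ L1 ∧ ∀ L0 : ℕ, L1 ≤ L0 →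
    1 / 2 - ε ≤ ∑ y ∈ Rt L0, (Phi L0 y - K / L0 ^ 2) / (y * Real.log (4 / 3)) := by
  have ha : 0 < Real.log (4 / 3) := Real.log_pos (by norm_num)
  set a := Real.log (4 / 3) with hadef
  obtain ⟨L1, hL1, h1⟩ := accounting0 (a * ε / 2) (by positivity)
  obtain ⟨n, hn⟩ := exists_nat_ge (2 * |K| / (a * ε))
  refine ⟨max L1 n, hL1.trans (le_max_left _ _), fun L0 hL0 => ?_⟩
  have hL : L1 ≤ L0 := (le_max_left _ _).trans hL0
  have hL' : (n : ℝ) ≤ L0 := by exact_mod_cast (le_max_right _ _).trans hL0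
  have h2 := h1 L0 hL
  have h3 := roots_harm (hL1.trans hL)
  have hL0pos : (0 : ℝ) < L0 := by
    have : 0 < L0 := by omega
    exact_mod_cast this
  have h4 : ∑ y ∈ Rt L0, (Phi L0 y - K / L0 ^ 2) / (y * a) =
      (∑ y ∈ Rt L0, Phi L0 y / y - K / L0 ^ 2 * ∑ y ∈ Rt L0, (1 : ℝ) / y) / a := by
    rw [mul_sum, ← sum_sub_distrib, sum_div]
    refine sum_congr rfl fun y _ => ?_
    rw [div_mul_eq_div_div, sub_div]
    ring
  rw [h4, le_div_iff₀ ha]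
  have h5 : K / (L0 : ℝ) ^ 2 * ∑ y ∈ Rt L0, (1 : ℝ) / y ≤ |K| / L0 := by
    have h6 : 0 ≤ ∑ y ∈ Rt L0, (1 : ℝ) / y := sum_nonneg fun y _ => by positivity
    calc K / (L0 : ℝ) ^ 2 * ∑ y ∈ Rt L0, (1 : ℝ) / y ≤ |K| / (L0 : ℝ) ^ 2 * L0 := by
          apply mul_le_mul _ h3 h6 (by positivity)
          gcongr
          exact le_abs_self K
      _ = |K| / L0 := by field_simp
  have h7 : |K| / L0 ≤ a * ε / 2 := by
    rw [div_le_iff₀ hL0pos]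
    have h8 := hn.trans hL'
    rw [div_le_iff₀ (by positivity)] at h8
    linarith
  linarith

end H78Q
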