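import Pool.Agent.Lib.H78Q.SkE3
import Pool.Agent.Lib.H78Q.SkH2

set_option autoImplicit false

/-! Chunk I. The density of the odd part of an invariant set exists. -/

open Finset
namespace H78Q
open H62w H78P

theorem I_fin (S : Set ℕ) (x : ℕ) : {n : ℕ | n ∈ S ∧ n ≤ x}.Finite :=
  (Set.finite_Iic x).subset (fun _ hn => hn.2)

theorem I_ct_mono {S S' : Set ℕ} (h : S ⊆ S') (x : ℕ) : ct S x ≤ ct S' x := by
  unfold ct
  have h1 : {n : ℕ | n ∈ S ∧ n ≤ x} ⊆ {n : ℕ | n ∈ S' ∧ n ≤ x} := fun n hn => ⟨h hn.1, hn.2⟩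
  exact_mod_cast Set.ncard_le_ncard h1 (I_fin S' x)

theorem I_ct_nonneg (S : Set ℕ) (x : ℕ) : 0 ≤ ct S x := by
  unfold ct; positivity

theorem I_ct_union {S S' : Set ℕ} (h : Disjoint S S') (x : ℕ) : ct (S ∪ S') x = ct S x + ct S' x := by
  unfold ct
  have h1 : {n : ℕ | n ∈ S ∪ S' ∧ n ≤ x} = {n : ℕ | n ∈ S ∧ n ≤ x} ∪ {n : ℕ | n ∈ S' ∧ n ≤ x} := by
    ext n; simp only [Set.mem_setOf_eq, Set.mem_union]; tauto
  have h2 : Disjoint {n : ℕ | n ∈ S ∧ n ≤ x} {n : ℕ | n ∈ S' ∧ n ≤ x} := by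
    rw [Set.disjoint_left] at h ⊢
    intro n hn hn'
    exact h hn.1 hn'.1
  rw [h1, Set.ncard_union_eq h2 (I_fin S x) (I_fin S' x)]
  push_cast; rfl

theorem I_ct_biUnion {F : Finset ℕ} {C : ℕ → Set ℕ} (hd : ∀ y ∈ F, ∀ y' ∈ F, y ≠ y' → Disjoint (C y) (C y')) (x : ℕ) :
    ct (⋃ y ∈ F, C y) x = ∑ y ∈ F, ct (C y) x := by
  classical
  induction F using Finset.induction_on with
  | empty =>
    unfold ct
    simp
  | insert a F ha ih =>
    have h1 : (⋃ y ∈ insert a F, C y) = C a ∪ ⋃ y ∈ F, C y := by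
      simp [Finset.set_biUnion_insert]
    rw [h1, I_ct_union, Finset.sum_insert ha, ih]
    · intro y hy y' hy' hne
      exact hd y (Finset.mem_insert_of_mem hy) y' (Finset.mem_insert_of_mem hy') hne
    · rw [Set.disjoint_left]
      intro n hn hn'
      simp only [Set.mem_iUnion] at hn'
      obtain ⟨y, hy, hny⟩ := hn'
      have hne : a ≠ y := by rintro rfl; exact ha hy
      exact Set.disjoint_left.1 (hd a (Finset.mem_insert_self _ _) y (Finset.mem_insert_of_mem hy) hne) hn hny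

theorem I_ct_odd (x : ℕ) : ct {n : ℕ | n % 2 = 1} x ≤ (x + 1) / 2 := by
  induction x using Nat.twoStepInduction with
  | zero =>
    have : {n : ℕ | n ∈ {n : ℕ | n % 2 = 1} ∧ n ≤ 0} = ∅ := by
      ext n
      simp only [Set.mem_setOf_eq, Set.mem_empty_iff_false, iff_false]
      omega
    unfold ct
    rw [this]
    simp
  | one =>
    have : {n : ℕ | n ∈ {n : ℕ | n % 2 = 1} ∧ n ≤ 1} = {1} := by
      ext n
      simp only [Set.mem_setOf_eq, Set.mem_singleton_iff]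
      omega
    unfold ct
    rw [this]
    simp
  | more x ih _ =>
    have h2 : {n : ℕ | n ∈ {n : ℕ | n % 2 = 1} ∧ n ≤ x + 2} ⊆
        {n : ℕ | n ∈ {n : ℕ | n % 2 = 1} ∧ n ≤ x} ∪ {n : ℕ | n % 2 = 1 ∧ (n = x + 1 ∨ n = x + 2)} := by
      intro n hn
      simp only [Set.mem_setOf_eq, Set.mem_union] at hn ⊢
      omega
    have h3 : {n : ℕ | n % 2 = 1 ∧ (n = x + 1 ∨ n = x + 2)} ⊆ {if (x + 1) % 2 = 1 then x + 1 else x + 2} := by
      intro n hn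
      simp only [Set.mem_setOf_eq, Set.mem_singleton_iff] at hn ⊢
      split_ifs <;> omega
    have h4 : Set.ncard {n : ℕ | n % 2 = 1 ∧ (n = x + 1 ∨ n = x + 2)} ≤ 1 := by
      have := Set.ncard_le_ncard h3 (Set.finite_singleton _)
      rwa [Set.ncard_singleton] at this
    have h5 : Set.ncard {n : ℕ | n ∈ {n : ℕ | n % 2 = 1} ∧ n ≤ x + 2} ≤
        Set.ncard {n : ℕ | n ∈ {n : ℕ | n % 2 = 1} ∧ n ≤ x} + 1 := by
      refine (Set.ncard_le_ncard h2 ((I_fin _ x).union ((Set.finite_singleton _).subset h3))).trans ?_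
      refine (Set.ncard_union_le _ _).trans ?_
      omega
    unfold ct at ih ⊢
    have h6 : (Set.ncard {n : ℕ | n ∈ {n : ℕ | n % 2 = 1} ∧ n ≤ x + 2} : ℝ) ≤
        Set.ncard {n : ℕ | n ∈ {n : ℕ | n % 2 = 1} ∧ n ≤ x} + 1 := by exact_mod_cast h5
    push_cast
    linarith

/-- The lower bound for an invariant set. -/
theorem I_lower {K : ℝ} (hK : ∀ L0 : ℕ, 100 ≤ L0 → ∀ y ∈ Rt L0, ∀ η : ℝ, 0 < η → ∃ x0 : ℕ, ∀ x : ℕ, x0 ≤ x →
    x * ((Phi L0 y - K / L0 ^ 2) / (y * Real.log (4 / 3)) - η) ≤ ct (Cn (8 ^ L0) y) x) {L0 : ℕ} (hL : 100 ≤ L0)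
    {ε : ℝ} (hε : 0 < ε) {R : Set ℕ} (hR : ∀ n, n ∈ R ↔ H62z.T n ∈ R) {F : Finset ℕ} (hF : ∀ y ∈ F, y ∈ Rt L0 ∧ y ∈ R) :
    ∃ x0 : ℕ, ∀ x : ℕ, x0 ≤ x →
      x * (∑ y ∈ F, (Phi L0 y - K / L0 ^ 2) / (y * Real.log (4 / 3)) - ε) ≤ ct {n | n ∈ R ∧ n % 2 = 1} x := by
  classical
  have hc : (0 : ℝ) < (F.card : ℝ) + 1 := by exact_mod_cast Nat.succ_pos F.card
  have hη : 0 < ε / (F.card + 1) := div_pos hε hc
  have h1 : ∀ y : ℕ, ∃ x0 : ℕ, y ∈ F → ∀ x : ℕ, x0 ≤ x →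
      x * ((Phi L0 y - K / L0 ^ 2) / (y * Real.log (4 / 3)) - ε / (F.card + 1)) ≤ ct (Cn (8 ^ L0) y) x := by
    intro y
    by_cases hy : y ∈ F
    · obtain ⟨x0, h0⟩ := hK L0 hL y (hF y hy).1 _ hη
      exact ⟨x0, fun _ => h0⟩
    · exact ⟨0, fun h => absurd h hy⟩
  choose X0 hX0 using h1
  refine ⟨F.sup X0, fun x hx => ?_⟩
  have hodd : ∀ y ∈ F, y % 2 = 1 ∧ y ≤ 8 ^ L0 := by
    intro y hy
    have := (hF y hy).1
    unfold Rt at this
    rw [Finset.mem_filter, Finset.mem_Icc] at this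
    exact ⟨this.2, this.1.2⟩
  have h2 : ct (⋃ y ∈ F, Cn (8 ^ L0) y) x = ∑ y ∈ F, ct (Cn (8 ^ L0) y) x :=
    I_ct_biUnion (fun y hy y' hy' hne => Cn_disjoint (hodd y hy).1 (hodd y' hy').1 (hodd y hy).2 (hodd y' hy').2 hne) x
  have h3 : (⋃ y ∈ F, Cn (8 ^ L0) y) ⊆ {n | n ∈ R ∧ n % 2 = 1} := by
    intro n hn
    simp only [Set.mem_iUnion] at hn
    obtain ⟨y, hy, hny⟩ := hn
    exact ⟨(Cn_inv hR hny).2 (hF y hy).2, Cn_odd (hodd y hy).1 hny⟩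
  have h4 := I_ct_mono h3 x
  have h5 : ∑ y ∈ F, x * ((Phi L0 y - K / L0 ^ 2) / (y * Real.log (4 / 3)) - ε / (F.card + 1)) ≤
      ∑ y ∈ F, ct (Cn (8 ^ L0) y) x :=
    Finset.sum_le_sum (fun y hy => hX0 y hy x ((Finset.le_sup hy).trans hx))
  have h6 : ∑ y ∈ F, (x : ℝ) * ((Phi L0 y - K / L0 ^ 2) / (y * Real.log (4 / 3)) - ε / (F.card + 1)) =
      x * (∑ y ∈ F, (Phi L0 y - K / L0 ^ 2) / (y * Real.log (4 / 3)) - F.card * (ε / (F.card + 1))) := by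
    rw [← Finset.mul_sum, Finset.sum_sub_distrib, Finset.sum_const, nsmul_eq_mul]
  have h7 : (F.card : ℝ) * (ε / (F.card + 1)) ≤ ε := by
    rw [mul_div_assoc', div_le_iff₀ hc]
    nlinarith
  have h8 : (0 : ℝ) ≤ x := Nat.cast_nonneg x
  nlinarith [mul_le_mul_of_nonneg_left h7 h8]

theorem odd_limit (R : Set ℕ) (hR : ∀ n, n ∈ R ↔ H62z.T n ∈ R) :
    ∃ d : ℝ, Filter.Tendsto (fun x : ℕ => ct {n | n ∈ R ∧ n % 2 = 1} x / x) Filter.atTop (nhds d) := by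
  classical
  obtain ⟨K, hK0, hK⟩ := count_root
  apply cauchySeq_tendsto_of_complete
  have key : ∀ ε : ℝ, 0 < ε → ∃ a : ℝ, ∃ N : ℕ, ∀ x : ℕ, N ≤ x →
      a - ε ≤ ct {n | n ∈ R ∧ n % 2 = 1} x / x ∧ ct {n | n ∈ R ∧ n % 2 = 1} x / x ≤ a + 3 * ε := by
    intro ε hε
    obtain ⟨L1, hL1, hacc⟩ := accounting K ε hε
    have hac := hacc L1 le_rfl
    obtain ⟨x1, h1⟩ := I_lower hK hL1 hε hR (F := (Rt L1).filter (fun y => y ∈ R))
      (fun y hy => (Finset.mem_filter.1 hy))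
    have hRc : ∀ n, n ∈ Rᶜ ↔ H62z.T n ∈ Rᶜ := by
      intro n
      rw [Set.mem_compl_iff, Set.mem_compl_iff, hR n]
    obtain ⟨x2, h2⟩ := I_lower hK hL1 hε hRc (F := (Rt L1).filter (fun y => ¬ y ∈ R))
      (fun y hy => (Finset.mem_filter.1 hy))
    obtain ⟨x3, h3⟩ := exists_nat_gt (1 / ε)
    refine ⟨∑ y ∈ (Rt L1).filter (fun y => y ∈ R), (Phi L1 y - K / L1 ^ 2) / (y * Real.log (4 / 3)),
      max (max x1 x2) (x3 + 1), fun x hx => ?_⟩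
    have hx1 : x1 ≤ x := ((le_max_left _ _).trans (le_max_left _ _)).trans hx
    have hx2 : x2 ≤ x := ((le_max_right _ _).trans (le_max_left _ _)).trans hx
    have hx3 : x3 + 1 ≤ x := (le_max_right _ _).trans hx
    have e1 := h1 x hx1
    have e2 := h2 x hx2
    have e3 := Finset.sum_filter_add_sum_filter_not (Rt L1) (fun y => y ∈ R)
      (fun y : ℕ => (Phi L1 y - K / L1 ^ 2) / (y * Real.log (4 / 3)))
    have e4 : ct ({n | n ∈ R ∧ n % 2 = 1} ∪ {n | n ∈ Rᶜ ∧ n % 2 = 1}) x =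
        ct {n | n ∈ R ∧ n % 2 = 1} x + ct {n | n ∈ Rᶜ ∧ n % 2 = 1} x := by
      apply I_ct_union
      rw [Set.disjoint_left]
      intro n hn hn'
      exact hn'.1 hn.1
    have e5 : ct ({n | n ∈ R ∧ n % 2 = 1} ∪ {n | n ∈ Rᶜ ∧ n % 2 = 1}) x ≤ (x + 1) / 2 := by
      refine (I_ct_mono ?_ x).trans (I_ct_odd x)
      intro n hn
      rcases hn with h | h
      · exact h.2
      · exact h.2
    have hx0 : (0 : ℝ) < x := by
      have : 0 < x := by omega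
      exact_mod_cast this
    have hxε : 1 ≤ ε * x := by
      have h4 : (x3 : ℝ) + 1 ≤ x := by exact_mod_cast hx3
      have h5 : 1 / ε < x := by linarith
      rw [div_lt_iff₀ hε] at h5
      linarith
    constructor
    · rw [le_div_iff₀ hx0]
      linarith
    · rw [div_le_iff₀ hx0]
      nlinarith
  rw [Metric.cauchySeq_iff']
  intro ε hε
  obtain ⟨a, N, hN⟩ := key (ε / 8) (by positivity)
  refine ⟨N, fun x hx => ?_⟩
  obtain ⟨u1, u2⟩ := hN x hx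
  obtain ⟨v1, v2⟩ := hN N le_rfl
  rw [Real.dist_eq, abs_lt]
  constructor <;> linarith

end H78Q
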