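import Pool.Agent.Lib.H78Q.I

set_option autoImplicit false

/-! Chunk J. The density of an invariant set exists. -/

open Finset
namespace H78Q
open H62w H78P

theorem J_half (R : Set ℕ) (hR : ∀ n, n ∈ R ↔ H62z.T n ∈ R) (x : ℕ) :
    ct R x = ct {n | n ∈ R ∧ n % 2 = 1} x + ct R (x / 2) := by
  have h1 : R = {n | n ∈ R ∧ n % 2 = 1} ∪ {n | n ∈ R ∧ n % 2 = 0} := by
    ext n
    simp only [Set.mem_union, Set.mem_setOf_eq]
    have := Nat.mod_two_eq_zero_or_one n
    tauto
  have h2 : ct R x = ct {n | n ∈ R ∧ n % 2 = 1} x + ct {n | n ∈ R ∧ n % 2 = 0} x := by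
    conv_lhs => rw [h1]
    apply I_ct_union
    rw [Set.disjoint_left]
    intro n hn hn'
    have a1 := hn.2
    have a2 := hn'.2
    omega
  rw [h2]
  congr 1
  unfold ct
  have h3 : {n : ℕ | n ∈ {n : ℕ | n ∈ R ∧ n % 2 = 0} ∧ n ≤ x} = (fun m => 2 * m) '' {n : ℕ | n ∈ R ∧ n ≤ x / 2} := by
    ext n
    simp only [Set.mem_setOf_eq, Set.mem_image]
    constructor
    · rintro ⟨⟨hn, h0⟩, hx⟩
      refine ⟨n / 2, ⟨?_, by omega⟩, by omega⟩
      have := (hR n).1 hn
      unfold H62z.T at this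
      rwa [if_pos h0] at this
    · rintro ⟨m, ⟨hm, hx⟩, rfl⟩
      refine ⟨⟨?_, by omega⟩, by omega⟩
      rw [hR]
      unfold H62z.T
      rw [if_pos (by omega)]
      have : 2 * m / 2 = m := by omega
      rwa [this]
  rw [h3, Set.ncard_image_of_injective]
  intro a b hab
  simp only at hab
  omega

theorem nat_limit (R : Set ℕ) (hR : ∀ n, n ∈ R ↔ H62z.T n ∈ R) :
    ∃ d : ℝ, 0 ≤ d ∧ d ≤ 1 ∧ Filter.Tendsto (fun x : ℕ => ct R x / x) Filter.atTop (nhds d) := by
  obtain ⟨d, hd⟩ := odd_limit R hR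
  have hlim : Filter.Tendsto (fun x : ℕ => ct R x / x) Filter.atTop (nhds (2 * d)) := by
    rw [Metric.tendsto_atTop]
    intro ε hε
    rw [Metric.tendsto_atTop] at hd
    obtain ⟨N1, hN1⟩ := hd (ε / 8) (by positivity)
    obtain ⟨N2, hN2⟩ := exists_nat_gt (|d| / (ε / 8))
    set N := max (max N1 N2) 1 with hN
    set B : ℝ := ∑ x ∈ range N, |ct R x - 2 * d * x| with hB
    have hB0 : 0 ≤ B := Finset.sum_nonneg (fun _ _ => abs_nonneg _)
    have step : ∀ x : ℕ, N ≤ x → |ct R x - 2 * d * x| ≤ (ε / 4) * x + |ct R (x / 2) - 2 * d * ((x / 2 : ℕ) : ℝ)| := by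
      intro x hx
      have hx1 : N1 ≤ x := ((le_max_left _ _).trans (le_max_left _ _)).trans hx
      have hx2 : N2 ≤ x := ((le_max_right _ _).trans (le_max_left _ _)).trans hx
      have hx3 : 1 ≤ x := (le_max_right _ _).trans hx
      have hx0 : (0 : ℝ) < x := by exact_mod_cast hx3
      have e1 := hN1 x hx1
      rw [Real.dist_eq] at e1
      have e2 : |ct {n | n ∈ R ∧ n % 2 = 1} x - d * x| ≤ (ε / 8) * x := by
        have e3 : ct {n | n ∈ R ∧ n % 2 = 1} x - d * x = (ct {n | n ∈ R ∧ n % 2 = 1} x / x - d) * x := by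
          field_simp
        rw [e3, abs_mul, abs_of_pos hx0]
        exact mul_le_mul_of_nonneg_right e1.le hx0.le
      have e4 : |d| ≤ (ε / 8) * x := by
        have e5 : (N2 : ℝ) ≤ x := by exact_mod_cast hx2
        have e6 : |d| / (ε / 8) < x := by linarith
        rw [div_lt_iff₀ (by positivity)] at e6
        linarith
      have e7 : |2 * d * ((x / 2 : ℕ) : ℝ) - d * x| ≤ |d| := by
        have e8 : |2 * ((x / 2 : ℕ) : ℝ) - x| ≤ 1 := by
          have e9 : 2 * (x / 2) ≤ x := by omega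
          have e10 : x ≤ 2 * (x / 2) + 1 := by omega
          have e11 : (2 : ℝ) * ((x / 2 : ℕ) : ℝ) ≤ x := by exact_mod_cast e9
          have e12 : (x : ℝ) ≤ 2 * ((x / 2 : ℕ) : ℝ) + 1 := by exact_mod_cast e10
          rw [abs_le]
          constructor <;> linarith
        have e13 : 2 * d * ((x / 2 : ℕ) : ℝ) - d * x = d * (2 * ((x / 2 : ℕ) : ℝ) - x) := by ring
        rw [e13, abs_mul]
        nlinarith [abs_nonneg d]
      rw [J_half R hR x]
      have e14 : ct {n | n ∈ R ∧ n % 2 = 1} x + ct R (x / 2) - 2 * d * x =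
          (ct {n | n ∈ R ∧ n % 2 = 1} x - d * x) + (ct R (x / 2) - 2 * d * ((x / 2 : ℕ) : ℝ)) +
            (2 * d * ((x / 2 : ℕ) : ℝ) - d * x) := by ring
      rw [e14]
      refine (abs_add_three _ _ _).trans ?_
      linarith
    have main : ∀ x : ℕ, |ct R x - 2 * d * x| ≤ (ε / 2) * x + B := by
      intro x
      induction x using Nat.strong_induction_on with
      | _ x ih =>
        by_cases hx : N ≤ x
        · have e1 := step x hx
          have hx3 : 1 ≤ x := (le_max_right _ _).trans hx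
          have e2 := ih (x / 2) (by omega)
          have e3 : ((x / 2 : ℕ) : ℝ) ≤ x / 2 := by
            have : 2 * (x / 2) ≤ x := by omega
            have : (2 : ℝ) * ((x / 2 : ℕ) : ℝ) ≤ x := by exact_mod_cast this
            linarith
          nlinarith
        · have hx' : x ∈ range N := Finset.mem_range.2 (by omega)
          have e1 := Finset.single_le_sum (f := fun x : ℕ => |ct R x - 2 * d * x|) (fun _ _ => abs_nonneg _) hx'
          have e2 : (0 : ℝ) ≤ (ε / 2) * x := by positivity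
          linarith
    obtain ⟨N3, hN3⟩ := exists_nat_gt (B / (ε / 2))
    refine ⟨N3 + 1, fun x hx => ?_⟩
    have hx0 : (0 : ℝ) < x := by
      have : 0 < x := by omega
      exact_mod_cast this
    have e1 : B < (ε / 2) * x := by
      have e5 : (N3 : ℝ) + 1 ≤ x := by exact_mod_cast hx
      have e6 : B / (ε / 2) < x := by linarith
      rw [div_lt_iff₀ (by positivity)] at e6
      linarith
    rw [Real.dist_eq]
    have e3 : ct R x / x - 2 * d = (ct R x - 2 * d * x) / x := by
      field_simp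
    rw [e3, abs_div, abs_of_pos hx0, div_lt_iff₀ hx0]
    have := main x
    linarith
  refine ⟨2 * d, ?_, ?_, hlim⟩
  · exact ge_of_tendsto' hlim (fun x => div_nonneg (I_ct_nonneg R x) (Nat.cast_nonneg x))
  · have h1 : Filter.Tendsto (fun x : ℕ => (1 : ℝ) + 1 / x) Filter.atTop (nhds (1 + 0)) :=
      tendsto_const_nhds.add tendsto_one_div_atTop_nhds_zero_nat
    rw [add_zero] at h1
    refine le_of_tendsto_of_tendsto hlim h1 ?_
    filter_upwards [Filter.eventually_ge_atTop 1] with x hx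
    have hx0 : (0 : ℝ) < x := by exact_mod_cast hx
    rw [div_le_iff₀ hx0]
    have h2 : ct R x ≤ x + 1 := by
      unfold ct
      have h3 : Set.ncard {n : ℕ | n ∈ R ∧ n ≤ x} ≤ Set.ncard (Set.Iic x) :=
        Set.ncard_le_ncard (fun n hn => hn.2) (Set.finite_Iic x)
      have h4 : Set.ncard (Set.Iic x) = x + 1 := by
        rw [← Nat.card_coe_set_eq]
        simp
      rw [h4] at h3
      exact_mod_cast h3
    have h5 : (1 + 1 / (x : ℝ)) * x = x + 1 := by field_simp
    rw [h5]
    exact h2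

end H78Q
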