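import Pool.Agent.Lib.H78Q.Defs
import Pool.Agent.Lib.H78P.Final

set_option autoImplicit false

/-! Chunk K. Positivity. If a in R, a ≥ 1, some iterate of a is not divisible by 3 and positive (the first odd iterate m ≥ 1 has T m = (3 m + 1)/2, not
divisible by 3). For b in R, 3 not dividing b, H78P.positive_density (with ε = 1) gives c x / b elements n ≤ x with an iterate equal to b, all in R. -/

open Finset
namespace H78Q
open H62w H78P

theorem K_iter (R : Set ℕ) (hR : ∀ n, n ∈ R ↔ H62z.T n ∈ R) (k : ℕ) : ∀ n, n ∈ R ↔ H62z.T^[k] n ∈ R := by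
  induction k with
  | zero => intro n; simp
  | succ k ih =>
    intro n
    rw [Function.iterate_succ_apply, ← ih (H62z.T n)]
    exact hR n

theorem K_odd (R : Set ℕ) (hR : ∀ n, n ∈ R ↔ H62z.T n ∈ R) : ∀ a, a ∈ R → 1 ≤ a → ∃ m ∈ R, m % 2 = 1 := by
  intro a
  induction a using Nat.strong_induction_on with
  | _ a ih =>
    intro ha h1
    rcases Nat.mod_two_eq_zero_or_one a with h | h
    · have h2 : H62z.T a = a / 2 := by simp [H62z.T, h]
      have h3 : a / 2 ∈ R := by rw [← h2]; exact (hR a).1 ha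
      exact ih (a / 2) (by omega) h3 (by omega)
    · exact ⟨a, ha, h⟩

theorem K_root (R : Set ℕ) (hR : ∀ n, n ∈ R ↔ H62z.T n ∈ R) (h1 : ∃ a ∈ R, 1 ≤ a) :
    ∃ b ∈ R, ¬ 3 ∣ b := by
  obtain ⟨a, ha, h1⟩ := h1
  obtain ⟨m, hm, hm2⟩ := K_odd R hR a ha h1
  refine ⟨H62z.T m, (hR m).1 hm, ?_⟩
  have h2 : H62z.T m = (3 * m + 1) / 2 := by simp [H62z.T, hm2]
  rw [h2]
  omega

theorem low_bound (R : Set ℕ) (hR : ∀ n, n ∈ R ↔ H62z.T n ∈ R) (h1 : ∃ a ∈ R, 1 ≤ a) :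
    ∃ c : ℝ, 0 < c ∧ ∃ x0 : ℕ, ∀ x : ℕ, x0 ≤ x → c * x ≤ ct R x := by
  obtain ⟨b, hb, h3⟩ := K_root R hR h1
  have hb0 : 0 < b := Nat.pos_of_ne_zero (fun h => h3 (by rw [h]; exact dvd_zero 3))
  obtain ⟨c, C, hc, hC, h⟩ := H78P.positive_density 1 one_pos
  have hbR : (0 : ℝ) < b := by exact_mod_cast hb0
  refine ⟨c / b, div_pos hc hbR, b, fun x hx => ?_⟩
  have h4 := h b x h3 hx
  have h5 : c / b * x = c * ((x : ℝ) / (b : ℝ)) := by ring
  rw [h5]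
  refine h4.trans ?_
  unfold ct
  have hfin : {n : ℕ | n ∈ R ∧ n ≤ x}.Finite := (Set.finite_Iic x).subset (fun n hn => hn.2)
  have hsub : {n : ℕ | n ≤ x ∧ c * (x : ℝ) ≤ (n : ℝ) ∧
          ∃ k : ℕ, (fun m : ℕ => if m % 2 = 0 then m / 2 else (3 * m + 1) / 2)^[k] n = b ∧
            (∀ j < k, (fun m : ℕ => if m % 2 = 0 then m / 2 else (3 * m + 1) / 2)^[j] n ≠ b) ∧
            |(k : ℝ) - 2 / Real.log (4 / 3) * Real.log ((x : ℝ) / (b : ℝ))| ≤
              1 * Real.log ((x : ℝ) / (b : ℝ)) + C} ⊆ {n : ℕ | n ∈ R ∧ n ≤ x} := by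
    rintro n ⟨hn, -, k, hk, -, -⟩
    refine ⟨?_, hn⟩
    rw [K_iter R hR k n]
    have h6 : H62z.T^[k] n = b := hk
    rw [h6]
    exact hb
  exact_mod_cast Set.ncard_le_ncard hsub hfin

end H78Q
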