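import Pool.Agent.Lib.H78Q.SkJ
import Pool.Agent.Lib.H78Q.SkK
import Pool.Agent.Lib.H62z.SkN

set_option autoImplicit false

/-! Chunk L. Final statements: density of the invariant sets, smallness, countable additivity, law of the total stopping time. -/

open Finset
namespace H78Q

theorem L_fin (S : Set ℕ) (x : ℕ) : {n : ℕ | n ∈ S ∧ n ≤ x}.Finite :=
  (Set.finite_Iic x).subset fun _ hn => hn.2

theorem L_ct_nonneg (S : Set ℕ) (x : ℕ) : 0 ≤ ct S x := Nat.cast_nonneg _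

theorem L_ct_mono {S S' : Set ℕ} (h : S ⊆ S') (x : ℕ) : ct S x ≤ ct S' x := by
  have h1 : {n : ℕ | n ∈ S ∧ n ≤ x} ⊆ {n : ℕ | n ∈ S' ∧ n ≤ x} := fun n hn => ⟨h hn.1, hn.2⟩
  have h2 := Set.ncard_le_ncard h1 (L_fin S' x)
  unfold ct
  exact_mod_cast h2

theorem L_ct_union_le (S S' : Set ℕ) (x : ℕ) : ct (S ∪ S') x ≤ ct S x + ct S' x := by
  unfold ct
  have h1 : {n : ℕ | n ∈ S ∪ S' ∧ n ≤ x} = {n : ℕ | n ∈ S ∧ n ≤ x} ∪ {n : ℕ | n ∈ S' ∧ n ≤ x} := by
    ext n
    simp only [Set.mem_ofPred_eq, Set.mem_union]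
    tauto
  rw [h1]
  exact_mod_cast Set.ncard_union_le _ _

theorem L_ct_disj {S S' : Set ℕ} (h : Disjoint S S') (x : ℕ) : ct (S ∪ S') x = ct S x + ct S' x := by
  unfold ct
  have h1 : {n : ℕ | n ∈ S ∪ S' ∧ n ≤ x} = {n : ℕ | n ∈ S ∧ n ≤ x} ∪ {n : ℕ | n ∈ S' ∧ n ≤ x} := by
    ext n
    simp only [Set.mem_ofPred_eq, Set.mem_union]
    tauto
  rw [h1, Set.ncard_union_eq _ (L_fin S x) (L_fin S' x)]
  · push_cast
    rfl
  · rw [Set.disjoint_left]
    intro n hn hn'
    exact Set.disjoint_left.1 h hn.1 hn'.1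

theorem L_iter {R : Set ℕ} (hR : ∀ n, n ∈ R ↔ H62z.T n ∈ R) (k n : ℕ) : n ∈ R ↔ H62z.T^[k] n ∈ R := by
  induction k generalizing n with
  | zero => rfl
  | succ k ih => rw [Function.iterate_succ_apply, ← ih, hR]

theorem invariant_density (R : Set ℕ) (hR : ∀ n, n ∈ R ↔ H62z.T n ∈ R) :
    ∃ d : ℝ, 0 ≤ d ∧ d ≤ 1 ∧ ((∃ a ∈ R, 1 ≤ a) → 0 < d) ∧
      Filter.Tendsto (fun x : ℕ => ct R x / x) Filter.atTop (nhds d) := by
  obtain ⟨d, h0, h1, h⟩ := nat_limit R hR
  refine ⟨d, h0, h1, fun ha => ?_, h⟩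
  obtain ⟨c, hc, x0, hx⟩ := low_bound R hR ha
  have hcd : c ≤ d := by
    refine ge_of_tendsto h ?_
    filter_upwards [Filter.eventually_ge_atTop (max x0 1)] with x hx'
    have hx1 : (0 : ℝ) < x := by exact_mod_cast (le_max_right x0 1).trans hx'
    rw [le_div_iff₀ hx1]
    exact hx x ((le_max_left _ _).trans hx')
  linarith

/-- An invariant set without elements in `[1, X]` has density at most `C X^(-c)`. -/
theorem small : ∃ c C : ℝ, 0 < c ∧ 0 < C ∧ ∀ (R : Set ℕ) (d : ℝ) (X : ℕ), (∀ n, n ∈ R ↔ H62z.T n ∈ R) → 1 ≤ X →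
    (∀ n ∈ R, 1 ≤ n → X < n) → Filter.Tendsto (fun x : ℕ => ct R x / x) Filter.atTop (nhds d) → d ≤ C * (X : ℝ) ^ (-c) := by
  obtain ⟨c, C, hc, hC, hall⟩ := H62z.almost_all 1 one_pos
  refine ⟨c, C, hc, hC, fun R d X hR hX hno hd => ?_⟩
  have h1 : Filter.Tendsto (fun x : ℕ => 1 / (x : ℝ) + C * (X : ℝ) ^ (-c)) Filter.atTop
      (nhds (0 + C * (X : ℝ) ^ (-c))) :=
    tendsto_one_div_atTop_nhds_zero_nat.add tendsto_const_nhds
  rw [zero_add] at h1
  refine le_of_tendsto_of_tendsto hd h1 ?_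
  filter_upwards [Filter.eventually_ge_atTop 1] with x hx
  have hx0 : (0 : ℝ) < x := by exact_mod_cast hx
  have h2 := hall X x hX hx
  set E : Set ℕ := {n : ℕ | 1 ≤ n ∧ n ≤ x ∧ ¬ ∃ k : ℕ, H62z.T^[k] n ≤ X ∧
    (∀ j < k, H62z.T^[k] n < H62z.T^[j] n) ∧
    |(k : ℝ) - 2 / Real.log (4 / 3) * Real.log ((n : ℝ) / (H62z.T^[k] n : ℕ))| ≤
      1 * Real.log n + C} with hE
  have hEfin : E.Finite := (Set.finite_Iic x).subset fun n hn => hn.2.1
  have hsub : {n : ℕ | n ∈ R ∧ n ≤ x} ⊆ {0} ∪ E := by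
    rintro n ⟨hnR, hnx⟩
    rcases Nat.eq_zero_or_pos n with h0 | h0
    · exact Or.inl h0
    · refine Or.inr ⟨h0, hnx, ?_⟩
      rintro ⟨k, hk, -⟩
      have := hno _ ((L_iter hR k n).1 hnR) (H62z.N_iter_pos h0 k)
      omega
  have h3 : (Set.ncard {n : ℕ | n ∈ R ∧ n ≤ x} : ℝ) ≤ 1 + (E.ncard : ℝ) := by
    have h4 := Set.ncard_le_ncard hsub ((Set.finite_singleton 0).union hEfin)
    have h5 := Set.ncard_union_le ({0} : Set ℕ) E
    rw [Set.ncard_singleton] at h5
    exact_mod_cast h4.trans h5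
  have h6 : ct R x ≤ 1 + C * x * (X : ℝ) ^ (-c) := by
    unfold ct
    linarith
  rw [div_le_iff₀ hx0]
  refine h6.trans (le_of_eq ?_)
  field_simp

/-- Finite additivity. -/
theorem L_fin_add (R : ℕ → Set ℕ) (hd : ∀ i j, i ≠ j → Disjoint (R i) (R j))
    (d : ℕ → ℝ) (h : ∀ i, Filter.Tendsto (fun x : ℕ => ct (R i) x / x) Filter.atTop (nhds (d i))) (m : ℕ) :
    Filter.Tendsto (fun x : ℕ => ct (⋃ i ∈ range m, R i) x / x) Filter.atTop (nhds (∑ i ∈ range m, d i)) := by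
  induction m with
  | zero =>
    have h0 : ∀ x, ct (⋃ i ∈ range 0, R i) x = 0 := by
      intro x
      unfold ct
      simp
    refine (tendsto_const_nhds (x := (0 : ℝ))).congr fun x => ?_
    rw [h0, zero_div]
  | succ m ih =>
    have h1 : (⋃ i ∈ range (m + 1), R i) = (⋃ i ∈ range m, R i) ∪ R m := by
      ext n
      simp only [Set.mem_iUnion, mem_range, Set.mem_union, exists_prop]
      constructor
      · rintro ⟨i, hi, hn⟩
        rcases Nat.lt_succ_iff_lt_or_eq.1 hi with h | h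
        · exact Or.inl ⟨i, h, hn⟩
        · subst h
          exact Or.inr hn
      · rintro (⟨i, hi, hn⟩ | hn)
        · exact ⟨i, by omega, hn⟩
        · exact ⟨m, by omega, hn⟩
    have h2 : Disjoint (⋃ i ∈ range m, R i) (R m) := by
      rw [Set.disjoint_left]
      intro n hn hn'
      simp only [Set.mem_iUnion, mem_range, exists_prop] at hn
      obtain ⟨i, hi, hn⟩ := hn
      exact Set.disjoint_left.1 (hd i m (by omega)) hn hn'
    rw [h1, sum_range_succ]
    refine (ih.add (h m)).congr fun x => ?_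
    rw [L_ct_disj h2, add_div]

/-- Countable additivity. -/
theorem additive (R : ℕ → Set ℕ) (hR : ∀ i n, n ∈ R i ↔ H62z.T n ∈ R i) (hd : ∀ i j, i ≠ j → Disjoint (R i) (R j))
    (d : ℕ → ℝ) (h : ∀ i, Filter.Tendsto (fun x : ℕ => ct (R i) x / x) Filter.atTop (nhds (d i))) :
    Summable d ∧ Filter.Tendsto (fun x : ℕ => ct (⋃ i, R i) x / x) Filter.atTop (nhds (∑' i, d i)) := by
  -- the union has a density
  obtain ⟨dU, -, -, hU⟩ := nat_limit (⋃ i, R i) (fun n => by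
    simp only [Set.mem_iUnion]
    exact exists_congr fun i => hR i n)
  -- so have the tails
  have htail : ∀ m, ∃ e : ℝ, 0 ≤ e ∧ e ≤ 1 ∧
      Filter.Tendsto (fun x : ℕ => ct (⋃ i, R (i + m)) x / x) Filter.atTop (nhds e) := fun m =>
    nat_limit (⋃ i, R (i + m)) (fun n => by
      simp only [Set.mem_iUnion]
      exact exists_congr fun i => hR (i + m) n)
  choose e he0 _ he using htail
  have hsplit : ∀ m, dU = ∑ i ∈ range m, d i + e m := by
    intro m
    have h1 : (⋃ i, R i) = (⋃ i ∈ range m, R i) ∪ (⋃ i, R (i + m)) := by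
      ext n
      simp only [Set.mem_iUnion, mem_range, Set.mem_union, exists_prop]
      constructor
      · rintro ⟨i, hn⟩
        rcases Nat.lt_or_ge i m with h | h
        · exact Or.inl ⟨i, h, hn⟩
        · exact Or.inr ⟨i - m, by rwa [Nat.sub_add_cancel h]⟩
      · rintro (⟨i, -, hn⟩ | ⟨i, hn⟩)
        · exact ⟨i, hn⟩
        · exact ⟨i + m, hn⟩
    have h2 : Disjoint (⋃ i ∈ range m, R i) (⋃ i, R (i + m)) := by
      rw [Set.disjoint_left]
      intro n hn hn'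
      simp only [Set.mem_iUnion, mem_range, exists_prop] at hn hn'
      obtain ⟨i, hi, hn⟩ := hn
      obtain ⟨j, hn'⟩ := hn'
      exact Set.disjoint_left.1 (hd i (j + m) (by omega)) hn hn'
    refine tendsto_nhds_unique hU ?_
    rw [h1]
    refine ((L_fin_add R hd d h m).add (he m)).congr fun x => ?_
    rw [L_ct_disj h2, add_div]
  -- the densities of the tails tend to zero
  have he_lim : Filter.Tendsto e Filter.atTop (nhds 0) := by
    obtain ⟨c, C, hc, hC, hsmall⟩ := small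
    rw [Metric.tendsto_atTop]
    intro ε hε
    obtain ⟨X, hX1, hX⟩ : ∃ X : ℕ, 1 ≤ X ∧ C * (X : ℝ) ^ (-c) < ε := by
      have h1 : Filter.Tendsto (fun X : ℕ => C * (X : ℝ) ^ (-c)) Filter.atTop (nhds (C * 0)) :=
        ((tendsto_rpow_neg_atTop hc).comp tendsto_natCast_atTop_atTop).const_mul C
      rw [mul_zero] at h1
      obtain ⟨X, hX⟩ := ((h1.eventually (gt_mem_nhds hε)).and (Filter.eventually_ge_atTop 1)).exists
      exact ⟨X, hX.2, hX.1⟩
    have hM : ∀ n, ∃ M, ∀ i, M ≤ i → n ∉ R i := by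
      intro n
      by_cases hn : ∃ i, n ∈ R i
      · obtain ⟨i, hi⟩ := hn
        exact ⟨i + 1, fun j hj hj' => Set.disjoint_left.1 (hd i j (by omega)) hi hj'⟩
      · push Not at hn
        exact ⟨0, fun i _ => hn i⟩
    choose M hM using hM
    refine ⟨(range (X + 1)).sup M, fun m hm => ?_⟩
    rw [Real.dist_eq, sub_zero, abs_of_nonneg (he0 m)]
    refine lt_of_le_of_lt (hsmall (⋃ i, R (i + m)) (e m) X (fun n => by
      simp only [Set.mem_iUnion]
      exact exists_congr fun i => hR (i + m) n) hX1 ?_ (he m)) hX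
    intro n hn h1
    by_contra hlt
    push Not at hlt
    simp only [Set.mem_iUnion] at hn
    obtain ⟨i, hi⟩ := hn
    have h2 : M n ≤ (range (X + 1)).sup M := le_sup (mem_range.2 (by omega))
    exact hM n (i + m) (by omega) hi
  have hd0 : ∀ i, 0 ≤ d i := fun i =>
    ge_of_tendsto' (h i) fun x => div_nonneg (L_ct_nonneg _ _) (Nat.cast_nonneg _)
  have hsum : HasSum d dU := by
    rw [hasSum_iff_tendsto_nat_of_nonneg hd0]
    have h1 : (fun m => ∑ i ∈ range m, d i) = fun m => dU - e m := by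
      ext m
      rw [hsplit m]
      ring
    rw [h1]
    have h2 := he_lim.const_sub dU
    rwa [sub_zero] at h2
  exact ⟨hsum.summable, by rw [hsum.tsum_eq]; exact hU⟩

/-- The integers that reach `1`. -/
def L_R1 : Set ℕ := {n | ∃ k, H62z.T^[k] n = 1}

theorem L_T1 : H62z.T 1 = 2 := by unfold H62z.T; norm_num
theorem L_T2 : H62z.T 2 = 1 := by unfold H62z.T; norm_num
theorem L_T0 : H62z.T 0 = 0 := by unfold H62z.T; norm_num

theorem L_R1_inv (n : ℕ) : n ∈ L_R1 ↔ H62z.T n ∈ L_R1 := by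
  constructor
  · rintro ⟨k, hk⟩
    cases k with
    | zero =>
      have h1 : n = 1 := hk
      refine ⟨1, ?_⟩
      rw [h1, L_T1]
      exact L_T2
    | succ k => exact ⟨k, by rwa [Function.iterate_succ_apply] at hk⟩
  · rintro ⟨k, hk⟩
    exact ⟨k + 1, by rwa [Function.iterate_succ_apply]⟩

theorem L_zero (k : ℕ) : H62z.T^[k] 0 = 0 := by
  induction k with
  | zero => rfl
  | succ k ih => rw [Function.iterate_succ_apply, L_T0, ih]

theorem L_R1_pos {n : ℕ} (h : n ∈ L_R1) : 1 ≤ n := by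
  obtain ⟨k, hk⟩ := h
  rcases Nat.eq_zero_or_pos n with h0 | h0
  · rw [h0, L_zero] at hk
    omega
  · exact h0

/-- The counting function of the positive integers. -/
theorem L_ct_pos (x : ℕ) : ct {n | 1 ≤ n} x = x := by
  unfold ct
  have h1 : {n : ℕ | n ∈ {n : ℕ | 1 ≤ n} ∧ n ≤ x} = ↑(Icc 1 x) := by
    ext n
    simp
  rw [h1, Set.ncard_coe_finset, Nat.card_Icc]
  simp

/-- The counting function of all the natural numbers. -/
theorem L_ct_univ (x : ℕ) : ct Set.univ x = x + 1 := by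
  unfold ct
  have h1 : {n : ℕ | n ∈ (Set.univ : Set ℕ) ∧ n ≤ x} = ↑(range (x + 1)) := by
    ext n
    simp
  rw [h1, Set.ncard_coe_finset, card_range]
  push_cast
  ring

/-- Integers reaching `1` in an exceptional time. -/
def L_Ex (ε : ℝ) : Set ℕ :=
  {n : ℕ | 1 ≤ n ∧ ∃ k : ℕ, H62z.T^[k] n = 1 ∧ (∀ j < k, H62z.T^[j] n ≠ 1) ∧
      ¬ |(k : ℝ) - 2 / Real.log (4 / 3) * Real.log n| ≤ ε * Real.log n}

theorem L_Ex_lim {ε : ℝ} (hε : 0 < ε) :
    Filter.Tendsto (fun x : ℕ => ct (L_Ex ε) x / x) Filter.atTop (nhds 0) := by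
  refine (H62z.normal_order ε hε).congr fun x => ?_
  unfold ct
  congr 3
  ext n
  simp only [Set.mem_ofPred_eq, L_Ex]
  tauto

open Classical in
/-- The first hitting time of `1`. -/
theorem L_first {n : ℕ} (h : n ∈ L_R1) : ∃ k, H62z.T^[k] n = 1 ∧ (∀ j < k, H62z.T^[j] n ≠ 1) ∧
    ∀ i, H62z.T^[i] n = 1 → k ≤ i := by
  have h' : ∃ k, H62z.T^[k] n = 1 := h
  exact ⟨Nat.find h', Nat.find_spec h', fun j hj => Nat.find_min h' hj, fun i hi => Nat.find_min' h' hi⟩

/-- The law of the total stopping time. -/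
theorem sigma : ∃ d : ℝ, 0 < d ∧ (d = 1 ↔ ∀ n : ℕ, 1 ≤ n → ∃ k, H62z.T^[k] n = 1) ∧
    (∀ c : ℝ, 2 / Real.log (4 / 3) < c → Filter.Tendsto
      (fun x : ℕ => ct {n | 1 ≤ n ∧ ∃ k : ℕ, (k : ℝ) ≤ c * Real.log n ∧ H62z.T^[k] n = 1} x / x) Filter.atTop (nhds d)) ∧
    (∀ c : ℝ, c < 2 / Real.log (4 / 3) → Filter.Tendsto
      (fun x : ℕ => ct {n | 1 ≤ n ∧ ∃ k : ℕ, (k : ℝ) ≤ c * Real.log n ∧ H62z.T^[k] n = 1} x / x) Filter.atTop (nhds 0)) := by
  obtain ⟨d, -, -, hdpos, hd⟩ := invariant_density L_R1 L_R1_inv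
  refine ⟨d, hdpos ⟨1, ⟨0, rfl⟩, le_refl 1⟩, ⟨fun h1 n hn => ?_, fun hall => ?_⟩, fun c hc => ?_, fun c hc => ?_⟩
  · -- density one gives all
    by_contra hno
    obtain ⟨d', -, -, hd'pos, hd'⟩ := invariant_density L_R1ᶜ (fun n => not_congr (L_R1_inv n))
    have h2 : 0 < d' := hd'pos ⟨n, hno, hn⟩
    have h3 := hd.add hd'
    have h4 : Filter.Tendsto (fun x : ℕ => 1 + 1 / (x : ℝ)) Filter.atTop (nhds (1 + 0)) :=
      tendsto_const_nhds.add tendsto_one_div_atTop_nhds_zero_nat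
    have h5 : d + d' = 1 + 0 := by
      refine tendsto_nhds_unique h3 (h4.congr' ?_)
      filter_upwards [Filter.eventually_ge_atTop 1] with x hx
      have hx0 : (0 : ℝ) < x := by exact_mod_cast hx
      rw [← add_div, ← L_ct_disj disjoint_compl_right, Set.union_compl_self, L_ct_univ, add_div,
        div_self hx0.ne']
    linarith
  · -- all gives density one
    have h1 : L_R1 = {n | 1 ≤ n} := by
      ext n
      exact ⟨fun h => L_R1_pos h, fun h => hall n h⟩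
    refine tendsto_nhds_unique hd (tendsto_const_nhds.congr' ?_)
    filter_upwards [Filter.eventually_ge_atTop 1] with x hx
    have hx0 : (0 : ℝ) < x := by exact_mod_cast hx
    rw [h1, L_ct_pos, div_self hx0.ne']
  · -- large constants
    set S : Set ℕ := {n | 1 ≤ n ∧ ∃ k : ℕ, (k : ℝ) ≤ c * Real.log n ∧ H62z.T^[k] n = 1} with hS
    have hsub : S ⊆ L_R1 := fun n hn => by
      obtain ⟨-, k, -, hk⟩ := hn
      exact ⟨k, hk⟩
    have hex : L_R1 \ S ⊆ L_Ex (c - 2 / Real.log (4 / 3)) := by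
      rintro n ⟨hn, hnS⟩
      obtain ⟨k, hk1, hk2, -⟩ := L_first hn
      refine ⟨L_R1_pos hn, k, hk1, hk2, fun hle => hnS ⟨L_R1_pos hn, k, ?_, hk1⟩⟩
      have := (abs_le.1 hle).2
      linarith
    have hlim0 : Filter.Tendsto (fun x : ℕ => ct (L_R1 \ S) x / x) Filter.atTop (nhds 0) :=
      squeeze_zero (fun x => div_nonneg (L_ct_nonneg _ _) (Nat.cast_nonneg _))
        (fun x => div_le_div_of_nonneg_right (L_ct_mono hex x) (Nat.cast_nonneg _))
        (L_Ex_lim (sub_pos.2 hc))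
    have h1 := hd.sub hlim0
    rw [sub_zero] at h1
    refine h1.congr fun x => ?_
    have h2 : L_R1 = S ∪ (L_R1 \ S) := (Set.union_sdiff_cancel hsub).symm
    have h3 : ct L_R1 x = ct S x + ct (L_R1 \ S) x := by
      conv_lhs => rw [h2]
      exact L_ct_disj Set.disjoint_sdiff_right x
    rw [h3]
    ring
  · -- small constants
    set S : Set ℕ := {n | 1 ≤ n ∧ ∃ k : ℕ, (k : ℝ) ≤ c * Real.log n ∧ H62z.T^[k] n = 1} with hS
    set ε : ℝ := (2 / Real.log (4 / 3) - c) / 2 with hε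
    have hε0 : 0 < ε := by
      rw [hε]
      linarith
    have hsub : S ⊆ {1} ∪ L_Ex ε := by
      rintro n ⟨hn1, i, hi, hin⟩
      rcases Nat.eq_or_lt_of_le hn1 with h1 | h1
      · exact Or.inl h1.symm
      · right
        obtain ⟨k, hk1, hk2, hk3⟩ := L_first (n := n) ⟨i, hin⟩
        refine ⟨hn1, k, hk1, hk2, fun hle => ?_⟩
        have h2 : (k : ℝ) ≤ i := by exact_mod_cast hk3 i hin
        have h3 := (abs_le.1 hle).1
        have h4 : 0 < Real.log n := Real.log_pos (by exact_mod_cast h1)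
        have h5 : (2 / Real.log (4 / 3) - c) * Real.log n ≤ ε * Real.log n := by linarith
        have h6 := le_of_mul_le_mul_right h5 h4
        linarith
    have h1 : ∀ x : ℕ, ct S x / x ≤ 1 / (x : ℝ) + ct (L_Ex ε) x / x := by
      intro x
      rw [← add_div]
      refine div_le_div_of_nonneg_right ?_ (Nat.cast_nonneg _)
      refine (L_ct_mono hsub x).trans ((L_ct_union_le _ _ x).trans ?_)
      have : ct {1} x ≤ 1 := by
        unfold ct
        have h2 := Set.ncard_le_ncard (s := {n : ℕ | n ∈ ({1} : Set ℕ) ∧ n ≤ x}) (t := {1})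
          (fun n hn => hn.1) (Set.finite_singleton 1)
        rw [Set.ncard_singleton] at h2
        exact_mod_cast h2
      linarith
    have h2 := tendsto_one_div_atTop_nhds_zero_nat (𝕜 := ℝ)
    have h3 := h2.add (L_Ex_lim hε0)
    rw [zero_add] at h3
    exact squeeze_zero (fun x => div_nonneg (L_ct_nonneg _ _) (Nat.cast_nonneg _)) h1 h3

end H78Q
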