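import Pool.Agent.Lib.H78Q.SkA3

set_option autoImplicit false

/-! Sets that are invariant from some point on: membership is carried along the path down to a root. -/

open Finset
namespace H78Q
open H62w H78P

theorem M1_T_pow (b k y : ℕ) (h : k ≤ b) : H62z.T^[k] (2 ^ b * y) = 2 ^ (b - k) * y := by
  obtain ⟨c, rfl⟩ := Nat.exists_eq_add_of_le h
  rw [Nat.add_sub_cancel_left, pow_add, mul_assoc]
  exact A3_T_pow k (2 ^ c * y)

/-- All iterates on the way down to `y` are at least `y`. -/
theorem path_ge {X y : ℕ} (hyX : y ≤ X) {l : List ℕ} (h : FPW X y l) :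
    ∀ k ≤ l.sum, y ≤ H62z.T^[k] (en l y) := by
  induction l using List.reverseRecOn with
  | nil =>
    intro k hk
    have hk0 : k = 0 := by simpa using hk
    subst hk0
    exact le_rfl
  | append_singleton l a ih =>
    intro k hk
    have g := A3_FPW_init h
    have v := ((va_append _ _ _).1 h.2.1).2
    have ha : 1 ≤ a := h.1 a (List.mem_append_right _ (List.mem_singleton.2 rfl))
    have hz : y ≤ en l y := ih g 0 (Nat.zero_le _)
    rcases Nat.eq_zero_or_pos k with rfl | hk0
    · exact (hyX.trans_lt (A3_FPW_end (by simp) h)).le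
    · rw [List.sum_append, List.sum_singleton] at hk
      rw [en_append]
      change y ≤ H62z.T^[k] (nx a (en l y))
      have h1 := A3_nx v.1
      have h2 := A3_nx_odd ha v.1
      obtain ⟨b, rfl⟩ := Nat.exists_eq_add_of_le' ha
      have h3 : H62z.T (nx (b + 1) (en l y)) = 2 ^ b * en l y := by
        unfold H62z.T
        rw [if_neg (by omega), h1, pow_succ, mul_right_comm]
        omega
      obtain ⟨j, rfl⟩ := Nat.exists_eq_add_of_le' hk0
      rw [Function.iterate_succ_apply, h3]
      rcases Nat.le_total j b with hj | hj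
      · rw [M1_T_pow b j _ hj]
        exact hz.trans (Nat.le_mul_of_pos_left _ (by positivity))
      · obtain ⟨i, rfl⟩ := Nat.exists_eq_add_of_le hj
        rw [add_comm b i, Function.iterate_add_apply, A3_T_pow]
        exact ih g i (by omega)

theorem inv_iter_ge {R : Set ℕ} {B : ℕ} (hR : ∀ n, B ≤ n → (n ∈ R ↔ H62z.T n ∈ R)) (k n : ℕ)
    (h : ∀ i < k, B ≤ H62z.T^[i] n) : n ∈ R ↔ H62z.T^[k] n ∈ R := by
  induction k with
  | zero => rfl
  | succ k ih =>
    rw [ih (fun i hi => h i (by omega)), Function.iterate_succ_apply']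
    exact hR _ (h k (by omega))

/-- Membership in a set invariant from `B` on is decided by the root. -/
theorem Cn_inv_ge {X y B : ℕ} {R : Set ℕ} (hR : ∀ n, B ≤ n → (n ∈ R ↔ H62z.T n ∈ R)) (hyB : B ≤ y) (hyX : y ≤ X)
    {n : ℕ} (hn : n ∈ Cn X y) : n ∈ R ↔ y ∈ R := by
  obtain ⟨l, -, h1, rfl⟩ := hn
  rw [inv_iter_ge hR l.sum _ (fun i hi => hyB.trans (path_ge hyX h1 i hi.le)), en_iter h1.1 h1.2.1]

end H78Q
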