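import Pool.Agent.Lib.H78Q.J
import Pool.Agent.Lib.H78Q.M1

set_option autoImplicit false

/-! Sets invariant from some point on have a natural density (as chunks I and J). -/

open Finset
namespace H78Q
open H62w H78P

theorem M2_Y0 (L : ℕ) : L ≤ Y0 L := by
  unfold Y0
  have h1 : L ≤ 3 * L - L / 20 := by omega
  exact h1.trans (Nat.lt_two_pow_self).le

/-- Splitting into odd and even members, up to the finitely many exceptions. -/
theorem M2_half (R : Set ℕ) (b : ℕ) (hR : ∀ n, b ≤ n → (n ∈ R ↔ H62z.T n ∈ R)) (x : ℕ) :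
    |ct R x - (ct {n | n ∈ R ∧ n % 2 = 1} x + ct R (x / 2))| ≤ b := by
  have h1 : R = {n | n ∈ R ∧ n % 2 = 1} ∪ {n | n ∈ R ∧ n % 2 = 0} := by
    ext n
    simp only [Set.mem_union, Set.mem_setOf_eq]
    have := Nat.mod_two_eq_zero_or_one n
    tauto
  have h2 : ct R x = ct {n | n ∈ R ∧ n % 2 = 1} x + ct {n | n ∈ R ∧ n % 2 = 0} x := by
    conv_lhs => rw [h1]
    apply I_ct_union
    rw [Set.disjoint_left]
    intro n hn hn'
    have a1 := hn.2
    have a2 := hn'.2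
    omega
  have inj : Function.Injective (fun m : ℕ => 2 * m) := by
    intro a c hac
    simp only at hac
    omega
  have himg : (Set.ncard ((fun m => 2 * m) '' {n : ℕ | n ∈ R ∧ n ≤ x / 2}) : ℝ) = ct R (x / 2) := by
    unfold ct
    rw [Set.ncard_image_of_injective _ inj]
  have key : ∀ n, b ≤ n → n % 2 = 0 → (n ∈ R ↔ n / 2 ∈ R) := by
    intro n hn h0
    rw [hR n hn]
    unfold H62z.T
    rw [if_pos h0]
  have hb : (Set.ncard (Set.Iio b) : ℝ) = b := by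
    rw [← Nat.card_coe_set_eq]
    simp
  have hfin1 : ((fun m => 2 * m) '' {n : ℕ | n ∈ R ∧ n ≤ x / 2}).Finite := (I_fin R (x / 2)).image _
  have u1 : {n : ℕ | n ∈ {n : ℕ | n ∈ R ∧ n % 2 = 0} ∧ n ≤ x} ⊆
      ((fun m => 2 * m) '' {n : ℕ | n ∈ R ∧ n ≤ x / 2}) ∪ Set.Iio b := by
    intro n hn
    simp only [Set.mem_setOf_eq] at hn
    obtain ⟨⟨hn, h0⟩, hx⟩ := hn
    rcases Nat.lt_or_ge n b with h | h
    · exact Or.inr h
    · exact Or.inl ⟨n / 2, ⟨(key n h h0).1 hn, by omega⟩, by simp only; omega⟩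
  have u2 : ((fun m => 2 * m) '' {n : ℕ | n ∈ R ∧ n ≤ x / 2}) ⊆
      {n : ℕ | n ∈ {n : ℕ | n ∈ R ∧ n % 2 = 0} ∧ n ≤ x} ∪ Set.Iio b := by
    rintro _ ⟨m, ⟨hm, hx⟩, rfl⟩
    simp only
    rcases Nat.lt_or_ge (2 * m) b with h | h
    · exact Or.inr h
    · refine Or.inl ⟨⟨(key (2 * m) h (by omega)).2 ?_, by omega⟩, by omega⟩
      have : 2 * m / 2 = m := by omega
      rwa [this]
  have v1 := (Set.ncard_le_ncard u1 (hfin1.union (Set.finite_Iio b))).trans (Set.ncard_union_le _ _)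
  have v2 := (Set.ncard_le_ncard u2 ((I_fin _ x).union (Set.finite_Iio b))).trans (Set.ncard_union_le _ _)
  have w1 : ct {n | n ∈ R ∧ n % 2 = 0} x ≤ ct R (x / 2) + b := by
    rw [← himg, ← hb]
    unfold ct
    exact_mod_cast v1
  have w2 : ct R (x / 2) ≤ ct {n | n ∈ R ∧ n % 2 = 0} x + b := by
    rw [← himg, ← hb]
    unfold ct
    exact_mod_cast v2
  rw [h2, abs_le]
  constructor <;> linarith

/-- The lower bound for a set invariant from `B` on. -/
theorem M2_lower {K : ℝ} (hK : ∀ L0 : ℕ, 100 ≤ L0 → ∀ y ∈ Rt L0, ∀ η : ℝ, 0 < η → ∃ x0 : ℕ, ∀ x : ℕ, x0 ≤ x →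
    x * ((Phi L0 y - K / L0 ^ 2) / (y * Real.log (4 / 3)) - η) ≤ ct (Cn (8 ^ L0) y) x) {L0 : ℕ} (hL : 100 ≤ L0)
    {ε : ℝ} (hε : 0 < ε) {R : Set ℕ} {B : ℕ} (hR : ∀ n, B ≤ n → (n ∈ R ↔ H62z.T n ∈ R)) (hB : B ≤ Y0 L0) {F : Finset ℕ} (hF : ∀ y ∈ F, y ∈ Rt L0 ∧ y ∈ R) :
    ∃ x0 : ℕ, ∀ x : ℕ, x0 ≤ x →
      x * (∑ y ∈ F, (Phi L0 y - K / L0 ^ 2) / (y * Real.log (4 / 3)) - ε) ≤ ct {n | n ∈ R ∧ n % 2 = 1} x := by
  classical
  have hc : (0 : ℝ) < (F.card : ℝ) + 1 := by exact_mod_cast Nat.succ_pos F.card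
  have hη : 0 < ε / (F.card + 1) := div_pos hε hc
  have h1 : ∀ y : ℕ, ∃ x0 : ℕ, y ∈ F → ∀ x : ℕ, x0 ≤ x →
      x * ((Phi L0 y - K / L0 ^ 2) / (y * Real.log (4 / 3)) - ε / (F.card + 1)) ≤ ct (Cn (8 ^ L0) y) x := by
    intro y
    by_cases hy : y ∈ F
    · obtain ⟨x0, h0⟩ := hK L0 hL y (hF y hy).1 _ hη
      exact ⟨x0, fun _ => h0⟩
    · exact ⟨0, fun h => absurd h hy⟩
  choose X0 hX0 using h1
  refine ⟨F.sup X0, fun x hx => ?_⟩
  have hodd : ∀ y ∈ F, y % 2 = 1 ∧ y ≤ 8 ^ L0 := by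
    intro y hy
    have := (hF y hy).1
    unfold Rt at this
    rw [Finset.mem_filter, Finset.mem_Icc] at this
    exact ⟨this.2, this.1.2⟩
  have hge : ∀ y ∈ F, B ≤ y := by
    intro y hy
    have := (hF y hy).1
    unfold Rt at this
    rw [Finset.mem_filter, Finset.mem_Icc] at this
    exact hB.trans this.1.1
  have h2 : ct (⋃ y ∈ F, Cn (8 ^ L0) y) x = ∑ y ∈ F, ct (Cn (8 ^ L0) y) x :=
    I_ct_biUnion (fun y hy y' hy' hne => Cn_disjoint (hodd y hy).1 (hodd y' hy').1 (hodd y hy).2 (hodd y' hy').2 hne) x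
  have h3 : (⋃ y ∈ F, Cn (8 ^ L0) y) ⊆ {n | n ∈ R ∧ n % 2 = 1} := by
    intro n hn
    simp only [Set.mem_iUnion] at hn
    obtain ⟨y, hy, hny⟩ := hn
    exact ⟨(Cn_inv_ge hR (hge y hy) (hodd y hy).2 hny).2 (hF y hy).2, Cn_odd (hodd y hy).1 hny⟩
  have h4 := I_ct_mono h3 x
  have h5 : ∑ y ∈ F, x * ((Phi L0 y - K / L0 ^ 2) / (y * Real.log (4 / 3)) - ε / (F.card + 1)) ≤
      ∑ y ∈ F, ct (Cn (8 ^ L0) y) x :=
    Finset.sum_le_sum (fun y hy => hX0 y hy x ((Finset.le_sup hy).trans hx))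
  have h6 : ∑ y ∈ F, (x : ℝ) * ((Phi L0 y - K / L0 ^ 2) / (y * Real.log (4 / 3)) - ε / (F.card + 1)) =
      x * (∑ y ∈ F, (Phi L0 y - K / L0 ^ 2) / (y * Real.log (4 / 3)) - F.card * (ε / (F.card + 1))) := by
    rw [← Finset.mul_sum, Finset.sum_sub_distrib, Finset.sum_const, nsmul_eq_mul]
  have h7 : (F.card : ℝ) * (ε / (F.card + 1)) ≤ ε := by
    rw [mul_div_assoc', div_le_iff₀ hc]
    nlinarith
  have h8 : (0 : ℝ) ≤ x := Nat.cast_nonneg x
  nlinarith [mul_le_mul_of_nonneg_left h7 h8]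

theorem odd_limit_ge (R : Set ℕ) (B : ℕ) (hR : ∀ n, B ≤ n → (n ∈ R ↔ H62z.T n ∈ R)) :
    ∃ d : ℝ, Filter.Tendsto (fun x : ℕ => ct {n | n ∈ R ∧ n % 2 = 1} x / x) Filter.atTop (nhds d) := by
  classical
  obtain ⟨K, hK0, hK⟩ := count_root
  apply cauchySeq_tendsto_of_complete
  have key : ∀ ε : ℝ, 0 < ε → ∃ a : ℝ, ∃ N : ℕ, ∀ x : ℕ, N ≤ x →
      a - ε ≤ ct {n | n ∈ R ∧ n % 2 = 1} x / x ∧ ct {n | n ∈ R ∧ n % 2 = 1} x / x ≤ a + 3 * ε := by
    intro ε hε
    obtain ⟨L2, hL2, hacc⟩ := accounting K ε hε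
    obtain ⟨L1, hL1, hL12, hL1B⟩ : ∃ L1 : ℕ, 100 ≤ L1 ∧ L2 ≤ L1 ∧ B ≤ Y0 L1 :=
      ⟨max L2 B, hL2.trans (le_max_left _ _), le_max_left _ _, (le_max_right L2 B).trans (M2_Y0 _)⟩
    have hac := hacc L1 hL12
    obtain ⟨x1, h1⟩ := M2_lower hK hL1 hε hR hL1B (F := (Rt L1).filter (fun y => y ∈ R))
      (fun y hy => (Finset.mem_filter.1 hy))
    have hRc : ∀ n, B ≤ n → (n ∈ Rᶜ ↔ H62z.T n ∈ Rᶜ) := by
      intro n hn
      rw [Set.mem_compl_iff, Set.mem_compl_iff, hR n hn]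
    obtain ⟨x2, h2⟩ := M2_lower hK hL1 hε hRc hL1B (F := (Rt L1).filter (fun y => ¬ y ∈ R))
      (fun y hy => (Finset.mem_filter.1 hy))
    obtain ⟨x3, h3⟩ := exists_nat_gt (1 / ε)
    refine ⟨∑ y ∈ (Rt L1).filter (fun y => y ∈ R), (Phi L1 y - K / L1 ^ 2) / (y * Real.log (4 / 3)),
      max (max x1 x2) (x3 + 1), fun x hx => ?_⟩
    have hx1 : x1 ≤ x := ((le_max_left _ _).trans (le_max_left _ _)).trans hx
    have hx2 : x2 ≤ x := ((le_max_right _ _).trans (le_max_left _ _)).trans hx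
    have hx3 : x3 + 1 ≤ x := (le_max_right _ _).trans hx
    have e1 := h1 x hx1
    have e2 := h2 x hx2
    have e3 := Finset.sum_filter_add_sum_filter_not (Rt L1) (fun y => y ∈ R)
      (fun y : ℕ => (Phi L1 y - K / L1 ^ 2) / (y * Real.log (4 / 3)))
    have e4 : ct ({n | n ∈ R ∧ n % 2 = 1} ∪ {n | n ∈ Rᶜ ∧ n % 2 = 1}) x =
        ct {n | n ∈ R ∧ n % 2 = 1} x + ct {n | n ∈ Rᶜ ∧ n % 2 = 1} x := by
      apply I_ct_union
      rw [Set.disjoint_left]
      intro n hn hn'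
      exact hn'.1 hn.1
    have e5 : ct ({n | n ∈ R ∧ n % 2 = 1} ∪ {n | n ∈ Rᶜ ∧ n % 2 = 1}) x ≤ (x + 1) / 2 := by
      refine (I_ct_mono ?_ x).trans (I_ct_odd x)
      intro n hn
      rcases hn with h | h
      · exact h.2
      · exact h.2
    have hx0 : (0 : ℝ) < x := by
      have : 0 < x := by omega
      exact_mod_cast this
    have hxε : 1 ≤ ε * x := by
      have h4 : (x3 : ℝ) + 1 ≤ x := by exact_mod_cast hx3
      have h5 : 1 / ε < x := by linarith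
      rw [div_lt_iff₀ hε] at h5
      linarith
    constructor
    · rw [le_div_iff₀ hx0]
      linarith
    · rw [div_le_iff₀ hx0]
      nlinarith
  rw [Metric.cauchySeq_iff']
  intro ε hε
  obtain ⟨a, N, hN⟩ := key (ε / 8) (by positivity)
  refine ⟨N, fun x hx => ?_⟩
  obtain ⟨u1, u2⟩ := hN x hx
  obtain ⟨v1, v2⟩ := hN N le_rfl
  rw [Real.dist_eq, abs_lt]
  constructor <;> linarith

/-- A set invariant from some point on has a natural density. -/
theorem nat_limit_ge (R : Set ℕ) (b : ℕ) (hR : ∀ n, b ≤ n → (n ∈ R ↔ H62z.T n ∈ R)) :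
    ∃ d : ℝ, 0 ≤ d ∧ d ≤ 1 ∧ Filter.Tendsto (fun x : ℕ => ct R x / x) Filter.atTop (nhds d) := by
  obtain ⟨d, hd⟩ := odd_limit_ge R b hR
  have hlim : Filter.Tendsto (fun x : ℕ => ct R x / x) Filter.atTop (nhds (2 * d)) := by
    rw [Metric.tendsto_atTop]
    intro ε hε
    rw [Metric.tendsto_atTop] at hd
    obtain ⟨N1, hN1⟩ := hd (ε / 8) (by positivity)
    obtain ⟨N2, hN2⟩ := exists_nat_gt ((|d| + b) / (ε / 8))
    set N := max (max N1 N2) 1 with hN
    set B : ℝ := ∑ x ∈ range N, |ct R x - 2 * d * x| with hB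
    have hB0 : 0 ≤ B := Finset.sum_nonneg (fun _ _ => abs_nonneg _)
    have step : ∀ x : ℕ, N ≤ x → |ct R x - 2 * d * x| ≤ (ε / 4) * x + |ct R (x / 2) - 2 * d * ((x / 2 : ℕ) : ℝ)| := by
      intro x hx
      have hx1 : N1 ≤ x := ((le_max_left _ _).trans (le_max_left _ _)).trans hx
      have hx2 : N2 ≤ x := ((le_max_right _ _).trans (le_max_left _ _)).trans hx
      have hx3 : 1 ≤ x := (le_max_right _ _).trans hx
      have hx0 : (0 : ℝ) < x := by exact_mod_cast hx3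
      have e1 := hN1 x hx1
      rw [Real.dist_eq] at e1
      have e2 : |ct {n | n ∈ R ∧ n % 2 = 1} x - d * x| ≤ (ε / 8) * x := by
        have e3 : ct {n | n ∈ R ∧ n % 2 = 1} x - d * x = (ct {n | n ∈ R ∧ n % 2 = 1} x / x - d) * x := by
          field_simp
        rw [e3, abs_mul, abs_of_pos hx0]
        exact mul_le_mul_of_nonneg_right e1.le hx0.le
      have e4 : |d| + b ≤ (ε / 8) * x := by
        have e5 : (N2 : ℝ) ≤ x := by exact_mod_cast hx2
        have e6 : (|d| + b) / (ε / 8) < x := by linarith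
        rw [div_lt_iff₀ (by positivity)] at e6
        linarith
      have e7 : |2 * d * ((x / 2 : ℕ) : ℝ) - d * x| ≤ |d| := by
        have e8 : |2 * ((x / 2 : ℕ) : ℝ) - x| ≤ 1 := by
          have e9 : 2 * (x / 2) ≤ x := by omega
          have e10 : x ≤ 2 * (x / 2) + 1 := by omega
          have e11 : (2 : ℝ) * ((x / 2 : ℕ) : ℝ) ≤ x := by exact_mod_cast e9
          have e12 : (x : ℝ) ≤ 2 * ((x / 2 : ℕ) : ℝ) + 1 := by exact_mod_cast e10
          rw [abs_le]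
          constructor <;> linarith
        have e13 : 2 * d * ((x / 2 : ℕ) : ℝ) - d * x = d * (2 * ((x / 2 : ℕ) : ℝ) - x) := by ring
        rw [e13, abs_mul]
        nlinarith [abs_nonneg d]
      have e15 := M2_half R b hR x
      have e14 : ct R x - 2 * d * x = (ct R x - (ct {n | n ∈ R ∧ n % 2 = 1} x + ct R (x / 2))) +
          ((ct {n | n ∈ R ∧ n % 2 = 1} x - d * x) + (ct R (x / 2) - 2 * d * ((x / 2 : ℕ) : ℝ)) +
            (2 * d * ((x / 2 : ℕ) : ℝ) - d * x)) := by ring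
      rw [e14]
      refine (abs_add_le _ _).trans ?_
      have e16 := abs_add_three (ct {n | n ∈ R ∧ n % 2 = 1} x - d * x) (ct R (x / 2) - 2 * d * ((x / 2 : ℕ) : ℝ))
        (2 * d * ((x / 2 : ℕ) : ℝ) - d * x)
      linarith
    have main : ∀ x : ℕ, |ct R x - 2 * d * x| ≤ (ε / 2) * x + B := by
      intro x
      induction x using Nat.strong_induction_on with
      | _ x ih =>
        by_cases hx : N ≤ x
        · have e1 := step x hx
          have hx3 : 1 ≤ x := (le_max_right _ _).trans hx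
          have e2 := ih (x / 2) (by omega)
          have e3 : ((x / 2 : ℕ) : ℝ) ≤ x / 2 := by
            have : 2 * (x / 2) ≤ x := by omega
            have : (2 : ℝ) * ((x / 2 : ℕ) : ℝ) ≤ x := by exact_mod_cast this
            linarith
          nlinarith
        · have hx' : x ∈ range N := Finset.mem_range.2 (by omega)
          have e1 := Finset.single_le_sum (f := fun x : ℕ => |ct R x - 2 * d * x|) (fun _ _ => abs_nonneg _) hx'
          have e2 : (0 : ℝ) ≤ (ε / 2) * x := by positivity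
          linarith
    obtain ⟨N3, hN3⟩ := exists_nat_gt (B / (ε / 2))
    refine ⟨N3 + 1, fun x hx => ?_⟩
    have hx0 : (0 : ℝ) < x := by
      have : 0 < x := by omega
      exact_mod_cast this
    have e1 : B < (ε / 2) * x := by
      have e5 : (N3 : ℝ) + 1 ≤ x := by exact_mod_cast hx
      have e6 : B / (ε / 2) < x := by linarith
      rw [div_lt_iff₀ (by positivity)] at e6
      linarith
    rw [Real.dist_eq]
    have e3 : ct R x / x - 2 * d = (ct R x - 2 * d * x) / x := by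
      field_simp
    rw [e3, abs_div, abs_of_pos hx0, div_lt_iff₀ hx0]
    have := main x
    linarith
  refine ⟨2 * d, ?_, ?_, hlim⟩
  · exact ge_of_tendsto' hlim (fun x => div_nonneg (I_ct_nonneg R x) (Nat.cast_nonneg x))
  · have h1 : Filter.Tendsto (fun x : ℕ => (1 : ℝ) + 1 / x) Filter.atTop (nhds (1 + 0)) :=
      tendsto_const_nhds.add tendsto_one_div_atTop_nhds_zero_nat
    rw [add_zero] at h1
    refine le_of_tendsto_of_tendsto hlim h1 ?_
    filter_upwards [Filter.eventually_ge_atTop 1] with x hx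
    have hx0 : (0 : ℝ) < x := by exact_mod_cast hx
    rw [div_le_iff₀ hx0]
    have h2 : ct R x ≤ x + 1 := by
      unfold ct
      have h3 : Set.ncard {n : ℕ | n ∈ R ∧ n ≤ x} ≤ Set.ncard (Set.Iic x) :=
        Set.ncard_le_ncard (fun n hn => hn.2) (Set.finite_Iic x)
      have h4 : Set.ncard (Set.Iic x) = x + 1 := by
        rw [← Nat.card_coe_set_eq]
        simp
      rw [h4] at h3
      exact_mod_cast h3
    have h5 : (1 + 1 / (x : ℝ)) * x = x + 1 := by field_simp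
    rw [h5]
    exact h2

end H78Q
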