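import Pool.Agent.Lib.H78Q.M2
import Pool.Agent.Lib.H78Q.L

set_option autoImplicit false

/-! The predecessor set of every `a` has a natural density, at least `c / a` if `3` does not divide `a`. -/

open Finset
namespace H78Q

theorem pred_ev (a : ℕ) : ∀ n, a + 1 ≤ n → (n ∈ {n : ℕ | ∃ k, H62z.T^[k] n = a} ↔ H62z.T n ∈ {n : ℕ | ∃ k, H62z.T^[k] n = a}) := by
  intro n hn
  constructor
  · rintro ⟨k, hk⟩
    cases k with
    | zero =>
      have h1 : n = a := hk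
      omega
    | succ k => exact ⟨k, by rwa [Function.iterate_succ_apply] at hk⟩
  · rintro ⟨k, hk⟩
    exact ⟨k + 1, by rwa [Function.iterate_succ_apply]⟩

theorem pred_density : ∃ c : ℝ, 0 < c ∧ ∀ a : ℕ, ¬ 3 ∣ a → ∃ d : ℝ, c / a ≤ d ∧
    Filter.Tendsto (fun x : ℕ => ct {n : ℕ | ∃ k, H62z.T^[k] n = a} x / x) Filter.atTop (nhds d) := by
  obtain ⟨c, C, hc, hC, h⟩ := H78P.positive_density 1 one_pos
  refine ⟨c, hc, fun a ha => ?_⟩
  obtain ⟨d, h0, h1, hd⟩ := nat_limit_ge _ (a + 1) (pred_ev a)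
  refine ⟨d, ?_, hd⟩
  refine ge_of_tendsto hd ?_
  have ha0 : 0 < a := Nat.pos_of_ne_zero (fun h => ha (by rw [h]; exact dvd_zero 3))
  have haR : (0 : ℝ) < a := by exact_mod_cast ha0
  filter_upwards [Filter.eventually_ge_atTop a] with x hx
  have hx0 : (0 : ℝ) < x := by
    have : 0 < x := by omega
    exact_mod_cast this
  rw [le_div_iff₀ hx0]
  have h4 := h a x ha hx
  have h5 : c / a * x = c * ((x : ℝ) / (a : ℝ)) := by ring
  rw [h5]
  refine h4.trans ?_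
  unfold ct
  have hfin : {n : ℕ | n ∈ {n : ℕ | ∃ k, H62z.T^[k] n = a} ∧ n ≤ x}.Finite :=
    (Set.finite_Iic x).subset (fun n hn => hn.2)
  have hsub : {n : ℕ | n ≤ x ∧ c * (x : ℝ) ≤ (n : ℝ) ∧
          ∃ k : ℕ, (fun m : ℕ => if m % 2 = 0 then m / 2 else (3 * m + 1) / 2)^[k] n = a ∧
            (∀ j < k, (fun m : ℕ => if m % 2 = 0 then m / 2 else (3 * m + 1) / 2)^[j] n ≠ a) ∧
            |(k : ℝ) - 2 / Real.log (4 / 3) * Real.log ((x : ℝ) / (a : ℝ))| ≤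
              1 * Real.log ((x : ℝ) / (a : ℝ)) + C} ⊆ {n : ℕ | n ∈ {n : ℕ | ∃ k, H62z.T^[k] n = a} ∧ n ≤ x} := by
    rintro n ⟨hn, -, k, hk, -, -⟩
    exact ⟨⟨k, hk⟩, hn⟩
  exact_mod_cast Set.ncard_le_ncard hsub hfin

end H78Q
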